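import Pool.Agent.J4H95.FS.Step

/-!
# Closed runs can be rearranged to stay in a bounded box
-/

set_option autoImplicit false

namespace Pool.Agent.J4H95.FS.Net

variable {τ : Type} [Fintype τ] [DecidableEq τ] {N : Net τ} {k : ℕ}

theorem flat_all (hk : N.Bd k) {D h a a' r V B : ℕ} (hD : D ≤ h) (hkh : k ≤ h) (hh0 : 0 < h)
    (hB : k * a + Fintype.card τ * (k * k) + k * k + k ≤ B) : ∀ (n : ℕ) {L : List τ},
    L.length ≤ n → FInv N D h a a' r V L → ∃ L0 β, L.Perm (L0 ++ β) ∧ FInv N D h a a' r V L0 ∧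
      Park N h r (k * k) β ∧ ∀ z ∈ N.sys.sts (0, 0) L0, z.1 ≤ h + B := by
  intro n
  induction n with
  | zero =>
    intro L hn hL
    have : L = [] := List.length_eq_zero_iff.1 (by omega)
    subst this
    refine ⟨[], [], by simp, hL, Park.nil, ?_⟩
    intro z hz
    obtain rfl : z = (0, 0) := by simpa using hz
    exact Nat.zero_le _
  | succ n ih =>
    intro L hn hL
    by_cases hc : ∃ z ∈ N.sys.sts (0, 0) L, h + B < z.1
    · obtain ⟨z, hz, hzB⟩ := hc
      obtain ⟨L', β, h1, h2, h3, h4⟩ := flat_step hk hD hkh hh0 hB hL hz hzB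
      obtain ⟨L0, γ, h5, h6, h7, h8⟩ := ih (by omega) h3
      refine ⟨L0, γ ++ β, ?_, h6, h7.append h4, h8⟩
      rw [← List.append_assoc]
      exact h1.trans (h5.append_right β)
    · push Not at hc
      exact ⟨L, [], by simp, hL, Park.nil, hc⟩

/-- Flattening the first place. -/
theorem flat (hk : N.Bd k) {D h a a' V B : ℕ} (hD : D ≤ h) (hkh : k ≤ h) (hh0 : 0 < h)
    (hB : k * a + Fintype.card τ * (k * k) + k * k + k ≤ B) {L : List τ}
    (hr : N.sys.Run (0, 0) L (0, 0)) (c1 : N.chg1 h (0, 0) L ≤ a) (c2 : N.chg2 h (0, 0) L ≤ a')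
    (sh : ∀ z ∈ N.sys.sts (0, 0) L, z.1 < D ∨ z.2 < D) (vb : ∀ z ∈ N.sys.sts (0, 0) L, z.2 ≤ V) :
    ∃ L', L'.Perm L ∧ N.sys.Run (0, 0) L' (0, 0) ∧ N.chg2 h (0, 0) L' ≤ a' ∧
      (∀ z ∈ N.sys.sts (0, 0) L', z.1 < D ∨ z.2 < D) ∧
      ∀ z ∈ N.sys.sts (0, 0) L', z.1 ≤ h + B + k * k ∧ z.2 ≤ V := by
  by_cases hvis : ∃ z ∈ N.sys.sts (0, 0) L, h ≤ z.1
  · obtain ⟨z0, hz0, hz0'⟩ := hvis
    obtain ⟨z, hz, hmax⟩ := Finset.exists_max_image
      ((N.sys.sts (0, 0) L).toFinset.filter fun z => h ≤ z.1) (fun z => z.2)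
      ⟨z0, by simp [hz0, hz0']⟩
    rw [Finset.mem_filter, List.mem_toFinset] at hz
    have hinv : FInv N D h a a' z.2 V L := by
      refine ⟨hr, c1, c2, sh, ?_, ⟨z, hz.1, hz.2, rfl⟩, vb⟩
      intro w hw hw1
      exact hmax w (by simp [hw, hw1])
    obtain ⟨L0, β, h1, h2, h3, h4⟩ := flat_all hk hD hkh hh0 hB L.length le_rfl hinv
    obtain ⟨w, hw, hw1, hw2⟩ := h2.r2
    obtain ⟨P, Q, rfl, p1, p2⟩ := Sys.exists_split h2.run hw
    obtain ⟨b1, b2⟩ := h3 w hw1 hw2
    have hwD : w.2 < D := by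
      rcases h2.sh w hw with h | h
      · omega
      · exact h
    have hrun : N.sys.Run w (β ++ Q) (0, 0) := b1.append p2
    have hmem : ∀ x ∈ N.sys.sts (0, 0) (P ++ (β ++ Q)), x ∈ N.sys.sts (0, 0) (P ++ Q) ∨
        x ∈ N.sys.sts w β := by
      intro x hx
      rcases (Sys.mem_sts_append p1).1 hx with hx | hx
      · exact Or.inl (Sys.sts_sub_left p1 hx)
      · rcases (Sys.mem_sts_append b1).1 hx with hx | hx
        · exact Or.inr hx
        · exact Or.inl (Sys.sts_sub_right p1 hx)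
    refine ⟨P ++ (β ++ Q), ?_, p1.append hrun, ?_, ?_, ?_⟩
    · refine List.Perm.trans ?_ h1.symm
      rw [List.append_assoc]
      exact List.Perm.append_left P List.perm_append_comm
    · have e := h2.c2
      rw [chg2_append p1] at e
      rw [chg2_append p1, chg2_append b1, chg2_low b1 (fun x hx => by
        have := b2 x hx
        omega)]
      omega
    · intro x hx
      rcases hmem x hx with hx | hx
      · exact h2.sh x hx
      · right
        have := b2 x hx
        omega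
    · intro x hx
      rcases hmem x hx with hx | hx
      · exact ⟨(h4 x hx).trans (Nat.le_add_right _ _), h2.vb x hx⟩
      · have h5 := b2 x hx
        have h6 := h4 w hw
        have h7 := h2.vb w hw
        omega
  · push Not at hvis
    exact ⟨L, List.Perm.refl _, hr, c2, sh, fun z hz => ⟨by have := hvis z hz; omega, vb z hz⟩⟩

/-- Splitting a run at the moment when both places can be filled for the first time. -/
theorem chg1_split (hk : N.Bd k) {D : ℕ} {R1 R2 : List τ} {s : ℕ × ℕ}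
    (h1 : N.sys.Run (0, 0) R1 s) (h2 : N.sys.Run s R2 (0, 0)) (hc : ¬ Cov N D R1)
    (hc' : R2 = [] ∨ ∃ j R3, R2 = j :: R3 ∧ ¬ Cov N.rev D R3) :
    N.chg1 (hh k D + k) (0, 0) (R1 ++ R2) ≤
      2 * ((k + 1) * (Fintype.card τ * gg k D)) + 1 := by
  have a1 : N.chg1 (hh k D + k) (0, 0) R1 ≤ (k + 1) * (Fintype.card τ * gg k D) := by
    refine le_trans ?_ (rare_bound hk h1 hc)
    exact Sys.cnt_mono h1 fun z _ t _ _ hz => ⟨by have := hz.1; omega, hz.2⟩
  rw [chg1_append h1]
  rcases hc' with rfl | ⟨j, R3, rfl, hc'⟩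
  · have : N.chg1 (hh k D + k) s [] = 0 := rfl
    omega
  · have a2 : N.chg1 (hh k D + k) s [j] ≤ 1 := by
      refine chg1_le_countP.trans ?_
      exact (List.countP_le_length).trans (by simp)
    have r1 : N.sys.Run s [j] (N.sys.nx j s) := ⟨h2.1, rfl⟩
    have e : N.chg1 (hh k D + k) s (j :: R3) = N.chg1 (hh k D + k) s [j] +
        N.chg1 (hh k D + k) (N.sys.nx j s) R3 := chg1_append (A := [j]) r1
    have r3 : N.sys.Run (N.sys.nx j s) R3 (0, 0) := h2.2
    have r4 := run_rev_aux r3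
    have hc2 : ¬ Cov N.rev D R3.reverse := fun h => hc' (h.mono (List.reverse_perm R3).subperm)
    have a3 := rare_bound hk.rev r4 hc2
    have a4 : N.rev.sys.cnt (fun z t _ => hh k D ≤ z.1 ∧ N.rev.p2 t ≠ N.rev.q2 t) (0, 0)
        R3.reverse = N.sys.cnt (fun _ t z' => hh k D ≤ z'.1 ∧ N.q2 t ≠ N.p2 t)
        (N.sys.nx j s) R3 := cnt_rev (c := fun _ t z' => hh k D ≤ z'.1 ∧ N.q2 t ≠ N.p2 t) r3
    rw [a4] at a3
    have a5 : N.chg1 (hh k D + k) (N.sys.nx j s) R3 ≤
        N.sys.cnt (fun _ t z' => hh k D ≤ z'.1 ∧ N.q2 t ≠ N.p2 t) (N.sys.nx j s) R3 := by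
      refine Sys.cnt_mono r3 fun z _ t hen _ hz => ⟨?_, Ne.symm hz.2⟩
      have e1 : (N.sys.nx t z).1 = z.1 - N.p1 t + N.q1 t := rfl
      have := (hk t).1
      have := hz.1
      omega
    omega

omit [Fintype τ] [DecidableEq τ] in
theorem exists_first {P : List τ → Prop} (h0 : ¬ P []) (L : List τ) :
    ∃ R1 R2, L = R1 ++ R2 ∧ ¬ P R1 ∧ (R2 = [] ∨ ∃ j R3, R2 = j :: R3 ∧ P (R1 ++ [j])) := by
  classical
  induction L using List.reverseRecOn with
  | nil => exact ⟨[], [], rfl, h0, Or.inl rfl⟩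
  | append_singleton L t ih =>
    obtain ⟨R1, R2, rfl, h1, h2⟩ := ih
    rcases h2 with rfl | ⟨j, R3, rfl, h2⟩
    · by_cases h : P (R1 ++ [t])
      · exact ⟨R1, [t], by simp, h1, Or.inr ⟨t, [], rfl, h⟩⟩
      · exact ⟨R1 ++ [t], [], by simp, h, Or.inl rfl⟩
    · exact ⟨R1, j :: (R3 ++ [t]), by simp, h1, Or.inr ⟨j, R3 ++ [t], rfl, h2⟩⟩

/-- The threshold for both places. -/
def dd (m k : ℕ) : ℕ := 2 * (m * k)

/-- The number of changes allowed. -/
def aa (m k : ℕ) : ℕ := 2 * ((k + 1) * (m * gg k (dd m k))) + 1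

/-- The slack of flattening. -/
def bb (m k : ℕ) : ℕ := k * aa m k + m * (k * k) + k * k + k

/-- The size of the box. -/
def zz (m k : ℕ) : ℕ := k * gg k (dd m k) + dd m k + (hh k (dd m k) + k + bb m k + k * k)

/-- **Bounded box theorem.** The letters of a closed run of a net with two places can be arranged
to a closed run in a box whose size depends only on the net. -/
theorem box (hk : N.Bd k) (hk1 : 1 ≤ k) {L : List τ} (hL : N.sys.Run (0, 0) L (0, 0)) :
    ∃ L', L'.Perm L ∧ N.sys.Run (0, 0) L' (0, 0) ∧ ∀ z ∈ N.sys.sts (0, 0) L',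
      z.1 ≤ zz (Fintype.card τ) k ∧ z.2 ≤ zz (Fintype.card τ) k := by
  set m := Fintype.card τ with hm
  have e1 : N.e1 L = 0 := by
    have := run_e1 hL
    simp only [Nat.cast_zero, zero_add] at this
    exact this.symm
  have e2 : N.e2 L = 0 := by
    have := run_e2 hL
    simp only [Nat.cast_zero, zero_add] at this
    exact this.symm
  have hdeep : ∀ A C, L = A ++ C → Cov N (dd m k) A → Cov N.rev (dd m k) C →
      ∃ L', L'.Perm L ∧ N.sys.Run (0, 0) L' (0, 0) ∧ ∀ z ∈ N.sys.sts (0, 0) L',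
      z.1 ≤ zz m k ∧ z.2 ≤ zz m k := by
    intro A C hAC hA hC
    obtain ⟨L', h1, h2, h3⟩ := deep hk (D := dd m k) rfl rfl (List.Perm.of_eq hAC) e1 e2 hA hC
    refine ⟨L', h1, h2, fun z hz => ?_⟩
    have := h3 z hz
    unfold zz
    omega
  rcases Nat.eq_zero_or_pos L.length with h0 | h0
  · have : L = [] := List.length_eq_zero_iff.1 h0
    subst this
    refine ⟨[], List.Perm.refl _, rfl, ?_⟩
    intro z hz
    obtain rfl : z = (0, 0) := by simpa using hz
    exact ⟨Nat.zero_le _, Nat.zero_le _⟩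
  have hm1 : 1 ≤ m := by
    obtain ⟨t, ht⟩ := List.exists_mem_of_length_pos h0
    exact Fintype.card_pos_iff.2 ⟨t⟩
  have hd1 : 1 ≤ dd m k := by
    unfold dd
    have := Nat.mul_le_mul hm1 hk1
    omega
  have hnil : ¬ Cov N (dd m k) ([] : List τ) := by
    rintro ⟨σ, s, h1, h2, h3, h4⟩
    obtain rfl := List.subperm_nil.1 h1
    obtain rfl : (0, 0) = s := h2
    simp at h3
    omega
  obtain ⟨R1, R2, hR, hc, hc'⟩ := exists_first hnil L
  have hr := hL
  rw [hR] at hr
  obtain ⟨s, r1, r2⟩ := Sys.run_append.1 hr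
  by_cases hgood : ∃ A C, L = A ++ C ∧ Cov N (dd m k) A ∧ Cov N.rev (dd m k) C
  · obtain ⟨A, C, h1, h2, h3⟩ := hgood
    exact hdeep A C h1 h2 h3
  · have hc2 : R2 = [] ∨ ∃ j R3, R2 = j :: R3 ∧ ¬ Cov N.rev (dd m k) R3 := by
      rcases hc' with h | ⟨j, R3, h, h'⟩
      · exact Or.inl h
      · refine Or.inr ⟨j, R3, h, fun hcov => hgood ⟨R1 ++ [j], R3, ?_, h', hcov⟩⟩
        rw [hR, h]
        simp
    have hsh : ∀ z ∈ N.sys.sts (0, 0) L, z.1 < dd m k ∨ z.2 < dd m k := by
      intro z hz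
      by_contra hcon
      push Not at hcon
      obtain ⟨A, B, hAB, h1, h2⟩ := Sys.exists_split hL hz
      refine hgood ⟨A, B, hAB, ⟨A, z, List.Subperm.refl _, h1, hcon⟩,
        ⟨B.reverse, z, (List.reverse_perm B).subperm, run_rev_aux h2, hcon⟩⟩
    have c1 : N.chg1 (hh k (dd m k) + k) (0, 0) L ≤ aa m k := by
      rw [hR]
      exact chg1_split hk r1 r2 hc hc2
    have c2 : N.chg2 (hh k (dd m k) + k) (0, 0) L ≤ aa m k := by
      have h1 : N.swap.chg1 (hh k (dd m k) + k) (0, 0) (R1 ++ R2) ≤ aa m k := by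
        refine chg1_split hk.swap (s := s.swap) (run_swap (s := (0, 0)).2 r1)
          (run_swap (s' := (0, 0)).2 r2) (fun h => hc ?_) ?_
        · simpa using h.swap
        · rcases hc2 with h | ⟨j, R3, h, h'⟩
          · exact Or.inl h
          · refine Or.inr ⟨j, R3, h, fun h2 => h' ?_⟩
            have h3 : Cov (N.rev.swap).swap (dd m k) R3 := Cov.swap h2
            simpa only [swap_swap] using h3
      have h2 : N.swap.chg1 (hh k (dd m k) + k) (0, 0) L = N.chg2 (hh k (dd m k) + k) (0, 0) L :=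
        chg1_swap (s := (0, 0))
      rw [← h2, hR]
      exact h1
    have hhd : dd m k ≤ hh k (dd m k) := by unfold hh; omega
    obtain ⟨L1, p1, p2, p3, p4, p5⟩ := flat hk (D := dd m k) (h := hh k (dd m k) + k)
      (a := aa m k) (a' := aa m k) (B := bb m k) (V := k * L.length) (by omega) (by omega)
      (by omega) (le_refl _) hL c1 c2 hsh (by
        intro z hz
        have := (sts_bound hk hL hz).2.1
        simpa using this)
    obtain ⟨L2, q1, q2, -, q4, q5⟩ := flat (N := N.swap) hk.swap (D := dd m k)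
      (h := hh k (dd m k) + k)
      (a := aa m k) (a' := N.swap.chg2 (hh k (dd m k) + k) (0, 0) L1) (B := bb m k)
      (V := hh k (dd m k) + k + bb m k + k * k) (L := L1) (by omega) (by omega)
      (by omega) (le_refl _) (run_swap (s := (0, 0)) (s' := (0, 0)).2 p2)
      (by
        have := chg1_swap (N := N) (h := hh k (dd m k) + k) (s := (0, 0)) (L := L1)
        exact (le_of_eq this).trans p3) (le_refl _) (by
        intro z hz
        have hz' : z.swap ∈ N.sys.sts (0, 0) L1 := by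
          rw [← mem_sts_swap]
          simpa using hz
        have := p4 _ hz'
        simp only [Prod.fst_swap, Prod.snd_swap] at this
        omega) (by
        intro z hz
        have hz' : z.swap ∈ N.sys.sts (0, 0) L1 := by
          rw [← mem_sts_swap]
          simpa using hz
        have := (p5 _ hz').1
        simpa using this)
    refine ⟨L2, q1.trans p1, (run_swap (s := (0, 0)) (s' := (0, 0))).1 q2, ?_⟩
    intro z hz
    have hz' : z.swap ∈ N.swap.sys.sts (0, 0) L2 := (mem_sts_swap (s := (0, 0))).2 hz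
    have := q5 _ hz'
    simp only [Prod.fst_swap, Prod.snd_swap] at this
    unfold zz
    omega

end Pool.Agent.J4H95.FS.Net
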