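import Pool.Agent.J4H95.FS.Net

/-!
# Runs in a finite set of states: a short core and short loops
-/

set_option autoImplicit false

namespace Pool.Agent.J4H95.FS.Sys

variable {σ τ : Type} {Y : Sys σ τ}

theorem sts_prefix (s : σ) (A B : List τ) : Y.sts s A <+: Y.sts s (A ++ B) := by
  induction A generalizing s with
  | nil =>
    cases B with
    | nil => exact List.prefix_refl _
    | cons t B => exact ⟨Y.sts (Y.nx t s) B, rfl⟩
  | cons t A ih =>
    obtain ⟨r, hr⟩ := ih (Y.nx t s)
    exact ⟨r, by rw [List.cons_append, sts_cons, sts_cons, List.cons_append, hr]⟩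

theorem sts_snoc {s m : σ} {A : List τ} {t : τ} (h : Y.Run s A m) :
    Y.sts s (A ++ [t]) = Y.sts s A ++ [Y.nx t m] := by
  induction A generalizing s with
  | nil =>
    obtain rfl : s = m := h
    rfl
  | cons c A ih => rw [List.cons_append, sts_cons, sts_cons, ih h.2, List.cons_append]

/-- A run through a finite set of states splits into a short core and short loops attached to
it. -/
theorem core_aux [DecidableEq σ] (S : Finset σ) {s : σ} {L : List τ} :
    ∀ {s' : σ}, Y.Run s L s' → (∀ z ∈ Y.sts s L, z ∈ S) →
      ∃ (C P : List τ) (c : σ) (loops : List (List τ)),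
        L.Perm (C ++ P ++ loops.flatten) ∧ Y.Run s C c ∧ Y.Run c P s' ∧ (Y.sts c P).Nodup ∧
        (∀ z ∈ Y.sts c P, z ∈ Y.sts s C) ∧ (∀ z ∈ Y.sts s C, z ∈ S) ∧
        C.length ≤ S.card * (Y.sts s C).toFinset.card ∧
        ∀ l ∈ loops, l.length ≤ S.card ∧ ∃ x ∈ Y.sts s C, Y.Run x l x := by
  classical
  induction L using List.reverseRecOn with
  | nil =>
    intro s' h hS
    obtain rfl : s = s' := h
    exact ⟨[], [], s, [], by simp, rfl, rfl, by simp, fun z hz => hz, hS, by simp, by simp⟩
  | append_singleton L t ih =>
    intro s' h hS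
    obtain ⟨s1, h1, h2⟩ := run_append.1 h
    obtain ⟨hen, hs'⟩ := h2
    obtain rfl : Y.nx t s1 = s' := hs'
    rw [sts_snoc h1] at hS
    obtain ⟨C, P, c, loops, a1, a2, a3, a4, a5, a6, a7, a8⟩ := ih h1 (fun z hz =>
      hS z (List.mem_append_left _ hz))
    have hsS : Y.nx t s1 ∈ S := hS _ (by simp)
    have hPl : P.length + 1 ≤ S.card := by
      rw [← length_sts (Y := Y) c P, ← List.toFinset_card_of_nodup a4]
      refine Finset.card_le_card fun z hz => ?_
      exact a6 z (a5 z (List.mem_toFinset.1 hz))
    have hsnoc : Y.Run c (P ++ [t]) (Y.nx t s1) := a3.append ⟨hen, rfl⟩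
    by_cases hnew : Y.nx t s1 ∈ Y.sts s C
    · by_cases hP : Y.nx t s1 ∈ Y.sts c P
      · obtain ⟨P1, P2, rfl, p1, p2⟩ := exists_split a3 hP
        refine ⟨C, P1, c, (P2 ++ [t]) :: loops, ?_, a2, p1, ?_, ?_, a6, a7, ?_⟩
        · rw [List.perm_iff_count]
          intro b
          have := a1.count_eq b
          simp only [List.count_append, List.flatten_cons] at this ⊢
          omega
        · exact a4.sublist (sts_prefix c P1 P2).sublist
        · exact fun z hz => a5 z ((sts_prefix c P1 P2).subset hz)
        · intro l hl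
          rcases List.mem_cons.1 hl with rfl | hl
          · refine ⟨?_, _, hnew, p2.append ⟨hen, rfl⟩⟩
            simp only [List.length_append, List.length_cons, List.length_nil] at hPl ⊢
            omega
          · exact a8 l hl
      · refine ⟨C, P ++ [t], c, loops, ?_, a2, hsnoc, ?_, ?_, a6, a7, a8⟩
        · rw [List.perm_iff_count]
          intro b
          have := a1.count_eq b
          simp only [List.count_append] at this ⊢
          omega
        · rw [sts_snoc a3, List.nodup_append]
          refine ⟨a4, by simp, ?_⟩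
          intro a ha b hb
          rw [List.mem_singleton.1 hb]
          rintro rfl
          exact hP ha
        · intro z hz
          rw [sts_snoc a3, List.mem_append, List.mem_singleton] at hz
          rcases hz with hz | rfl
          · exact a5 z hz
          · exact hnew
    · have hrun : Y.Run s (C ++ (P ++ [t])) (Y.nx t s1) := a2.append hsnoc
      have hsub : ∀ z ∈ Y.sts s C, z ∈ Y.sts s (C ++ (P ++ [t])) := fun z hz =>
        (sts_prefix s C _).subset hz
      refine ⟨C ++ (P ++ [t]), [], Y.nx t s1, loops, ?_, hrun, rfl, by simp, ?_, ?_, ?_, ?_⟩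
      · rw [List.perm_iff_count]
        intro b
        have := a1.count_eq b
        simp only [List.count_append, List.count_nil] at this ⊢
        omega
      · intro z hz
        obtain rfl : z = Y.nx t s1 := by simpa using hz
        exact end_mem hrun
      · intro z hz
        rcases (mem_sts_append a2).1 hz with hz | hz
        · exact a6 z hz
        · rw [sts_snoc a3, List.mem_append, List.mem_singleton] at hz
          rcases hz with hz | rfl
          · exact a6 z (a5 z hz)
          · exact hsS
      · have hcard : (Y.sts s C).toFinset.card + 1 ≤ (Y.sts s (C ++ (P ++ [t]))).toFinset.card := by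
          rw [← Finset.card_insert_of_notMem (s := (Y.sts s C).toFinset) (a := Y.nx t s1)
            (by simpa using hnew)]
          refine Finset.card_le_card fun z hz => ?_
          rw [List.mem_toFinset]
          rcases Finset.mem_insert.1 hz with rfl | hz
          · exact end_mem hrun
          · exact hsub z (List.mem_toFinset.1 hz)
        have := Nat.mul_le_mul_left S.card hcard
        simp only [List.length_append, List.length_cons, List.length_nil]
        rw [Nat.mul_add, Nat.mul_one] at this
        omega
      · intro l hl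
        obtain ⟨b1, x, hx, b2⟩ := a8 l hl
        exact ⟨b1, x, hsub x hx, b2⟩

theorem core [DecidableEq σ] (S : Finset σ) {s s' : σ} {L : List τ} (h : Y.Run s L s')
    (hS : ∀ z ∈ Y.sts s L, z ∈ S) : ∃ (C : List τ) (loops : List (List τ)),
      L.Perm (C ++ loops.flatten) ∧ Y.Run s C s' ∧ C.length ≤ S.card * S.card + S.card ∧
      ∀ l ∈ loops, l.length ≤ S.card ∧ ∃ x ∈ Y.sts s C, Y.Run x l x := by
  obtain ⟨C, P, c, loops, a1, a2, a3, a4, a5, a6, a7, a8⟩ := core_aux S h hS
  refine ⟨C ++ P, loops, a1, a2.append a3, ?_, ?_⟩
  · have h1 : (Y.sts s C).toFinset.card ≤ S.card :=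
      Finset.card_le_card fun z hz => a6 z (List.mem_toFinset.1 hz)
    have h2 : P.length + 1 ≤ S.card := by
      rw [← length_sts (Y := Y) c P, ← List.toFinset_card_of_nodup a4]
      refine Finset.card_le_card fun z hz => ?_
      exact a6 z (a5 z (List.mem_toFinset.1 hz))
    have h3 := Nat.mul_le_mul_left S.card h1
    rw [List.length_append]
    omega
  · intro l hl
    obtain ⟨b1, x, hx, b2⟩ := a8 l hl
    exact ⟨b1, x, (sts_prefix s C P).subset hx, b2⟩

/-- Loops can be inserted. -/
theorem insert_loops {s s' : σ} {loops : List (List τ)} : ∀ {C : List τ}, Y.Run s C s' →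
    (∀ l ∈ loops, ∃ x ∈ Y.sts s C, Y.Run x l x) →
    ∃ L, L.Perm (C ++ loops.flatten) ∧ Y.Run s L s' := by
  classical
  induction loops with
  | nil => intro C h _; exact ⟨C, by simp, h⟩
  | cons l ls ih =>
    intro C h hl
    obtain ⟨x, hx, hr⟩ := hl l List.mem_cons_self
    obtain ⟨A, B, rfl, h1, h2⟩ := exists_split h hx
    have h3 : Y.Run x (l ++ B) s' := hr.append h2
    obtain ⟨L, h4, h5⟩ := ih (C := A ++ (l ++ B)) (h1.append h3) (by
      intro l' hl'
      obtain ⟨y, hy, hy'⟩ := hl l' (List.mem_cons_of_mem _ hl')
      refine ⟨y, ?_, hy'⟩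
      rcases (mem_sts_append h1).1 hy with hy | hy
      · exact sts_sub_left h1 hy
      · exact sts_sub_right h1 (sts_sub_right hr hy))
    refine ⟨L, ?_, h5⟩
    rw [List.perm_iff_count]
    intro b
    have := h4.count_eq b
    simp only [List.count_append, List.flatten_cons] at this ⊢
    omega

end Pool.Agent.J4H95.FS.Sys
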