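import Pool.Agent.J4H95.FS.Net

/-!
# Short covering runs
-/

set_option autoImplicit false

namespace Pool.Agent.J4H95.FS

variable {τ : Type} {N : Net τ} {k D : ℕ}

namespace Net

theorem run2_of_run {s s' : ℕ × ℕ} {L : List τ} (h : N.sys.Run s L s') :
    N.sys2.Run s.2 L s'.2 := by
  induction L generalizing s with
  | nil => exact congrArg Prod.snd h
  | cons t L ih => exact ⟨h.1.2, ih h.2⟩

theorem cover1 {v v' : ℕ} {L : List τ} (h : N.sys2.Run v L v') (hD : D ≤ v') :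
    ∃ L', L'.Sublist L ∧ L'.length ≤ D ∧ ∃ v'', D ≤ v'' ∧ N.sys2.Run v L' v'' := by
  obtain ⟨A, B, m, rfl, h1, h2, h3, h4⟩ := Sys.first_hit (fun z => D ≤ z) h hD
  obtain ⟨L', h5, h6, h7, -⟩ := Sys.bypass_card h1 (Finset.range D) (fun z hz => by
    rcases h3 z hz with h | h
    · left; rw [Finset.mem_range]; omega
    · exact Or.inr h)
  rw [Finset.card_range] at h6
  exact ⟨L', h5.trans (List.sublist_append_left _ _), h6, m, h2, h7⟩

theorem lift2 (hk : N.Bd k) {u v v' E : ℕ} {L : List τ} (h : N.sys2.Run v L v')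
    (hu : E + k * L.length ≤ u) : ∃ u', E ≤ u' ∧ N.sys.Run (u, v) L (u', v') := by
  induction L generalizing u v with
  | nil =>
    obtain rfl : v = v' := h
    exact ⟨u, by simpa using hu, rfl⟩
  | cons t L ih =>
    have hb := hk t
    rw [List.length_cons, Nat.mul_add, Nat.mul_one] at hu
    obtain ⟨u', h1, h2⟩ := ih (u := u - N.p1 t + N.q1 t) h.2 (by omega)
    refine ⟨u', h1, ⟨?_, h.1⟩, h2⟩
    show N.p1 t ≤ u
    omega

/-- The height from which one place may be neglected. -/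
def hh (k D : ℕ) : ℕ := D + k * D

/-- The length of shortest covering runs. -/
def gg (k D : ℕ) : ℕ := hh k D * hh k D + D

/-- If a run covers `(D, D)`, then a short subword of it does. -/
theorem cover (hk : N.Bd k) {s s' : ℕ × ℕ} {L : List τ} (h : N.sys.Run s L s')
    (hD1 : D ≤ s'.1) (hD2 : D ≤ s'.2) :
    ∃ L', L'.Sublist L ∧ L'.length ≤ gg k D ∧ ∃ s'', D ≤ s''.1 ∧ D ≤ s''.2 ∧
      N.sys.Run s L' s'' := by
  have key : ∀ (M : Net τ), M.Bd k → ∀ {m s' : ℕ × ℕ} {B : List τ}, M.sys.Run m B s' →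
      D ≤ s'.2 → hh k D ≤ m.1 → ∃ B', B'.Sublist B ∧ B'.length ≤ D ∧ ∃ s'', D ≤ s''.1 ∧
        D ≤ s''.2 ∧ M.sys.Run m B' s'' := by
    intro M hM m s' B hr hD hm
    obtain ⟨B', h1, h2, v, h3, h4⟩ := cover1 (run2_of_run hr) hD
    obtain ⟨u, h5, h6⟩ := lift2 hM (E := D) (u := m.1) h4 (by
      have : k * B'.length ≤ k * D := Nat.mul_le_mul_left _ h2
      unfold hh at hm
      omega)
    exact ⟨B', h1, h2, (u, v), h5, h3, h6⟩
  obtain ⟨A, B, m, rfl, h1, h2, h3, h4⟩ := Sys.first_hit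
    (fun z => hh k D ≤ z.1 ∨ hh k D ≤ z.2 ∨ (D ≤ z.1 ∧ D ≤ z.2)) h (Or.inr (Or.inr ⟨hD1, hD2⟩))
  obtain ⟨A', h5, h6, h7, -⟩ := Sys.bypass_card h1
    (Finset.range (hh k D) ×ˢ Finset.range (hh k D)) (fun z hz => by
    rcases h3 z hz with h | h
    · left
      rw [Finset.mem_product, Finset.mem_range, Finset.mem_range]
      push Not at h
      exact ⟨h.1, h.2.1⟩
    · exact Or.inr h)
  rw [Finset.card_product, Finset.card_range] at h6
  rcases h2 with h2 | h2 | h2
  · obtain ⟨B', h8, h9, s'', h10, h11, h12⟩ := key N hk h4 hD2 h2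
    exact ⟨A' ++ B', h5.append h8, by rw [List.length_append]; unfold gg; omega, s'', h10, h11,
      h7.append h12⟩
  · obtain ⟨B', h8, h9, s'', h10, h11, h12⟩ := key N.swap hk.swap (run_swap.2 h4) hD1 h2
    refine ⟨A' ++ B', h5.append h8, by rw [List.length_append]; unfold gg; omega, s''.swap, h11,
      h10, h7.append ?_⟩
    rw [← run_swap]
    simpa using h12
  · exact ⟨A', h5.trans (List.sublist_append_left _ _), by unfold gg; omega, m, h2.1, h2.2, h7⟩

/-- The words in `A` can be arranged (in part) to a run from `(0,0)` covering `(D, D)`. -/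
def Cov (N : Net τ) (D : ℕ) (A : List τ) : Prop :=
  ∃ σ s, σ.Subperm A ∧ N.sys.Run (0, 0) σ s ∧ D ≤ s.1 ∧ D ≤ s.2

theorem Cov.short (hk : N.Bd k) {A : List τ} (h : Cov N D A) :
    ∃ σ s, σ.Subperm A ∧ σ.length ≤ gg k D ∧ N.sys.Run (0, 0) σ s ∧ D ≤ s.1 ∧ D ≤ s.2 := by
  obtain ⟨σ, s, h1, h2, h3, h4⟩ := h
  obtain ⟨σ', h5, h6, s', h7, h8, h9⟩ := cover hk h2 h3 h4
  exact ⟨σ', s', h5.subperm.trans h1, h6, h9, h7, h8⟩

theorem Cov.mono {A B : List τ} (h : Cov N D A) (hAB : A.Subperm B) : Cov N D B := by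
  obtain ⟨σ, s, h1, h2⟩ := h
  exact ⟨σ, s, h1.trans hAB, h2⟩

theorem Cov.swap {A : List τ} (h : Cov N D A) : Cov N.swap D A := by
  obtain ⟨σ, s, h1, h2, h3, h4⟩ := h
  refine ⟨σ, s.swap, h1, ?_, h4, h3⟩
  have := run_swap.2 h2
  simpa using this

/-- The key consequence: a covering run of the form `P ++ X`, where `P` is taken from `R` and the
transitions in `X` occur often in `R`, shows that `R` covers. -/
theorem cov_of_freq [DecidableEq τ] (hk : N.Bd k) {R P X : List τ} {s : ℕ × ℕ} (hP : P.Subperm R)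
    (hX : ∀ t ∈ X, gg k D ≤ R.count t) (h : N.sys.Run (0, 0) (P ++ X) s) (h1 : D ≤ s.1)
    (h2 : D ≤ s.2) : Cov N D R := by
  obtain ⟨σ, h5, h6, s', h7, h8, h9⟩ := cover hk h h1 h2
  refine ⟨σ, s', ?_, h9, h7, h8⟩
  rw [List.subperm_ext_iff]
  intro t ht
  by_cases hf : gg k D ≤ R.count t
  · exact (List.count_le_length).trans (h6.trans hf)
  · have ht' : t ∉ X := fun h => hf (hX t h)
    have e1 : σ.count t ≤ (P ++ X).count t := h5.count_le t
    rw [List.count_append, List.count_eq_zero_of_not_mem ht'] at e1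
    exact e1.trans (hP.count_le t)

end Net

end Pool.Agent.J4H95.FS
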