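import Mathlib

/-!
# Deciding sums of multiples of given vectors bit by bit

Vectors are represented by words (numbers of occurrences of the letters).
-/

set_option autoImplicit false

namespace Pool.Agent.J4H95.FS

variable {α : Type} [DecidableEq α]

/-- All words of length at most `n`. -/
def words (types : List α) : ℕ → List (List α)
  | 0 => [[]]
  | n + 1 => [] :: (words types n).flatMap fun w => types.map fun t => t :: w

omit [DecidableEq α] in
theorem mem_words {types : List α} {n : ℕ} {w : List α} :
    w ∈ words types n ↔ w.length ≤ n ∧ ∀ a ∈ w, a ∈ types := by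
  induction n generalizing w with
  | zero =>
    rw [words, List.mem_singleton]
    constructor
    · rintro rfl; simp
    · rintro ⟨h, -⟩; exact List.length_eq_zero_iff.1 (by omega)
  | succ n ih =>
    rw [words, List.mem_cons, List.mem_flatMap]
    constructor
    · rintro (rfl | ⟨v, hv, h⟩)
      · simp
      · obtain ⟨t, ht, rfl⟩ := List.mem_map.1 h
        obtain ⟨h1, h2⟩ := ih.1 hv
        refine ⟨by simpa using h1, ?_⟩
        intro a ha
        rcases List.mem_cons.1 ha with rfl | ha
        · exact ht
        · exact h2 a ha
    · rintro ⟨h1, h2⟩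
      cases w with
      | nil => exact Or.inl rfl
      | cons t v =>
        refine Or.inr ⟨v, ih.2 ⟨by simpa using h1, fun a ha => h2 a (List.mem_cons_of_mem _ ha)⟩, ?_⟩
        exact List.mem_map.2 ⟨t, h2 t List.mem_cons_self, rfl⟩

omit [DecidableEq α] in
theorem length_words (types : List α) (n : ℕ) :
    (words types n).length ≤ (types.length + 1) ^ n := by
  induction n with
  | zero => simp [words]
  | succ n ih =>
    rw [words, List.length_cons, List.length_flatMap]
    simp only [List.length_map, List.map_const', List.sum_replicate, smul_eq_mul]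
    have h1 : 1 ≤ (types.length + 1) ^ n := Nat.one_le_pow _ _ (by omega)
    rw [pow_succ]
    nlinarith [Nat.mul_le_mul_right types.length ih]

theorem perm_of_counts {types M A : List α} (hM : ∀ a ∈ M, a ∈ types)
    (hA : ∀ a ∈ A, a ∈ types) (h : ∀ t ∈ types, M.count t = A.count t) : A.Perm M := by
  rw [List.perm_iff_count]
  intro t
  by_cases ht : t ∈ types
  · exact (h t ht).symm
  · rw [List.count_eq_zero_of_not_mem (fun h => ht (hM t h)),
      List.count_eq_zero_of_not_mem (fun h => ht (hA t h))]

theorem count_append' (A B : List α) (t : α) : (A ++ B).count t = A.count t + B.count t :=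
  List.count_append

theorem count_of_perm {A B : List α} (h : A.Perm B) (t : α) : A.count t = B.count t :=
  h.count_eq t

/-- Same numbers of occurrences. -/
def same (types : List α) (a b : List α) : Bool := types.all fun t => decide (a.count t = b.count t)

theorem same_iff {types a b : List α} : same types a b = true ↔
    ∀ t ∈ types, a.count t = b.count t := by
  simp [same]

/-- A bit of the number of occurrences. -/
def bitAt (M : List α) (i : ℕ) (t : α) : ℕ := if (M.count t).bits.getD i false then 1 else 0

theorem bits_getD (n i : ℕ) : n.bits.getD i false = n.testBit i := by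
  induction n using Nat.binaryRec' generalizing i with
  | zero => simp
  | bit b n h ih =>
    rw [Nat.bits_append_bit n b h]
    cases i with
    | zero => simp
    | succ i =>
      rw [List.getD_cons_succ, ih, Nat.testBit_bit_succ]

theorem bitAt_eq (M : List α) (i : ℕ) (t : α) : bitAt M i t = M.count t / 2 ^ i % 2 := by
  unfold bitAt
  rw [bits_getD, ← Nat.toNat_testBit]
  cases (M.count t).testBit i <;> rfl

/-- Allow one more loop. -/
def addl (types : List α) (carries W : List (List α)) (l : List α) : List (List α) :=
  carries.filter fun c' => W.any fun c => same types c' c || same types c' (c ++ l)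

/-- Halve the carry. -/
def halve (types : List α) (carries W : List (List α)) (M : List α) (i : ℕ) : List (List α) :=
  carries.filter fun c' => W.any fun c => types.all fun t =>
    decide (c.count t = bitAt M i t + 2 * c'.count t)

/-- One step: allow all loops, then halve. -/
def nstep (types : List α) (carries loops : List (List α)) (M : List α) (W : List (List α))
    (i : ℕ) : List (List α) :=
  halve types carries (loops.foldl (addl types carries) W) M i

/-- The test. -/
def nfa (types : List α) (carries loops : List (List α)) (M L0 : List α) : Bool :=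
  decide ([] ∈ (List.range M.length).foldl (nstep types carries loops M) [L0])

theorem mem_addl {types : List α} {carries W : List (List α)} {l c' : List α} :
    c' ∈ addl types carries W l ↔ c' ∈ carries ∧ ∃ c ∈ W,
      (∀ t ∈ types, c'.count t = c.count t) ∨ (∀ t ∈ types, c'.count t = (c ++ l).count t) := by
  unfold addl
  rw [List.mem_filter, List.any_eq_true]
  simp only [Bool.or_eq_true, same_iff]

theorem mem_halve {types : List α} {carries W : List (List α)} {M c' : List α} {i : ℕ} :
    c' ∈ halve types carries W M i ↔ c' ∈ carries ∧ ∃ c ∈ W,
      ∀ t ∈ types, c.count t = M.count t / 2 ^ i % 2 + 2 * c'.count t := by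
  unfold halve
  rw [List.mem_filter, List.any_eq_true]
  simp only [List.all_eq_true, decide_eq_true_eq, bitAt_eq]

theorem count_flatten_replicate (l : List α) (n : ℕ) (t : α) :
    (List.replicate n l).flatten.count t = n * l.count t := by
  induction n with
  | zero => simp
  | succ n ih => rw [List.replicate_succ, List.flatten_cons, List.count_append, ih]; ring

/-- The invariant for soundness. -/
def SInv (types : List α) (loops : List (List α)) (M L0 : List α) (i : ℕ) (W : List (List α)) :
    Prop :=
  ∀ c ∈ W, ∃ Xs : List (List α), (∀ l ∈ Xs, l ∈ loops) ∧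
    ∀ t ∈ types, L0.count t + Xs.flatten.count t = M.count t % 2 ^ i + 2 ^ i * c.count t

theorem SInv.addl {types : List α} {loops carries : List (List α)} {M L0 : List α} {i : ℕ}
    {W : List (List α)} (h : SInv types loops M L0 i W) {l : List α} (hl : l ∈ loops) :
    SInv types loops M L0 i (addl types carries W l) := by
  intro c' hc'
  obtain ⟨-, c, hc, h1⟩ := mem_addl.1 hc'
  obtain ⟨Xs, h2, h3⟩ := h c hc
  rcases h1 with h1 | h1
  · exact ⟨Xs, h2, fun t ht => by rw [h1 t ht]; exact h3 t ht⟩
  · refine ⟨Xs ++ List.replicate (2 ^ i) l, ?_, ?_⟩
    · intro l' hl'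
      rcases List.mem_append.1 hl' with h | h
      · exact h2 l' h
      · rw [List.eq_of_mem_replicate h]; exact hl
    · intro t ht
      rw [h1 t ht, List.flatten_append, List.count_append, List.count_append,
        count_flatten_replicate, Nat.mul_add, ← Nat.add_assoc, h3 t ht, Nat.add_assoc]

theorem SInv.foldl {types : List α} {loops carries : List (List α)} {M L0 : List α} {i : ℕ}
    (ls : List (List α)) : ∀ {W : List (List α)}, SInv types loops M L0 i W →
    (∀ l ∈ ls, l ∈ loops) → SInv types loops M L0 i (ls.foldl (FS.addl types carries) W) := by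
  induction ls with
  | nil => intro W h _; exact h
  | cons l ls ih =>
    intro W h hl
    exact ih (h.addl (hl l List.mem_cons_self)) fun l' hl' => hl l' (List.mem_cons_of_mem _ hl')

theorem SInv.nstep {types : List α} {loops carries : List (List α)} {M L0 : List α} {i : ℕ}
    {W : List (List α)} (h : SInv types loops M L0 i W) :
    SInv types loops M L0 (i + 1) (nstep types carries loops M W i) := by
  intro c' hc'
  obtain ⟨-, c, hc, h1⟩ := mem_halve.1 hc'
  obtain ⟨Xs, h2, h3⟩ := SInv.foldl (carries := carries) loops h (fun l hl => hl) c hc
  refine ⟨Xs, h2, fun t ht => ?_⟩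
  rw [h3 t ht, h1 t ht, Nat.mul_add, pow_succ, Nat.mod_mul]
  ring

theorem nfa_sound {types : List α} {carries loops : List (List α)} {M L0 : List α}
    (h : nfa types carries loops M L0 = true) : ∃ Xs : List (List α), (∀ l ∈ Xs, l ∈ loops) ∧
      ∀ t ∈ types, M.count t = L0.count t + Xs.flatten.count t := by
  have key : ∀ n, SInv types loops M L0 n
      ((List.range n).foldl (nstep types carries loops M) [L0]) := by
    intro n
    induction n with
    | zero =>
      intro c hc
      rw [List.range_zero, List.foldl_nil, List.mem_singleton] at hc
      subst hc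
      exact ⟨[], by simp, fun t _ => by simp [Nat.mod_one]⟩
    | succ n ih =>
      rw [List.range_succ, List.foldl_append]
      exact ih.nstep
  unfold nfa at h
  rw [decide_eq_true_eq] at h
  obtain ⟨Xs, h1, h2⟩ := key M.length [] h
  refine ⟨Xs, h1, fun t ht => ?_⟩
  rw [h2 t ht, List.count_nil, Nat.mul_zero, Nat.add_zero, Nat.mod_eq_of_lt]
  exact lt_of_le_of_lt List.count_le_length Nat.lt_two_pow_self

/-- Sums of multiples. -/
def Cone (types : List α) : List (List α) → (α → ℕ) → Prop
  | [], v => ∀ t ∈ types, v t = 0
  | l :: ls, v => ∃ x v', Cone types ls v' ∧ ∀ t ∈ types, v t = x * l.count t + v' t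

theorem Cone.zero {types : List α} : ∀ (ls : List (List α)) {v : α → ℕ},
    (∀ t ∈ types, v t = 0) → Cone types ls v
  | [], _, h => h
  | _ :: ls, _, h => ⟨0, fun _ => 0, Cone.zero ls fun _ _ => rfl, fun t ht => by simp [h t ht]⟩

theorem Cone.add {types : List α} : ∀ {ls : List (List α)} {v : α → ℕ} {l : List α}, l ∈ ls →
    Cone types ls v → Cone types ls fun t => l.count t + v t
  | a :: ls, v, l, hl, ⟨x, v', h1, h2⟩ => by
    rcases List.mem_cons.1 hl with rfl | hl
    · exact ⟨x + 1, v', h1, fun t ht => by
        show l.count t + v t = _
        rw [h2 t ht]; ring⟩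
    · refine ⟨x, fun t => l.count t + v' t, Cone.add hl h1, fun t ht => ?_⟩
      show l.count t + v t = x * a.count t + (l.count t + v' t)
      rw [h2 t ht]
      ring

theorem Cone.flatten {types : List α} {ls Xs : List (List α)} (h : ∀ l ∈ Xs, l ∈ ls) :
    Cone types ls fun t => Xs.flatten.count t := by
  induction Xs with
  | nil => exact Cone.zero ls fun t _ => by simp
  | cons l Xs ih =>
    have := Cone.add (h l List.mem_cons_self) (ih fun l' hl' => h l' (List.mem_cons_of_mem _ hl'))
    simpa only [List.flatten_cons, List.count_append] using this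

/-- Adding the odd part. -/
theorem cone_odd {types : List α} {carries : List (List α)} {R : ℕ}
    (hcar : ∀ w, w ∈ carries ↔ w.length ≤ R ∧ ∀ a ∈ w, a ∈ types) : ∀ (ls : List (List α))
    {W : List (List α)} {c : List α} {v : α → ℕ}, (∀ l ∈ ls, ∀ a ∈ l, a ∈ types) →
    Cone types ls v → c ∈ W → (∀ a ∈ c, a ∈ types) → c.length + (ls.map List.length).sum ≤ R →
    ∃ (v' : α → ℕ) (c' : List α), Cone types ls v' ∧ c' ∈ ls.foldl (addl types carries) W ∧
      (∀ t ∈ types, c'.count t + 2 * v' t = c.count t + v t) ∧
      c'.length ≤ c.length + (ls.map List.length).sum := by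
  intro ls
  induction ls with
  | nil =>
    intro W c v _ hv hc _ _
    exact ⟨fun _ => 0, c, fun _ _ => rfl, hc, fun t ht => by rw [hv t ht]; simp, by simp⟩
  | cons l ls ih =>
    intro W c v hls hv hc hct hR
    obtain ⟨x, v1, h1, h2⟩ := hv
    rw [List.map_cons, List.sum_cons] at hR ⊢
    rcases Nat.even_or_odd' x with ⟨y, hy | hy⟩
    · have hc1 : c ∈ addl types carries W l :=
        mem_addl.2 ⟨(hcar c).2 ⟨by omega, hct⟩, c, hc, Or.inl fun _ _ => rfl⟩
      obtain ⟨v', c', g1, g2, g3, g4⟩ := ih (fun l' hl' => hls l' (List.mem_cons_of_mem _ hl')) h1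
        hc1 hct (by omega)
      refine ⟨fun t => y * l.count t + v' t, c', ⟨y, v', g1, fun _ _ => rfl⟩, g2, ?_, by omega⟩
      intro t ht
      rw [h2 t ht, hy]
      have := g3 t ht
      nlinarith
    · have hc1 : c ++ l ∈ addl types carries W l := by
        refine mem_addl.2 ⟨(hcar _).2 ⟨by rw [List.length_append]; omega, ?_⟩, c, hc,
          Or.inr fun _ _ => rfl⟩
        intro a ha
        rcases List.mem_append.1 ha with ha | ha
        · exact hct a ha
        · exact hls l List.mem_cons_self a ha
      obtain ⟨v', c', g1, g2, g3, g4⟩ := ih (fun l' hl' => hls l' (List.mem_cons_of_mem _ hl')) h1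
        hc1 (by
          intro a ha
          rcases List.mem_append.1 ha with ha | ha
          · exact hct a ha
          · exact hls l List.mem_cons_self a ha) (by rw [List.length_append]; omega)
      rw [List.length_append] at g4
      refine ⟨fun t => y * l.count t + v' t, c', ⟨y, v', g1, fun _ _ => rfl⟩, g2, ?_, by omega⟩
      intro t ht
      rw [h2 t ht, hy]
      have := g3 t ht
      rw [List.count_append] at this
      nlinarith

theorem sum_count_le {types : List α} (hnd : types.Nodup) (c : List α) :
    (types.map fun t => c.count t).sum ≤ c.length := by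
  induction types with
  | nil => simp
  | cons t ts ih =>
    rw [List.nodup_cons] at hnd
    rw [List.map_cons, List.sum_cons]
    have h1 : c.countP (fun a => decide (a ∈ ts)) + c.count t ≤ c.length := by
      rw [List.length_eq_countP_add_countP (fun a => decide (a ∈ ts)) (l := c)]
      refine Nat.add_le_add_left ?_ _
      rw [List.count]
      refine List.countP_mono_left fun a _ ha => ?_
      have ha' : a = t := by simpa using ha
      subst ha'
      simpa using hnd.1
    have h2 : (ts.map fun t => c.count t).sum ≤ c.countP (fun a => decide (a ∈ ts)) := by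
      have := ih hnd.2
      clear this h1 ih
      have hnd' := hnd.2
      clear hnd
      induction ts with
      | nil => simp
      | cons s ss ih2 =>
        rw [List.nodup_cons] at hnd'
        rw [List.map_cons, List.sum_cons]
        have h3 := ih2 hnd'.2
        have h4 : c.count s + c.countP (fun a => decide (a ∈ ss)) ≤
            c.countP (fun a => decide (a ∈ s :: ss)) := by
          clear h3 ih2
          induction c with
          | nil => simp
          | cons a c ih3 =>
            simp only [List.count_cons, List.countP_cons] at ih3 ⊢
            by_cases has : a = s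
            · subst has
              have : a ∉ ss := hnd'.1
              simp only [this, decide_false, Bool.false_eq_true, if_false, List.mem_cons_self,
                decide_true, if_true, beq_self_eq_true] at ih3 ⊢
              omega
            · have e : (a == s) = false := by simpa using has
              by_cases hass : a ∈ ss
              · simp only [e, hass, decide_true, if_true, List.mem_cons, or_true,
                  Bool.false_eq_true, if_false] at ih3 ⊢
                omega
              · simp only [e, hass, decide_false, List.mem_cons, or_false, has,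
                  Bool.false_eq_true, if_false] at ih3 ⊢
                omega
        omega
    omega

theorem exists_word {types : List α} (hnd : types.Nodup) (f : α → ℕ) :
    ∃ w : List α, (∀ a ∈ w, a ∈ types) ∧ (∀ t ∈ types, w.count t = f t) ∧
      w.length = (types.map f).sum := by
  induction types with
  | nil => exact ⟨[], by simp, by simp, by simp⟩
  | cons s ts ih =>
    rw [List.nodup_cons] at hnd
    obtain ⟨w, h1, h2, h3⟩ := ih hnd.2
    refine ⟨List.replicate (f s) s ++ w, ?_, ?_, ?_⟩
    · intro a ha
      rcases List.mem_append.1 ha with ha | ha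
      · rw [List.eq_of_mem_replicate ha]; exact List.mem_cons_self
      · exact List.mem_cons_of_mem _ (h1 a ha)
    · intro t ht
      rw [List.count_append, List.count_replicate]
      rcases List.mem_cons.1 ht with rfl | ht
      · have : w.count t = 0 := List.count_eq_zero_of_not_mem fun h => hnd.1 (h1 t h)
        simp [this]
      · have hne : s ≠ t := by rintro rfl; exact hnd.1 ht
        simp [hne, h2 t ht]
    · rw [List.length_append, List.length_replicate, h3, List.map_cons, List.sum_cons]

theorem nfa_complete {types : List α} {carries loops Xs : List (List α)} {R R0 : ℕ}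
    {M L0 : List α} (hnd : types.Nodup)
    (hcar : ∀ w, w ∈ carries ↔ w.length ≤ R ∧ ∀ a ∈ w, a ∈ types) (hR : 2 * R0 ≤ R)
    (hL0 : L0.length ≤ R0) (hL0t : ∀ a ∈ L0, a ∈ types)
    (hls : ∀ l ∈ loops, ∀ a ∈ l, a ∈ types) (hlen : (loops.map List.length).sum ≤ R0)
    (hX : ∀ l ∈ Xs, l ∈ loops) (hM : ∀ t ∈ types, M.count t = L0.count t + Xs.flatten.count t) :
    nfa types carries loops M L0 = true := by
  have key : ∀ n, ∃ c ∈ (List.range n).foldl (nstep types carries loops M) [L0],
      (∀ a ∈ c, a ∈ types) ∧ c.length ≤ R0 ∧ ∃ v, Cone types loops v ∧
        ∀ t ∈ types, c.count t + v t = M.count t / 2 ^ n := by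
    intro n
    induction n with
    | zero =>
      exact ⟨L0, by simp, hL0t, hL0, _, Cone.flatten hX, fun t ht => by simp [hM t ht]⟩
    | succ n ih =>
      rw [List.range_succ, List.foldl_append, List.foldl_cons, List.foldl_nil]
      set W := (List.range n).foldl (nstep types carries loops M) [L0] with hW
      obtain ⟨c, hc, hct, hcl, v, hv, hcv⟩ := ih
      obtain ⟨v', c'', g1, g2, g3, g4⟩ := cone_odd hcar loops (W := W) hls hv hc hct (by omega)
      have hhalf : ∀ t ∈ types, v' t ≤ M.count t / 2 ^ (n + 1) := by
        intro t ht
        have h1 := g3 t ht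
        have h2 := hcv t ht
        rw [pow_succ, ← Nat.div_div_eq_div_mul]
        omega
      obtain ⟨w, w1, w2, w3⟩ := exists_word hnd fun t => M.count t / 2 ^ (n + 1) - v' t
      have hwc : ∀ t ∈ types, c''.count t = M.count t / 2 ^ n % 2 + 2 * w.count t := by
        intro t ht
        have h1 := g3 t ht
        have h2 := hcv t ht
        have h3 := hhalf t ht
        rw [w2 t ht]
        rw [pow_succ, ← Nat.div_div_eq_div_mul] at h3 ⊢
        omega
      have hwl : 2 * w.length ≤ c''.length := by
        refine le_trans ?_ (sum_count_le hnd c'')
        rw [w3, ← List.sum_map_mul_left]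
        refine List.sum_le_sum fun t ht => ?_
        have h1 := hwc t ht
        rw [w2 t ht] at h1
        omega
      refine ⟨w, mem_halve.2 ⟨(hcar w).2 ⟨by omega, w1⟩, c'', g2, hwc⟩, w1, by omega, v', g1, ?_⟩
      intro t ht
      rw [w2 t ht]
      have := hhalf t ht
      omega
  obtain ⟨c, hc, hct, -, v, -, hcv⟩ := key M.length
  unfold nfa
  rw [decide_eq_true_eq]
  have hc0 : c = [] := by
    rcases c with _ | ⟨a, c⟩
    · rfl
    · have h1 := hcv a (hct a List.mem_cons_self)
      have h2 : M.count a / 2 ^ M.length = 0 :=
        Nat.div_eq_of_lt (lt_of_le_of_lt List.count_le_length Nat.lt_two_pow_self)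
      rw [h2, List.count_cons_self] at h1
      omega
  rw [hc0] at hc
  exact hc

end Pool.Agent.J4H95.FS
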