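import Pool.Agent.J4H95.FS.Box
import Pool.Agent.J4H95.FS.Core
import Pool.Agent.J4H95.FS.Nfa

/-!
# Deciding whether given jobs can be arranged to a closed run
-/

set_option autoImplicit false

namespace Pool.Agent.J4H95.FS

namespace Net

variable {τ α : Type}

/-- Renaming of the transitions. -/
def comap (N : Net α) (f : τ → α) : Net τ :=
  ⟨fun t => N.p1 (f t), fun t => N.p2 (f t), fun t => N.q1 (f t), fun t => N.q2 (f t)⟩

theorem run_comap {N : Net α} {f : τ → α} {s s' : ℕ × ℕ} {L : List τ} :
    (N.comap f).sys.Run s L s' ↔ N.sys.Run s (L.map f) s' := by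
  induction L generalizing s with
  | nil => exact Iff.rfl
  | cons t L ih =>
    rw [List.map_cons, Sys.run_cons, Sys.run_cons, ih]
    exact Iff.rfl

theorem sts_comap {N : Net α} {f : τ → α} {s : ℕ × ℕ} {L : List τ} :
    (N.comap f).sys.sts s L = N.sys.sts s (L.map f) := by
  induction L generalizing s with
  | nil => rfl
  | cons t L ih =>
    rw [List.map_cons, Sys.sts_cons, Sys.sts_cons, ih]
    rfl

end Net

/-- A job: the processing times on the three machines. -/
abbrev Job := ℕ × ℕ × ℕ

/-- The net of jobs: the places are the leads of the second machine over the first and of the third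
over the second. -/
def jnet : Net Job := ⟨fun t => t.1, fun t => t.2.1, fun t => t.2.1, fun t => t.2.2⟩

/-- All jobs with processing times at most `k`. -/
def types (k : ℕ) : List Job :=
  (List.range (k + 1)).flatMap fun a => (List.range (k + 1)).flatMap fun b =>
    (List.range (k + 1)).map fun c => (a, b, c)

theorem types_eq (k : ℕ) : types k =
    (List.range (k + 1)).product ((List.range (k + 1)).product (List.range (k + 1))) := by
  unfold types List.product
  refine List.flatMap_congr fun a _ => ?_
  rw [List.map_flatMap]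
  refine List.flatMap_congr fun b _ => ?_
  rw [List.map_map]
  rfl

theorem mem_types {k : ℕ} {t : Job} : t ∈ types k ↔ t.1 ≤ k ∧ t.2.1 ≤ k ∧ t.2.2 ≤ k := by
  obtain ⟨a, b, c⟩ := t
  rw [types_eq, List.pair_mem_product, List.pair_mem_product]
  simp only [List.mem_range, Nat.lt_succ_iff]

theorem nodup_types (k : ℕ) : (types k).Nodup := by
  rw [types_eq]
  exact List.nodup_range.product (List.nodup_range.product List.nodup_range)

theorem length_types (k : ℕ) : (types k).length = (k + 1) * ((k + 1) * (k + 1)) := by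
  rw [types_eq]
  have h1 : ∀ {β γ : Type} (l : List β) (l' : List γ), (l.product l').length =
      l.length * l'.length := fun l l' => List.length_product l l'
  rw [h1, h1, List.length_range]

/-- One job executed. -/
def stepO (o : Option (ℕ × ℕ)) (t : Job) : Option (ℕ × ℕ) :=
  o.bind fun s => if t.1 ≤ s.1 ∧ t.2.1 ≤ s.2 then
    some (s.1 - t.1 + t.2.1, s.2 - t.2.1 + t.2.2) else none

/-- A word of jobs executed. -/
def runO (o : Option (ℕ × ℕ)) (L : List Job) : Option (ℕ × ℕ) := L.foldl stepO o

theorem runO_none (L : List Job) : runO none L = none := by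
  induction L with
  | nil => rfl
  | cons t L ih => exact ih

theorem runO_iff {s s' : ℕ × ℕ} {L : List Job} :
    runO (some s) L = some s' ↔ jnet.sys.Run s L s' := by
  induction L generalizing s with
  | nil => simp [runO]
  | cons t L ih =>
    have e : runO (some s) (t :: L) = runO (stepO (some s) t) L := rfl
    rw [e, Sys.run_cons, ← ih]
    by_cases h : t.1 ≤ s.1 ∧ t.2.1 ≤ s.2
    · have e2 : stepO (some s) t = some (jnet.sys.nx t s) := by
        simp only [stepO, Option.bind_some, if_pos h]
        rfl
      rw [e2]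
      exact ⟨fun h' => ⟨h, h'⟩, fun h' => h'.2⟩
    · have e2 : stepO (some s) t = none := by
        simp only [stepO, Option.bind_some, if_neg h]
      rw [e2, runO_none]
      exact ⟨fun h' => (by simp at h'), fun h' => absurd h'.1 h⟩

/-- The states along a word. -/
def visO (L : List Job) : List (Option (ℕ × ℕ)) :=
  (List.range (L.length + 1)).map fun i => runO (some (0, 0)) (L.take i)

theorem mem_visO {L : List Job} {s' : ℕ × ℕ} (h : jnet.sys.Run (0, 0) L s')
    {o : Option (ℕ × ℕ)} : o ∈ visO L ↔ ∃ x ∈ jnet.sys.sts (0, 0) L, o = some x := by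
  unfold visO
  rw [List.mem_map]
  constructor
  · rintro ⟨i, -, rfl⟩
    have h1 : jnet.sys.Run (0, 0) (L.take i ++ L.drop i) s' := by rwa [List.take_append_drop]
    obtain ⟨m, h2, h3⟩ := Sys.run_append.1 h1
    refine ⟨m, ?_, runO_iff.2 h2⟩
    have := Sys.mem_sts_of_split (B := L.drop i) h2
    rwa [List.take_append_drop] at this
  · rintro ⟨x, hx, rfl⟩
    obtain ⟨A, B, rfl, h1, h2⟩ := Sys.exists_split h hx
    refine ⟨A.length, ?_, ?_⟩
    · rw [List.mem_range, List.length_append]
      omega
    · rw [List.take_left]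
      exact runO_iff.2 h1

/-- The words among `ws` which are loops at a state along `L`. -/
def loopsOf (ws : List (List Job)) (L : List Job) : List (List Job) :=
  ws.filter fun l => (visO L).any fun o => decide (runO o l = o)

theorem mem_loopsOf {ws : List (List Job)} {L l : List Job} {s' : ℕ × ℕ}
    (h : jnet.sys.Run (0, 0) L s') : l ∈ loopsOf ws L ↔
      l ∈ ws ∧ ∃ x ∈ jnet.sys.sts (0, 0) L, jnet.sys.Run x l x := by
  unfold loopsOf
  rw [List.mem_filter, List.any_eq_true]
  simp only [decide_eq_true_eq]
  refine and_congr_right fun _ => ?_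
  constructor
  · rintro ⟨o, ho, h1⟩
    obtain ⟨x, hx, rfl⟩ := (mem_visO h).1 ho
    exact ⟨x, hx, runO_iff.1 h1⟩
  · rintro ⟨x, hx, h1⟩
    exact ⟨some x, (mem_visO h).2 ⟨x, hx, rfl⟩, runO_iff.2 h1⟩

/-- The decision procedure, given the list of letters, the list of short words and the list of
carries. -/
def decM (ts : List Job) (ws cs : List (List Job)) (M : List Job) : Bool :=
  ws.any fun L0 => decide (runO (some (0, 0)) L0 = some (0, 0)) &&
    nfa ts cs (loopsOf ws L0) M L0

/-- The number of letters. -/
def mm (k : ℕ) : ℕ := (k + 1) * ((k + 1) * (k + 1))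

/-- The number of states. -/
def SS (k : ℕ) : ℕ := (Net.zz (mm k) k + 1) * (Net.zz (mm k) k + 1)

/-- The length of the core and of the loops. -/
def GG (k : ℕ) : ℕ := SS k * SS k + SS k

/-- Half of the size of the carries. -/
def RZ (k : ℕ) : ℕ := GG k + 2 ^ (mm k * GG k) * GG k

/-- The size of the carries. -/
def RR (k : ℕ) : ℕ := 2 * RZ k

theorem length_words_le (k : ℕ) : (words (types k) (GG k)).length ≤ 2 ^ (mm k * GG k) := by
  refine (length_words _ _).trans ?_
  rw [length_types, pow_mul]
  exact Nat.pow_le_pow_left Nat.lt_two_pow_self _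

theorem exists_lift {k : ℕ} {M : List Job} (hM : ∀ t ∈ M, t ∈ types k) :
    ∃ M' : List (Fin (k + 1) × Fin (k + 1) × Fin (k + 1)),
      M'.map (fun t => ((t.1 : ℕ), ((t.2.1 : ℕ), (t.2.2 : ℕ)))) = M := by
  induction M with
  | nil => exact ⟨[], rfl⟩
  | cons t M ih =>
    obtain ⟨M', hM'⟩ := ih fun t' ht' => hM t' (List.mem_cons_of_mem _ ht')
    obtain ⟨h1, h2, h3⟩ := mem_types.1 (hM t List.mem_cons_self)
    refine ⟨(⟨t.1, by omega⟩, ⟨t.2.1, by omega⟩, ⟨t.2.2, by omega⟩) :: M', ?_⟩
    rw [List.map_cons, hM']

theorem decM_iff {k : ℕ} (hk1 : 1 ≤ k) {M : List Job} (hM : ∀ t ∈ M, t ∈ types k) :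
    decM (types k) (words (types k) (GG k)) (words (types k) (RR k)) M = true ↔
      ∃ L, L.Perm M ∧ jnet.sys.Run (0, 0) L (0, 0) := by
  unfold decM
  rw [List.any_eq_true]
  constructor
  · rintro ⟨L0, hL0, h⟩
    rw [Bool.and_eq_true, decide_eq_true_eq, runO_iff] at h
    obtain ⟨hrun, hnfa⟩ := h
    obtain ⟨Xs, h1, h2⟩ := nfa_sound hnfa
    have h3 : ∀ l ∈ Xs, l ∈ words (types k) (GG k) ∧
        ∃ x ∈ jnet.sys.sts (0, 0) L0, jnet.sys.Run x l x := fun l hl =>
      (mem_loopsOf hrun).1 (h1 l hl)
    obtain ⟨L, h4, h5⟩ := Sys.insert_loops hrun (fun l hl => (h3 l hl).2)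
    refine ⟨L, h4.trans ?_, h5⟩
    refine perm_of_counts (types := types k) hM ?_ ?_
    · intro t ht
      rcases List.mem_append.1 ht with h | h
      · exact (mem_words.1 hL0).2 t h
      · obtain ⟨l, hl, hl'⟩ := List.mem_flatten.1 h
        exact (mem_words.1 (h3 l hl).1).2 t hl'
    · intro t ht
      rw [count_append']
      exact h2 t ht
  · rintro ⟨L, hLM, hL⟩
    obtain ⟨L', rfl⟩ := exists_lift (k := k) (M := L) (fun t ht => hM t (hLM.subset ht))
    set f : Fin (k + 1) × Fin (k + 1) × Fin (k + 1) → Job :=
      fun t => ((t.1 : ℕ), ((t.2.1 : ℕ), (t.2.2 : ℕ))) with hf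
    have hft : ∀ t, f t ∈ types k := by
      intro t
      rw [mem_types]
      have h1 := t.1.2
      have h2 := t.2.1.2
      have h3 := t.2.2.2
      refine ⟨?_, ?_, ?_⟩ <;> simp only [hf] <;> omega
    have hbd : (jnet.comap f).Bd k := by
      intro t
      have := mem_types.1 (hft t)
      exact ⟨this.1, this.2.1, this.2.1, this.2.2⟩
    have hcard : Fintype.card (Fin (k + 1) × Fin (k + 1) × Fin (k + 1)) = mm k := by
      simp [mm]
    obtain ⟨L1, p1, p2, p3⟩ := Net.box hbd hk1 (Net.run_comap.2 hL)
    rw [hcard] at p3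
    obtain ⟨C, loops, q1, q2, q3, q4⟩ := Sys.core
      (Finset.range (Net.zz (mm k) k + 1) ×ˢ Finset.range (Net.zz (mm k) k + 1)) p2 (by
        intro z hz
        rw [Finset.mem_product, Finset.mem_range, Finset.mem_range]
        have := p3 z hz
        omega)
    rw [Finset.card_product, Finset.card_range] at q3 q4
    have hSG : SS k ≤ GG k := by unfold GG; omega
    have hC : C.map f ∈ words (types k) (GG k) := by
      rw [mem_words]
      refine ⟨by rw [List.length_map]; exact q3, ?_⟩
      intro a ha
      obtain ⟨t, -, rfl⟩ := List.mem_map.1 ha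
      exact hft t
    have hrun : jnet.sys.Run (0, 0) (C.map f) (0, 0) := Net.run_comap.1 q2
    refine ⟨C.map f, hC, ?_⟩
    rw [Bool.and_eq_true, decide_eq_true_eq, runO_iff]
    refine ⟨hrun, ?_⟩
    refine nfa_complete (R := RR k) (R0 := RZ k) (Xs := loops.map (List.map f)) (nodup_types k)
      (fun w => mem_words) (le_refl _) ?_ ?_ ?_ ?_ ?_ ?_
    · exact (mem_words.1 hC).1.trans (Nat.le_add_right _ _)
    · exact (mem_words.1 hC).2
    · intro l hl
      exact (mem_words.1 ((mem_loopsOf hrun).1 hl).1).2
    · have h1 : ((loopsOf (words (types k) (GG k)) (C.map f)).map List.length).sum ≤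
          (loopsOf (words (types k) (GG k)) (C.map f)).length * GG k := by
        rw [← List.length_map (f := List.length), ← smul_eq_mul]
        refine List.sum_le_card_nsmul _ _ fun x hx => ?_
        obtain ⟨l, hl, rfl⟩ := List.mem_map.1 hx
        exact (mem_words.1 ((mem_loopsOf hrun).1 hl).1).1
      have h2 : (loopsOf (words (types k) (GG k)) (C.map f)).length ≤
          (words (types k) (GG k)).length := List.length_filter_le _ _
      have h3 := length_words_le k
      refine h1.trans ((Nat.mul_le_mul_right _ (h2.trans h3)).trans ?_)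
      unfold RZ
      exact Nat.le_add_left _ _
    · intro l hl
      obtain ⟨l', hl', rfl⟩ := List.mem_map.1 hl
      obtain ⟨r1, x, hx, r2⟩ := q4 l' hl'
      refine (mem_loopsOf hrun).2 ⟨?_, x, ?_, Net.run_comap.1 r2⟩
      · rw [mem_words]
        refine ⟨by rw [List.length_map]; exact r1.trans hSG, ?_⟩
        intro a ha
        obtain ⟨t, -, rfl⟩ := List.mem_map.1 ha
        exact hft t
      · rw [← Net.sts_comap]
        exact hx
    · intro t _
      have h1 : M.Perm (C.map f ++ (loops.map (List.map f)).flatten) := by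
        refine hLM.symm.trans ((p1.symm.map f).trans ?_)
        refine (q1.map f).trans ?_
        rw [List.map_append, List.map_flatten]
      rw [count_of_perm h1 t, count_append']

end Pool.Agent.J4H95.FS
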