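import Pool.Agent.J4H95.FS.Mid

/-!
# The case where both places can be filled
-/

set_option autoImplicit false

namespace Pool.Agent.J4H95.FS

theorem subperm_exists {τ : Type} {σ A : List τ} (h : σ.Subperm A) :
    ∃ A', A.Perm (σ ++ A') := by
  obtain ⟨l, h1, h2⟩ := h
  obtain ⟨A', h3⟩ := h2.exists_perm_append
  exact ⟨A', h3.trans (h1.append_right _)⟩

variable {τ : Type} [Fintype τ] [DecidableEq τ] {N : Net τ} {k : ℕ}

namespace Net

/-- The two words `A`, `C` together can be rearranged to a closed run which does not go up much. -/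
theorem deep (hk : N.Bd k) {D g : ℕ} (hD : D = 2 * (Fintype.card τ * k)) (hg : g = gg k D)
    {L A C : List τ} (hL : L.Perm (A ++ C)) (e1 : N.e1 L = 0) (e2 : N.e2 L = 0)
    (hA : Cov N D A) (hC : Cov N.rev D C) :
    ∃ L', L'.Perm L ∧ N.sys.Run (0, 0) L' (0, 0) ∧ ∀ z ∈ N.sys.sts (0, 0) L',
      z.1 ≤ k * g + D ∧ z.2 ≤ k * g + D := by
  obtain ⟨σ, s, a1, a2, a3, a4, a5⟩ := hA.short hk
  obtain ⟨ρ, r, c1, c2, c3, c4, c5⟩ := hC.short hk.rev
  obtain ⟨A', hA'⟩ := subperm_exists a1
  obtain ⟨C', hC'⟩ := subperm_exists c1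
  rw [← hg] at a2 c2
  have c3' : N.sys.Run r ρ.reverse (0, 0) := by
    rw [← run_rev]
    simpa using c3
  have hLp : L.Perm (σ ++ ((A' ++ C') ++ ρ)) := by
    refine hL.trans ((hA'.append hC').trans ?_)
    rw [List.append_assoc, List.append_assoc]
    refine List.Perm.append_left σ ?_
    refine List.Perm.append_left A' ?_
    exact List.perm_append_comm
  have ea := run_e1 a3
  have ea' := run_e2 a3
  have ec := run_e1 c3'
  have ec' := run_e2 c3'
  have er : N.e1 ρ.reverse = N.e1 ρ := e1_perm (List.reverse_perm ρ)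
  have er' : N.e2 ρ.reverse = N.e2 ρ := e2_perm (List.reverse_perm ρ)
  have hsum := e1_perm (N := N) hLp
  have hsum' := e2_perm (N := N) hLp
  rw [e1] at hsum
  rw [e2] at hsum'
  simp only [e1_append, e2_append] at hsum hsum'
  have bs := sts_bound hk a3 (Sys.end_mem a3)
  have bs' : s.1 ≤ k * g ∧ s.2 ≤ k * g := by
    have h := Nat.mul_le_mul_left k a2
    constructor
    · have := bs.1
      simp only [Nat.zero_add] at this
      omega
    · have := bs.2.1
      simp only [Nat.zero_add] at this
      omega
  have br := sts_bound hk c3' (Sys.end_mem c3')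
  have hl : ρ.reverse.length = ρ.length := List.length_reverse
  rw [hl] at br
  have br' : r.1 ≤ k * g ∧ r.2 ≤ k * g := by
    have h := Nat.mul_le_mul_left k c2
    constructor
    · have := br.2.2.1
      simp only [Nat.zero_add] at this
      omega
    · have := br.2.2.2
      simp only [Nat.zero_add] at this
      omega
  obtain ⟨R', r1, r2, r3⟩ := mid hk (R := A' ++ C') (s := s) (s' := r) (B := k * g)
    (hD ▸ a4) (hD ▸ a5) (hD ▸ c4) (hD ▸ c5)
    (by
      simp only [e1_append]
      simp only [Nat.cast_zero] at ea ec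
      linarith)
    (by
      simp only [e2_append]
      simp only [Nat.cast_zero] at ea' ec'
      linarith) bs'.1 bs'.2 br'.1 br'.2
  rw [← hD] at r3
  refine ⟨σ ++ (R' ++ ρ.reverse), ?_, a3.append (r2.append c3'), ?_⟩
  · refine List.Perm.trans ?_ hLp.symm
    exact List.Perm.append_left σ (r1.append (List.reverse_perm ρ))
  · intro z hz
    rcases (Sys.mem_sts_append a3).1 hz with hz | hz
    · have h := sts_bound hk a3 hz
      have h' := Nat.mul_le_mul_left k a2
      have h1 := h.1
      have h2 := h.2.1
      simp only [Nat.zero_add] at h1 h2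
      omega
    · rcases (Sys.mem_sts_append r2).1 hz with hz | hz
      · exact r3 z hz
      · have hz' : z ∈ N.rev.sys.sts (0, 0) ρ := by
          have := (mem_sts_rev (N := N) c3').2 hz
          simpa using this
        have h := sts_bound hk.rev c3 hz'
        have h' := Nat.mul_le_mul_left k c2
        have h1 := h.1
        have h2 := h.2.1
        simp only [Nat.zero_add] at h1 h2
        omega

end Net

end Pool.Agent.J4H95.FS
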