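import Pool.Agent.J4H95.FS.Rare

/-!
# Flattening excursions to large values of one place
-/

set_option autoImplicit false

namespace Pool.Agent.J4H95.FS

theorem countP_eq_sum {τ : Type} [Fintype τ] [DecidableEq τ] (p : τ → Bool) (L : List τ) :
    L.countP p = ∑ t, if p t then L.count t else 0 := by
  induction L with
  | nil => simp
  | cons a L ih =>
    rw [List.countP_cons, ih]
    have : ∀ t, (if p t then (a :: L).count t else 0) =
        (if p t then L.count t else 0) + (if a = t then (if p t then 1 else 0) else 0) := by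
      intro t
      by_cases hp : p t
      · by_cases ha : a = t
        · simp [hp, ha]
        · simp [hp, ha]
      · simp [hp]
    rw [Finset.sum_congr rfl fun t _ => this t, Finset.sum_add_distrib]
    simp

namespace Net

variable {τ : Type} {N : Net τ} {k : ℕ}

/-- Removing copies of a letter which does not touch the second place. -/
theorem remove [DecidableEq τ] (hk : N.Bd k) {t : τ} (ht : N.p2 t = N.q2 t) {U : List τ} :
    ∀ {s s' : ℕ × ℕ} {x : ℕ} {d : ℤ} {a : ℕ}, N.sys.Run s U s' → x ≤ U.count t →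
      (∀ z ∈ N.sys.sts s U, ∀ i ≤ x, (k : ℤ) ≤ z.1 + d - i * ((N.q1 t : ℤ) - N.p1 t)) →
      (a : ℤ) = s.1 + d →
      ∃ (U' : List τ) (b : ℕ), U.Perm (List.replicate x t ++ U') ∧
        (b : ℤ) = s'.1 + d - x * ((N.q1 t : ℤ) - N.p1 t) ∧ N.sys.Run (a, s.2) U' (b, s'.2) ∧
        (∀ z' ∈ N.sys.sts (a, s.2) U', ∃ z ∈ N.sys.sts s U, ∃ i ≤ x,
          (z'.1 : ℤ) = z.1 + d - i * ((N.q1 t : ℤ) - N.p1 t) ∧ z'.2 = z.2) ∧
        (∀ z ∈ N.sys.sts s U, ∃ z' ∈ N.sys.sts (a, s.2) U', z'.2 = z.2) := by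
  induction U with
  | nil =>
    intro s s' x d a h hx hc ha
    obtain rfl : s = s' := h
    obtain rfl : x = 0 := by simpa using hx
    refine ⟨[], a, by simp, by simpa using ha, rfl, ?_, ?_⟩
    · intro z' hz'
      obtain rfl : z' = (a, s.2) := by simpa using hz'
      exact ⟨s, by simp, 0, le_rfl, by simpa using ha, rfl⟩
    · intro z hz
      obtain rfl : z = s := by simpa using hz
      exact ⟨(a, z.2), by simp, rfl⟩
  | cons c U ih =>
    intro s s' x d a h hx hc ha
    obtain ⟨⟨hen1, hen2⟩, h⟩ := h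
    have hs1 : (((N.sys.nx c s).1 : ℕ) : ℤ) = s.1 - N.p1 c + N.q1 c := by
      show ((s.1 - N.p1 c + N.q1 c : ℕ) : ℤ) = _
      push_cast [hen1]
      ring
    have hs2 : (N.sys.nx c s).2 = s.2 - N.p2 c + N.q2 c := rfl
    by_cases hct : c = t ∧ 0 < x
    · obtain ⟨rfl, hx0⟩ := hct
      obtain ⟨y, rfl⟩ : ∃ y, x = y + 1 := ⟨x - 1, by omega⟩
      have hs2' : (N.sys.nx c s).2 = s.2 := by rw [hs2]; omega
      obtain ⟨U', b, h1, h2, h3, h4, h5⟩ := ih (x := y) (d := d - ((N.q1 c : ℤ) - N.p1 c)) (a := a)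
        h (by simpa using hx) (by
          intro z hz i hi
          have := hc z (List.mem_cons_of_mem _ hz) (i + 1) (by omega)
          push_cast at this
          linarith) (by rw [hs1, ha]; ring)
      rw [hs2'] at h3 h4 h5
      refine ⟨U', b, ?_, ?_, h3, ?_, ?_⟩
      · rw [List.replicate_succ, List.cons_append]
        exact h1.cons c
      · rw [h2]; push_cast; ring
      · intro z' hz'
        obtain ⟨z, hz, i, hi, e1, e2⟩ := h4 z' hz'
        refine ⟨z, List.mem_cons_of_mem _ hz, i + 1, by omega, ?_, e2⟩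
        rw [e1]; push_cast; ring
      · intro z hz
        rcases List.mem_cons.1 hz with rfl | hz
        · exact ⟨(a, z.2), Sys.start_mem _, rfl⟩
        · exact h5 z hz
    · have hx' : x ≤ U.count t := by
        by_cases hx0 : x = 0
        · rw [hx0]; exact Nat.zero_le _
        · have : c ≠ t := fun h => hct ⟨h, by omega⟩
          rwa [List.count_cons_of_ne this] at hx
      have hka : (k : ℤ) ≤ a := by
        have := hc s List.mem_cons_self 0 (Nat.zero_le _)
        rw [ha]
        simpa using this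
      have hpa : N.p1 c ≤ a := (hk c).1.trans (by exact_mod_cast hka)
      obtain ⟨U', b, h1, h2, h3, h4, h5⟩ := ih (x := x) (d := d) (a := a - N.p1 c + N.q1 c) h hx'
        (fun z hz => hc z (List.mem_cons_of_mem _ hz)) (by
          rw [hs1]
          push_cast [hpa]
          linarith)
      have hnx : N.sys.nx c (a, s.2) = (a - N.p1 c + N.q1 c, (N.sys.nx c s).2) := rfl
      refine ⟨c :: U', b, ?_, h2, ⟨⟨hpa, hen2⟩, ?_⟩, ?_, ?_⟩
      · exact (h1.cons c).trans List.perm_middle.symm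
      · rw [hnx]; exact h3
      · intro z' hz'
        rw [Sys.sts_cons, hnx] at hz'
        rcases List.mem_cons.1 hz' with rfl | hz'
        · exact ⟨s, List.mem_cons_self, 0, Nat.zero_le _, by simpa using ha, rfl⟩
        · obtain ⟨z, hz, i, hi, e⟩ := h4 z' hz'
          exact ⟨z, List.mem_cons_of_mem _ hz, i, hi, e⟩
      · intro z hz
        rw [Sys.sts_cons, hnx]
        rcases List.mem_cons.1 hz with rfl | hz
        · exact ⟨(a, z.2), List.mem_cons_self, rfl⟩
        · obtain ⟨z', hz', e⟩ := h5 z hz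
          exact ⟨z', List.mem_cons_of_mem _ hz', e⟩

/-- Going down below a threshold. -/
theorem down_hit (hk : N.Bd k) {θ : ℕ} {z z' : ℕ × ℕ} {Y : List τ} (h : N.sys.Run z Y z')
    (h1 : θ ≤ z.1) (h2 : z'.1 < θ) : ∃ W C m, Y = W ++ C ∧ N.sys.Run z W m ∧ N.sys.Run m C z' ∧
      (∀ w ∈ N.sys.sts z W, θ ≤ w.1) ∧ m.1 ≤ θ + k := by
  induction Y generalizing z with
  | nil =>
    obtain rfl : z = z' := h
    omega
  | cons t Y ih =>
    by_cases hlt : (N.sys.nx t z).1 < θ
    · refine ⟨[], t :: Y, z, rfl, rfl, h, ?_, ?_⟩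
      · intro w hw
        obtain rfl : w = z := by simpa using hw
        exact h1
      · have e : (N.sys.nx t z).1 = z.1 - N.p1 t + N.q1 t := rfl
        have := (hk t).1
        omega
    · obtain ⟨W, C, m, rfl, a1, a2, a3, a4⟩ := ih h.2 (by omega)
      refine ⟨t :: W, C, m, rfl, ⟨h.1, a1⟩, a2, ?_, a4⟩
      intro w hw
      rcases List.mem_cons.1 hw with rfl | hw
      · exact h1
      · exact a3 w hw

/-- Going up above a threshold. -/
theorem up_hit (hk : N.Bd k) {θ : ℕ} {s z : ℕ × ℕ} {X : List τ} (h : N.sys.Run s X z)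
    (h1 : s.1 < θ) (h2 : θ ≤ z.1) : ∃ A U m, X = A ++ U ∧ N.sys.Run s A m ∧ N.sys.Run m U z ∧
      (∀ w ∈ N.sys.sts m U, θ ≤ w.1) ∧ m.1 ≤ θ + k := by
  obtain ⟨W, C, m, a1, a2, a3, a4, a5⟩ := down_hit hk.rev (run_rev.2 h) h2 h1
  have e : X = C.reverse ++ W.reverse := by
    rw [← List.reverse_append, ← a1, List.reverse_reverse]
  have r1 : N.sys.Run m W.reverse z := run_rev'.1 a2
  refine ⟨C.reverse, W.reverse, m, e, run_rev'.1 a3, r1, ?_, a5⟩
  intro w hw
  refine a4 w ?_
  have := (mem_sts_rev r1).2 hw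
  simpa using this

/-- Some letter not touching the second place is used often if the first place goes up much. -/
theorem pigeon [Fintype τ] [DecidableEq τ] (hk : N.Bd k) {U : List τ} {a : ℕ}
    (ha : U.countP (fun t => decide (N.p2 t ≠ N.q2 t)) ≤ a)
    (he : ((k * a + Fintype.card τ * (k * k) : ℕ) : ℤ) < N.e1 U) :
    ∃ t, N.p2 t = N.q2 t ∧ N.p1 t < N.q1 t ∧ k ≤ U.count t := by
  by_contra hcon
  push Not at hcon
  have h1 : N.e1 U ≤ ∑ t, ((k : ℤ) * (if decide (N.p2 t ≠ N.q2 t) then U.count t else 0 : ℕ) +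
      (k * k : ℤ)) := by
    rw [e1_eq_sum]
    refine Finset.sum_le_sum fun t _ => ?_
    have hb := hk t
    have hx : (N.q1 t : ℤ) - N.p1 t ≤ k := by
      have := hb.2.2.1
      omega
    have hkk : (0 : ℤ) ≤ k * k := by positivity
    by_cases hne : N.p2 t = N.q2 t
    · simp only [hne, ne_eq, not_true_eq_false, decide_false, Bool.false_eq_true, if_false,
        Nat.cast_zero, mul_zero, zero_add]
      by_cases hlt : N.p1 t < N.q1 t
      · have hc := hcon t hne hlt
        have hc' : ((U.count t : ℕ) : ℤ) ≤ k := by exact_mod_cast hc.le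
        have hx0 : (0 : ℤ) ≤ (N.q1 t : ℤ) - N.p1 t := by omega
        exact mul_le_mul hc' hx hx0 (by positivity)
      · have hx0 : (N.q1 t : ℤ) - N.p1 t ≤ 0 := by omega
        have : ((U.count t : ℕ) : ℤ) * ((N.q1 t : ℤ) - N.p1 t) ≤ 0 :=
          mul_nonpos_of_nonneg_of_nonpos (by positivity) hx0
        linarith
    · simp only [ne_eq, hne, not_false_eq_true, decide_true, if_true]
      have : ((U.count t : ℕ) : ℤ) * ((N.q1 t : ℤ) - N.p1 t) ≤ (U.count t : ℤ) * k :=
        mul_le_mul_of_nonneg_left hx (by positivity)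
      nlinarith
  have h2 : ∑ t, ((k : ℤ) * (if decide (N.p2 t ≠ N.q2 t) then U.count t else 0 : ℕ) +
      (k * k : ℤ)) = k * (U.countP (fun t => decide (N.p2 t ≠ N.q2 t)) : ℕ) +
      Fintype.card τ * (k * k) := by
    rw [Finset.sum_add_distrib, ← Finset.mul_sum, countP_eq_sum]
    push_cast
    simp
  rw [h2] at h1
  have h3 : (k : ℤ) * (U.countP (fun t => decide (N.p2 t ≠ N.q2 t)) : ℕ) ≤ k * a :=
    mul_le_mul_of_nonneg_left (by exact_mod_cast ha) (by positivity)
  push_cast at he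
  linarith

/-- Repeating a letter which only fills the first place. -/
theorem run_rep {t : τ} (h2 : N.p2 t = N.q2 t) (h1 : N.p1 t < N.q1 t) {z : ℕ × ℕ} (i : ℕ)
    (e1 : N.p1 t ≤ z.1) (e2 : N.p2 t ≤ z.2) :
    N.sys.Run z (List.replicate i t) (z.1 + i * (N.q1 t - N.p1 t), z.2) ∧
    ∀ w ∈ N.sys.sts z (List.replicate i t), w.1 ≤ z.1 + i * (N.q1 t - N.p1 t) ∧ w.2 = z.2 := by
  induction i generalizing z with
  | zero =>
    refine ⟨by show z = _; simp, ?_⟩
    intro w hw
    obtain rfl : w = z := by simpa using hw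
    simp
  | succ i ih =>
    have hn : N.sys.nx t z = (z.1 + (N.q1 t - N.p1 t), z.2) := by
      ext
      · show z.1 - N.p1 t + N.q1 t = z.1 + (N.q1 t - N.p1 t)
        omega
      · show z.2 - N.p2 t + N.q2 t = z.2
        omega
    obtain ⟨a1, a2⟩ := ih (z := N.sys.nx t z) (by rw [hn]; show N.p1 t ≤ z.1 + _; omega)
      (by rw [hn]; exact e2)
    rw [hn] at a1 a2
    have e : z.1 + (i + 1) * (N.q1 t - N.p1 t) =
      z.1 + (N.q1 t - N.p1 t) + i * (N.q1 t - N.p1 t) := by ring
    rw [e]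
    refine ⟨⟨⟨e1, e2⟩, by rw [hn]; exact a1⟩, ?_⟩
    intro w hw
    rw [List.replicate_succ, Sys.sts_cons, hn] at hw
    rcases List.mem_cons.1 hw with rfl | hw
    · exact ⟨by omega, rfl⟩
    · exact a2 w hw

theorem exists_en {s s' : ℕ × ℕ} {U : List τ} {t : τ} (h : N.sys.Run s U s') (ht : t ∈ U) :
    ∃ w ∈ N.sys.sts s U, N.sys.en t w := by
  induction U generalizing s with
  | nil => simp at ht
  | cons c U ih =>
    rcases List.mem_cons.1 ht with rfl | ht
    · exact ⟨s, List.mem_cons_self, h.1⟩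
    · obtain ⟨w, hw, hw'⟩ := ih h.2 ht
      exact ⟨w, List.mem_cons_of_mem _ hw, hw'⟩

end Net

end Pool.Agent.J4H95.FS
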