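import Pool.Agent.J4H95.FS.Sched

/-!
# Reading the instance
-/

set_option autoImplicit false

namespace Pool.Agent.J4H95.FS

/-- Increase the first number. -/
def bump : List ℕ → List ℕ
  | [] => []
  | h :: r => (h + 1) :: r

/-- One symbol of the code (read from the right). -/
def numStep (b : Bool) (acc : List ℕ) : List ℕ := bif b then bump acc else 0 :: acc

/-- The numbers in a unary code. -/
def nums (x : List Bool) : List ℕ := x.foldr numStep []

theorem length_bump (l : List ℕ) : (bump l).length = l.length := by cases l <;> rfl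

theorem nums_bound (x : List Bool) : (nums x).length ≤ x.length ∧ ∀ n ∈ nums x, n ≤ x.length := by
  induction x with
  | nil => exact ⟨le_refl _, by simp [nums]⟩
  | cons b x ih =>
    have e : nums (b :: x) = numStep b (nums x) := rfl
    rw [e, List.length_cons]
    cases b with
    | false =>
      refine ⟨by show (nums x).length + 1 ≤ _; omega, ?_⟩
      intro n hn
      rcases List.mem_cons.1 hn with rfl | hn
      · exact Nat.zero_le _
      · have := ih.2 n hn; omega
    | true =>
      show (bump (nums x)).length ≤ _ ∧ ∀ n ∈ bump (nums x), n ≤ _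
      rw [length_bump]
      refine ⟨by omega, ?_⟩
      intro n hn
      cases h : nums x with
      | nil => rw [h] at hn; simp [bump] at hn
      | cons a r =>
        rw [h] at hn ih
        rcases List.mem_cons.1 hn with rfl | hn
        · have := ih.2 a List.mem_cons_self
          omega
        · have := ih.2 n (List.mem_cons_of_mem _ hn)
          omega

theorem nums_block (m : ℕ) (y : List Bool) :
    nums (List.replicate m true ++ [false] ++ y) = m :: nums y := by
  induction m with
  | zero => rfl
  | succ m ih =>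
    have e : nums (List.replicate (m + 1) true ++ [false] ++ y) =
        bump (nums (List.replicate m true ++ [false] ++ y)) := rfl
    rw [e, ih]
    rfl

theorem nums_encode (ms : List ℕ) :
    nums (ms.flatMap fun m => List.replicate m true ++ [false]) = ms := by
  induction ms with
  | nil => rfl
  | cons m ms ih => rw [List.flatMap_cons, nums_block, ih]

/-- Jobs from a list of numbers. -/
def trip : List ℕ → List Job
  | a :: b :: c :: r => (a, b, c) :: trip r
  | _ => []

theorem trip_eq : ∀ (m : ℕ) (L : List ℕ), L.length = 3 * m →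
    trip L = (List.range m).map fun j => (L.getD (3 * j) 0, L.getD (3 * j + 1) 0,
      L.getD (3 * j + 2) 0)
  | 0, L, h => by
    have : L = [] := List.length_eq_zero_iff.1 (by omega)
    subst this
    rfl
  | m + 1, [], h => by simp at h
  | m + 1, [a], h => by simp at h; omega
  | m + 1, [a, b], h => by simp at h; omega
  | m + 1, a :: b :: c :: r, h => by
    have h1 : r.length = 3 * m := by simp only [List.length_cons] at h; omega
    rw [List.range_succ_eq_map, List.map_cons, List.map_map]
    show (a, b, c) :: trip r = _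
    rw [trip_eq m r h1]
    congr 1

theorem trip_ofFn {n : ℕ} (p : Fin n → Fin 3 → ℕ) :
    trip (List.ofFn fun j : Fin n => List.ofFn fun i : Fin 3 => p j i).flatten =
      List.ofFn (jobOf p) := by
  induction n with
  | zero => rfl
  | succ n ih =>
    have h1 : (List.ofFn fun i : Fin 3 => p 0 i) = [p 0 0, p 0 1, p 0 2] := by
      simp [List.ofFn_succ]
    have h2 : (List.ofFn fun j : Fin (n + 1) => List.ofFn fun i : Fin 3 => p j i) =
        [p 0 0, p 0 1, p 0 2] :: (List.ofFn fun j : Fin n => List.ofFn fun i : Fin 3 =>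
          p j.succ i) := by
      rw [List.ofFn_succ, h1]
    rw [h2, List.flatten_cons]
    have h3 := ih (fun j => p j.succ)
    have h4 : trip ([p 0 0, p 0 1, p 0 2] ++ (List.ofFn fun j : Fin n => List.ofFn
        fun i : Fin 3 => p j.succ i).flatten) = jobOf p 0 :: trip (List.ofFn fun j : Fin n =>
        List.ofFn fun i : Fin 3 => p j.succ i).flatten := rfl
    rw [h4, h3]
    exact (List.ofFn_succ).symm

theorem length_flat {n : ℕ} (p : Fin n → Fin 3 → ℕ) :
    (List.ofFn fun j : Fin n => List.ofFn fun i : Fin 3 => p j i).flatten.length = 3 * n := by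
  rw [List.length_flatten, List.map_ofFn]
  have : (List.ofFn (List.length ∘ fun j : Fin n => List.ofFn fun i : Fin 3 => p j i)) =
      List.replicate n 3 := by
    rw [List.eq_replicate_iff]
    refine ⟨by simp, ?_⟩
    intro b hb
    obtain ⟨i, rfl⟩ := (List.mem_ofFn' _ _).1 hb
    simp
  rw [this]
  simp [Nat.mul_comm]

/-- The bound in the input. -/
def TT (x : List Bool) : ℕ := (nums x).getD 0 0

/-- The jobs in the input. -/
def JJ (x : List Bool) : List Job :=
  (List.range (((nums x).length - 1) / 3)).map fun j => ((nums x).getD (3 * j + 1) 0,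
    (nums x).getD (3 * j + 2) 0, (nums x).getD (3 * j + 3) 0)

/-- The largest processing time. -/
def pm (J : List Job) : ℕ := J.foldr (fun t m => max (max t.1 (max t.2.1 t.2.2)) m) 0

/-- The parameter of the input. -/
def kap (x : List Bool) : ℕ := pm (JJ x)

/-- The bound on all processing times including the unit jobs. -/
def kk (x : List Bool) : ℕ := max 1 (kap x)

/-- The algorithm. -/
def decF (x : List Bool) : Bool :=
  (decide (sumA (JJ x) ≤ TT x) && (decide (sumB (JJ x) ≤ TT x) && decide (sumC (JJ x) ≤ TT x))) &&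
    decM (types (kk x)) (words (types (kk x)) (GG (kk x))) (words (types (kk x)) (RR (kk x)))
      (allJobs (TT x) (JJ x))

theorem pm_le {J : List Job} {t : Job} (ht : t ∈ J) :
    t.1 ≤ pm J ∧ t.2.1 ≤ pm J ∧ t.2.2 ≤ pm J := by
  induction J with
  | nil => simp at ht
  | cons a J ih =>
    have e : pm (a :: J) = max (max a.1 (max a.2.1 a.2.2)) (pm J) := rfl
    rw [e]
    rcases List.mem_cons.1 ht with rfl | ht
    · omega
    · have := ih ht; omega

theorem pm_sup {n : ℕ} (p : Fin n → Fin 3 → ℕ) : pm (List.ofFn (jobOf p)) =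
    Finset.univ.sup (fun x : Fin n × Fin 3 => p x.1 x.2) := by
  apply le_antisymm
  · have key : ∀ (J : List Job) (B : ℕ), (∀ t ∈ J, t.1 ≤ B ∧ t.2.1 ≤ B ∧ t.2.2 ≤ B) → pm J ≤ B := by
      intro J B h
      induction J with
      | nil => exact Nat.zero_le _
      | cons a J ih =>
        have e : pm (a :: J) = max (max a.1 (max a.2.1 a.2.2)) (pm J) := rfl
        have h1 := h a List.mem_cons_self
        have h2 := ih fun t ht => h t (List.mem_cons_of_mem _ ht)
        omega
    refine key _ _ fun t ht => ?_
    obtain ⟨j, rfl⟩ := (List.mem_ofFn' _ _).1 ht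
    have h := fun i : Fin 3 => Finset.le_sup (f := fun x : Fin n × Fin 3 => p x.1 x.2)
      (Finset.mem_univ (j, i))
    exact ⟨h 0, h 1, h 2⟩
  · refine Finset.sup_le fun x _ => ?_
    obtain ⟨j, i⟩ := x
    have h := pm_le (t := jobOf p j) ((List.mem_ofFn' _ _).2 ⟨j, rfl⟩)
    fin_cases i
    · exact h.1
    · exact h.2.1
    · exact h.2.2

theorem allJobs_types {T : ℕ} {J : List Job} {k : ℕ} (hk : 1 ≤ k)
    (hJ : ∀ t ∈ J, t.1 ≤ k ∧ t.2.1 ≤ k ∧ t.2.2 ≤ k) : ∀ t ∈ allJobs T J, t ∈ types k := by
  intro t ht
  rw [mem_types]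
  unfold allJobs at ht
  simp only [List.mem_append] at ht
  rcases ht with ht | ht | ht | ht
  · exact hJ t ht
  · rw [List.eq_of_mem_replicate ht]; exact ⟨Nat.zero_le _, Nat.zero_le _, hk⟩
  · rw [List.eq_of_mem_replicate ht]; exact ⟨Nat.zero_le _, hk, Nat.zero_le _⟩
  · rw [List.eq_of_mem_replicate ht]; exact ⟨hk, Nat.zero_le _, Nat.zero_le _⟩

/-- Correctness of the algorithm. -/
theorem decF_iff {n : ℕ} (p : Fin n → Fin 3 → ℕ) (T : ℕ) {w : List Bool}
    (hw : w = (T :: (List.ofFn (fun j : Fin n => List.ofFn (fun i : Fin 3 => p j i))).flatten).flatMap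
            (fun m => List.replicate m true ++ [false])) :
    kap w = Finset.univ.sup (fun x : Fin n × Fin 3 => p x.1 x.2) ∧
    (decF w = true ↔ ∃ s, IsSched p T s) := by
  have hn : nums w = T :: (List.ofFn (fun j : Fin n =>
      List.ofFn (fun i : Fin 3 => p j i))).flatten := by rw [hw, nums_encode]
  have hT : TT w = T := by unfold TT; rw [hn]; rfl
  have hJ : JJ w = List.ofFn (jobOf p) := by
    unfold JJ
    rw [← trip_ofFn, trip_eq n _ (length_flat p), hn, List.length_cons, length_flat,
      Nat.add_sub_cancel, Nat.mul_div_cancel_left _ (by norm_num : 0 < 3)]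
    refine List.map_congr_left fun j _ => ?_
    simp only [List.getD_cons_succ]
  have hk : kap w = Finset.univ.sup (fun x : Fin n × Fin 3 => p x.1 x.2) := by
    unfold kap
    rw [hJ, pm_sup]
  refine ⟨hk, ?_⟩
  have hk1 : 1 ≤ kk w := le_max_left _ _
  have hty : ∀ t ∈ allJobs (TT w) (JJ w), t ∈ types (kk w) := allJobs_types hk1 (by
      intro t ht
      have := pm_le ht
      have h2 : kap w ≤ kk w := le_max_right _ _
      unfold kap at h2
      omega)
  unfold decF
  rw [Bool.and_eq_true, Bool.and_eq_true, Bool.and_eq_true, decide_eq_true_eq, decide_eq_true_eq,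
    decide_eq_true_eq, decM_iff hk1 hty, hT, hJ]
  constructor
  · rintro ⟨⟨h1, h2, h3⟩, L, h4, h5⟩
    exact sched_of_run h3 h4 h5
  · rintro ⟨s, hs⟩
    obtain ⟨h1, h2, h3, h4⟩ := run_of_sched hs
    exact ⟨⟨h1, h2, h3⟩, h4⟩

end Pool.Agent.J4H95.FS
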