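import Pool.Agent.J4H95.FS.Cover

/-!
# Balanced orderings: between two states with much in both places every word can be rearranged
-/

set_option autoImplicit false

namespace Pool.Agent.J4H95.FS

variable {τ : Type} [Fintype τ] [DecidableEq τ] {N : Net τ} {k : ℕ}

/-- The word with `c t` copies of each letter `t`. -/
noncomputable def blocks (c : τ → ℕ) : List τ :=
  (Finset.univ : Finset τ).toList.flatMap fun t => List.replicate (c t) t

theorem count_blocks (c : τ → ℕ) (t : τ) : (blocks c).count t = c t := by
  unfold blocks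
  rw [List.count_flatMap]
  have h1 : (Finset.univ : Finset τ).toList.map
      (List.count t ∘ fun t => List.replicate (c t) t) =
      (Finset.univ : Finset τ).toList.map (fun a => if a = t then c a else 0) := by
    apply List.map_congr_left
    intro a _
    simp [List.count_replicate]
  rw [h1, Finset.sum_map_toList]
  simp

theorem length_eq_sum_count (L : List τ) : L.length = ∑ t, L.count t := by
  induction L with
  | nil => simp
  | cons a L ih =>
    simp only [List.length_cons, List.count_cons, Finset.sum_add_distrib, ih]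
    simp

theorem length_blocks (c : τ → ℕ) : (blocks c).length = ∑ t, c t := by
  rw [length_eq_sum_count]
  exact Finset.sum_congr rfl fun t _ => count_blocks c t

namespace Net

theorem e1_eq_sum (L : List τ) : N.e1 L = ∑ t, (L.count t : ℤ) * ((N.q1 t : ℤ) - N.p1 t) := by
  induction L with
  | nil => simp
  | cons a L ih =>
    rw [e1_cons, ih]
    simp only [List.count_cons]
    push_cast
    simp only [add_mul, Finset.sum_add_distrib]
    simp [add_comm]

theorem e2_eq_sum (L : List τ) : N.e2 L = ∑ t, (L.count t : ℤ) * ((N.q2 t : ℤ) - N.p2 t) :=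
  e1_eq_sum (N := N.swap) L

/-- The rounded counts. -/
def fl (R : List τ) (i : ℕ) (t : τ) : ℕ := i * R.count t / R.length

omit [Fintype τ] in
theorem fl_zero (R : List τ) (t : τ) : fl R 0 t = 0 := by simp [fl]

omit [Fintype τ] in
theorem fl_end {R : List τ} (hR : 0 < R.length) (t : τ) : fl R R.length t = R.count t := by
  unfold fl
  rw [Nat.mul_div_cancel_left _ hR]

omit [Fintype τ] in
theorem fl_succ {R : List τ} (hR : 0 < R.length) (i : ℕ) (t : τ) :
    fl R i t ≤ fl R (i + 1) t ∧ fl R (i + 1) t ≤ fl R i t + 1 := by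
  unfold fl
  constructor
  · exact Nat.div_le_div_right (Nat.mul_le_mul_right _ (by omega))
  · rw [← Nat.add_div_right _ hR]
    apply Nat.div_le_div_right
    have : R.count t ≤ R.length := List.count_le_length
    rw [Nat.add_mul, Nat.one_mul]
    omega

/-- One layer of the balanced ordering. -/
noncomputable def layer (R : List τ) (i : ℕ) : List τ := blocks fun t => fl R (i + 1) t - fl R i t

theorem length_layer {R : List τ} (hR : 0 < R.length) (i : ℕ) :
    (layer R i).length ≤ Fintype.card τ := by
  unfold layer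
  rw [length_blocks]
  calc ∑ t, (fl R (i + 1) t - fl R i t) ≤ ∑ _t : τ, 1 :=
        Finset.sum_le_sum fun t _ => by have := fl_succ hR i t; omega
    _ = Fintype.card τ := by simp

/-- The first coordinate after `i` layers. -/
def pos1 (N : Net τ) (R : List τ) (a : ℕ) (i : ℕ) : ℤ :=
  a + ∑ t, (fl R i t : ℤ) * ((N.q1 t : ℤ) - N.p1 t)

theorem pos1_zero (R : List τ) (a : ℕ) : pos1 N R a 0 = a := by simp [pos1, fl_zero]

theorem pos1_end {R : List τ} (hR : 0 < R.length) {a b : ℕ} (h : (b : ℤ) = a + N.e1 R) :
    pos1 N R a R.length = b := by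
  rw [h, e1_eq_sum, pos1]
  simp [fl_end hR]

theorem pos1_succ {R : List τ} (hR : 0 < R.length) (a i : ℕ) :
    pos1 N R a (i + 1) = pos1 N R a i + N.e1 (layer R i) := by
  rw [e1_eq_sum, pos1, pos1, add_assoc, ← Finset.sum_add_distrib]
  congr 1
  refine Finset.sum_congr rfl fun t _ => ?_
  rw [layer, count_blocks, Nat.cast_sub (fl_succ hR i t).1]
  ring

theorem pos1_bound (hk : N.Bd k) {R : List τ} (hR : 0 < R.length) {a b i A B : ℕ}
    (h : (b : ℤ) = a + N.e1 R) (hi : i ≤ R.length) (ha : A ≤ a) (hb : A ≤ b) (ha' : a ≤ B)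
    (hb' : b ≤ B) :
    (A : ℤ) - Fintype.card τ * k ≤ pos1 N R a i ∧ pos1 N R a i ≤ B + Fintype.card τ * k := by
  set n := R.length with hn
  have key : (n : ℤ) * pos1 N R a i = ((n : ℤ) - i) * a + i * b -
      ∑ t, ((i * R.count t % n : ℕ) : ℤ) * ((N.q1 t : ℤ) - N.p1 t) := by
    rw [pos1, h, e1_eq_sum, mul_add, mul_add, Finset.mul_sum, Finset.mul_sum]
    have e : ∀ t : τ, (n : ℤ) * ((fl R i t : ℤ) * ((N.q1 t : ℤ) - N.p1 t)) =
        (i : ℤ) * ((R.count t : ℤ) * ((N.q1 t : ℤ) - N.p1 t)) -
        ((i * R.count t % n : ℕ) : ℤ) * ((N.q1 t : ℤ) - N.p1 t) := by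
      intro t
      have h1 : n * fl R i t + i * R.count t % n = i * R.count t := Nat.div_add_mod _ _
      have h2 : (n : ℤ) * (fl R i t : ℤ) + ((i * R.count t % n : ℕ) : ℤ) =
          (i : ℤ) * (R.count t : ℤ) := by exact_mod_cast h1
      have h3 : (n : ℤ) * (fl R i t : ℤ) = (i : ℤ) * (R.count t : ℤ) -
          ((i * R.count t % n : ℕ) : ℤ) := by linarith
      rw [← mul_assoc, h3]
      ring
    rw [Finset.sum_congr rfl fun t _ => e t, Finset.sum_sub_distrib]
    ring
  have herr : |∑ t, ((i * R.count t % n : ℕ) : ℤ) * ((N.q1 t : ℤ) - N.p1 t)| ≤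
      Fintype.card τ * (n * k) := by
    refine (Finset.abs_sum_le_sum_abs _ _).trans ?_
    calc ∑ t, |((i * R.count t % n : ℕ) : ℤ) * ((N.q1 t : ℤ) - N.p1 t)|
        ≤ ∑ _t : τ, ((n : ℤ) * k) := by
          refine Finset.sum_le_sum fun t _ => ?_
          rw [abs_mul]
          have hb := hk t
          have h1 : |((i * R.count t % n : ℕ) : ℤ)| ≤ n := by
            rw [Nat.abs_cast]
            exact_mod_cast (Nat.mod_lt _ hR).le
          have h2 : |(N.q1 t : ℤ) - N.p1 t| ≤ k := by
            rw [abs_le]
            have := hb.1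
            have := hb.2.2.1
            constructor <;> omega
          exact mul_le_mul h1 h2 (abs_nonneg _) (by positivity)
      _ = Fintype.card τ * (n * k) := by simp
  have hi' : (i : ℤ) ≤ n := by exact_mod_cast hi
  have hn' : (0 : ℤ) < n := by exact_mod_cast hR
  rw [abs_le] at herr
  have a1 : (A : ℤ) ≤ a := by exact_mod_cast ha
  have a2 : (A : ℤ) ≤ b := by exact_mod_cast hb
  have a3 : (a : ℤ) ≤ B := by exact_mod_cast ha'
  have a4 : (b : ℤ) ≤ B := by exact_mod_cast hb'
  have i0 : (0 : ℤ) ≤ i := by positivity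
  have b1 : ((n : ℤ) - i) * A ≤ ((n : ℤ) - i) * a := mul_le_mul_of_nonneg_left a1 (by linarith)
  have b2 : (i : ℤ) * A ≤ i * b := mul_le_mul_of_nonneg_left a2 i0
  have b3 : ((n : ℤ) - i) * a ≤ ((n : ℤ) - i) * B := mul_le_mul_of_nonneg_left a3 (by linarith)
  have b4 : (i : ℤ) * b ≤ i * B := mul_le_mul_of_nonneg_left a4 i0
  constructor
  · refine le_of_mul_le_mul_left ?_ hn'
    rw [key]
    nlinarith [herr.1, herr.2]
  · refine le_of_mul_le_mul_left ?_ hn'
    rw [key]
    nlinarith [herr.1, herr.2]

/-- Between two states with much in both places every word can be rearranged to a run which does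
not go up much. -/
theorem mid (hk : N.Bd k) {R : List τ} {s s' : ℕ × ℕ} {B : ℕ}
    (h1 : 2 * (Fintype.card τ * k) ≤ s.1) (h2 : 2 * (Fintype.card τ * k) ≤ s.2)
    (h3 : 2 * (Fintype.card τ * k) ≤ s'.1) (h4 : 2 * (Fintype.card τ * k) ≤ s'.2)
    (h5 : (s'.1 : ℤ) = s.1 + N.e1 R) (h6 : (s'.2 : ℤ) = s.2 + N.e2 R)
    (hB1 : s.1 ≤ B) (hB2 : s.2 ≤ B) (hB3 : s'.1 ≤ B) (hB4 : s'.2 ≤ B) :
    ∃ R', R'.Perm R ∧ N.sys.Run s R' s' ∧ ∀ z ∈ N.sys.sts s R',
      z.1 ≤ B + 2 * (Fintype.card τ * k) ∧ z.2 ≤ B + 2 * (Fintype.card τ * k) := by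
  set c := Fintype.card τ * k with hc
  rcases Nat.eq_zero_or_pos R.length with hR | hR
  · obtain rfl := List.length_eq_zero_iff.1 hR
    have e : s = s' := by
      rw [e1_nil] at h5
      rw [e2_nil] at h6
      ext <;> omega
    refine ⟨[], List.Perm.refl _, e, ?_⟩
    intro z hz
    obtain rfl : z = s := by simpa using hz
    omega
  · have hb1 := fun i (hi : i ≤ R.length) => pos1_bound hk hR h5 hi h1 h3 hB1 hB3
    have hb2 := fun i (hi : i ≤ R.length) =>
      pos1_bound (N := N.swap) hk.swap hR (a := s.2) (b := s'.2) h6 hi h2 h4 hB2 hB4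
    set S : ℕ → ℕ × ℕ := fun i => ((pos1 N R s.1 i).toNat, (pos1 N.swap R s.2 i).toNat) with hS
    have hcz : ((Fintype.card τ : ℤ) * k) = (c : ℤ) := by rw [hc]; push_cast; ring
    have hS1 : ∀ i ≤ R.length, (((S i).1 : ℕ) : ℤ) = pos1 N R s.1 i := fun i hi => by
      have := (hb1 i hi).1
      rw [hcz] at this
      push_cast at this
      exact Int.toNat_of_nonneg (by linarith [Int.natCast_nonneg c])
    have hS2 : ∀ i ≤ R.length, (((S i).2 : ℕ) : ℤ) = pos1 N.swap R s.2 i := fun i hi => by
      have := (hb2 i hi).1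
      rw [hcz] at this
      push_cast at this
      exact Int.toNat_of_nonneg (by linarith [Int.natCast_nonneg c])
    have hS1b : ∀ i ≤ R.length, c ≤ (S i).1 ∧ (S i).1 ≤ B + c := fun i hi => by
      have h := hb1 i hi
      rw [hcz, ← hS1 i hi] at h
      push_cast at h
      omega
    have hS2b : ∀ i ≤ R.length, c ≤ (S i).2 ∧ (S i).2 ≤ B + c := fun i hi => by
      have h := hb2 i hi
      rw [hcz, ← hS2 i hi] at h
      push_cast at h
      omega
    have hlen : ∀ i, k * (layer R i).length ≤ c := fun i => by
      rw [hc, Nat.mul_comm]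
      exact Nat.mul_le_mul_right _ (length_layer hR i)
    have hstep : ∀ i, i < R.length → N.sys.Run (S i) (layer R i) (S (i + 1)) := by
      intro i hi
      obtain ⟨z, hz⟩ := run_short hk (s := S i) (L := layer R i)
        ((hlen i).trans (hS1b i hi.le).1) ((hlen i).trans (hS2b i hi.le).1)
      have e1 := run_e1 hz
      have e2 := run_e2 hz
      have e3 : z = S (i + 1) := by
        ext
        · have := hS1 (i + 1) hi
          rw [pos1_succ hR, ← hS1 i hi.le] at this
          omega
        · have := hS2 (i + 1) hi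
          rw [pos1_succ hR, ← hS2 i hi.le] at this
          have e4 : N.swap.e1 (layer R i) = N.e2 (layer R i) := rfl
          omega
      rwa [← e3]
    have hmain : ∀ i ≤ R.length, N.sys.Run s ((List.range i).flatMap (layer R)) (S i) ∧
        ∀ z ∈ N.sys.sts s ((List.range i).flatMap (layer R)), z.1 ≤ B + 2 * c ∧ z.2 ≤ B + 2 * c := by
      intro i
      induction i with
      | zero =>
        intro _
        refine ⟨?_, ?_⟩
        · show s = S 0
          ext
          · have := hS1 0 (Nat.zero_le _)
            rw [pos1_zero] at this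
            exact_mod_cast this.symm
          · have := hS2 0 (Nat.zero_le _)
            rw [pos1_zero] at this
            exact_mod_cast this.symm
        · intro z hz
          obtain rfl : z = s := by simpa using hz
          omega
      | succ i ih =>
        intro hi
        obtain ⟨ih1, ih2⟩ := ih (by omega)
        have e : (List.range (i + 1)).flatMap (layer R) =
            (List.range i).flatMap (layer R) ++ layer R i := by
          rw [List.range_succ, List.flatMap_append]
          simp
        rw [e]
        refine ⟨ih1.append (hstep i hi), ?_⟩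
        intro z hz
        rcases (Sys.mem_sts_append ih1).1 hz with hz | hz
        · exact ih2 z hz
        · have h := sts_bound hk (hstep i hi) hz
          have h7 := hS1b i (by omega)
          have h8 := hS2b i (by omega)
          have h9 := hlen i
          omega
    obtain ⟨hr, hst⟩ := hmain R.length le_rfl
    have hend : S R.length = s' := by
      ext
      · have := hS1 _ le_rfl
        rw [pos1_end hR h5] at this
        exact_mod_cast this
      · have := hS2 _ le_rfl
        rw [pos1_end (N := N.swap) hR (a := s.2) (b := s'.2) h6] at this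
        exact_mod_cast this
    rw [hend] at hr
    refine ⟨_, ?_, hr, hst⟩
    rw [List.perm_iff_count]
    intro t
    have hcount : ∀ i, ((List.range i).flatMap (layer R)).count t = fl R i t := by
      intro i
      induction i with
      | zero => simp [fl_zero]
      | succ i ih =>
        rw [List.range_succ, List.flatMap_append, List.count_append, ih]
        simp only [List.flatMap_cons, List.flatMap_nil, List.append_nil]
        rw [layer, count_blocks]
        have := (fl_succ hR i t).1
        omega
    rw [hcount, fl_end hR]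

end Net

end Pool.Agent.J4H95.FS
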