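import Mathlib

/-!
# Transition systems and nets with two places
-/

set_option autoImplicit false

namespace Pool.Agent.J4H95.FS

/-- A deterministic transition system with partially enabled moves. -/
structure Sys (σ τ : Type) where
  en : τ → σ → Prop
  nx : τ → σ → σ

namespace Sys

variable {σ τ : Type} (Y : Sys σ τ)

/-- The word `L` can be executed from `s` and leads to `s'`. -/
def Run : σ → List τ → σ → Prop
  | s, [], s' => s = s'
  | s, t :: L, s' => Y.en t s ∧ Run (Y.nx t s) L s'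

/-- The states along a word, start and end included. -/
def sts : σ → List τ → List σ
  | s, [] => [s]
  | s, t :: L => s :: sts (Y.nx t s) L

variable {Y}

@[simp] theorem run_nil {s s' : σ} : Y.Run s [] s' ↔ s = s' := Iff.rfl

@[simp] theorem run_cons {s s' : σ} {t : τ} {L : List τ} :
    Y.Run s (t :: L) s' ↔ Y.en t s ∧ Y.Run (Y.nx t s) L s' := Iff.rfl

@[simp] theorem sts_nil {s : σ} : Y.sts s [] = [s] := rfl

@[simp] theorem sts_cons {s : σ} {t : τ} {L : List τ} :
    Y.sts s (t :: L) = s :: Y.sts (Y.nx t s) L := rfl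

theorem run_append {s s' : σ} {A B : List τ} :
    Y.Run s (A ++ B) s' ↔ ∃ m, Y.Run s A m ∧ Y.Run m B s' := by
  induction A generalizing s with
  | nil => simp
  | cons t A ih => simp [ih, and_assoc]

theorem Run.append {s m s' : σ} {A B : List τ} (h1 : Y.Run s A m) (h2 : Y.Run m B s') :
    Y.Run s (A ++ B) s' := run_append.2 ⟨m, h1, h2⟩

theorem Run.det {s m m' : σ} {A : List τ} (h1 : Y.Run s A m) (h2 : Y.Run s A m') : m = m' := by
  induction A generalizing s with
  | nil => exact h1.symm.trans h2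
  | cons t A ih => exact ih h1.2 h2.2

theorem mem_sts_append {s m z : σ} {A B : List τ} (h : Y.Run s A m) :
    z ∈ Y.sts s (A ++ B) ↔ z ∈ Y.sts s A ∨ z ∈ Y.sts m B := by
  induction A generalizing s with
  | nil =>
    obtain rfl : s = m := h
    cases B <;> simp
  | cons t A ih =>
    simp only [List.cons_append, sts_cons, List.mem_cons, ih h.2, or_assoc]

theorem start_mem {s : σ} (L : List τ) : s ∈ Y.sts s L := by
  cases L <;> simp

theorem end_mem {s s' : σ} {L : List τ} (h : Y.Run s L s') : s' ∈ Y.sts s L := by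
  induction L generalizing s with
  | nil => simpa using h.symm
  | cons t L ih => exact List.mem_cons_of_mem _ (ih h.2)

theorem exists_split {s s' z : σ} {L : List τ} (h : Y.Run s L s') (hz : z ∈ Y.sts s L) :
    ∃ A B, L = A ++ B ∧ Y.Run s A z ∧ Y.Run z B s' := by
  induction L generalizing s with
  | nil =>
    obtain rfl : z = s := by simpa using hz
    exact ⟨[], [], rfl, rfl, h⟩
  | cons t L ih =>
    rcases List.mem_cons.1 hz with rfl | hz
    · exact ⟨[], t :: L, rfl, rfl, h⟩
    · obtain ⟨A, B, rfl, h1, h2⟩ := ih h.2 hz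
      exact ⟨t :: A, B, rfl, ⟨h.1, h1⟩, h2⟩

theorem mem_sts_of_split {s z : σ} {A B : List τ} (h : Y.Run s A z) : z ∈ Y.sts s (A ++ B) :=
  (mem_sts_append h).2 (Or.inl (end_mem h))

theorem sts_sub_left {s m z : σ} {A B : List τ} (h : Y.Run s A m) (hz : z ∈ Y.sts s A) :
    z ∈ Y.sts s (A ++ B) := (mem_sts_append h).2 (Or.inl hz)

theorem sts_sub_right {s m z : σ} {A B : List τ} (h : Y.Run s A m) (hz : z ∈ Y.sts m B) :
    z ∈ Y.sts s (A ++ B) := (mem_sts_append h).2 (Or.inr hz)

@[simp] theorem length_sts (s : σ) (L : List τ) : (Y.sts s L).length = L.length + 1 := by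
  induction L generalizing s with
  | nil => rfl
  | cons t L ih => simp [ih]

theorem sts_suffix {s z : σ} {A B : List τ} (h : Y.Run s A z) :
    Y.sts z B <:+ Y.sts s (A ++ B) := by
  induction A generalizing s with
  | nil =>
    obtain rfl : s = z := h
    exact List.suffix_refl _
  | cons t A ih => exact (ih h.2).trans (List.suffix_cons _ _)

/-- Loops can be cut out. -/
theorem bypass {s s' : σ} {L : List τ} (h : Y.Run s L s') :
    ∃ L', L'.Sublist L ∧ Y.Run s L' s' ∧ (Y.sts s L').Nodup ∧ ∀ z ∈ Y.sts s L', z ∈ Y.sts s L := by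
  classical
  induction L generalizing s with
  | nil => exact ⟨[], List.Sublist.refl _, h, by simp, fun z hz => hz⟩
  | cons t L ih =>
    obtain ⟨L1, h1, h2, h3, h4⟩ := ih h.2
    by_cases hs : s ∈ Y.sts (Y.nx t s) L1
    · obtain ⟨A, B, rfl, h5, h6⟩ := exists_split h2 hs
      have hsuf := sts_suffix (B := B) h5
      refine ⟨B, ((List.sublist_append_right A B).trans h1).cons t, h6,
        h3.sublist hsuf.sublist, fun z hz => ?_⟩
      exact List.mem_cons_of_mem _ (h4 z (hsuf.subset hz))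
    · refine ⟨t :: L1, h1.cons_cons t, ⟨h.1, h2⟩, ?_, ?_⟩
      · rw [sts_cons, List.nodup_cons]
        exact ⟨hs, h3⟩
      · intro z hz
        rcases List.mem_cons.1 hz with rfl | hz
        · exact List.mem_cons_self
        · exact List.mem_cons_of_mem _ (h4 z hz)

theorem bypass_card {s s' : σ} {L : List τ} (h : Y.Run s L s') (F : Finset σ)
    (hF : ∀ z ∈ Y.sts s L, z ∈ F ∨ z = s') :
    ∃ L', L'.Sublist L ∧ L'.length ≤ F.card ∧ Y.Run s L' s' ∧ ∀ z ∈ Y.sts s L', z ∈ Y.sts s L := by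
  classical
  obtain ⟨L', h1, h2, h3, h4⟩ := bypass h
  refine ⟨L', h1, ?_, h2, h4⟩
  have h5 : (Y.sts s L').toFinset ⊆ insert s' F := by
    intro z hz
    rw [List.mem_toFinset] at hz
    rcases hF z (h4 z hz) with h | h
    · exact Finset.mem_insert_of_mem h
    · rw [h]; exact Finset.mem_insert_self _ _
  have h6 := Finset.card_le_card h5
  rw [List.toFinset_card_of_nodup h3, length_sts] at h6
  have h7 := Finset.card_insert_le s' F
  omega

/-- The first time a property holds. -/
theorem first_hit {s s' : σ} {L : List τ} (G : σ → Prop) (h : Y.Run s L s') (hG : G s') :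
    ∃ A B m, L = A ++ B ∧ Y.Run s A m ∧ G m ∧ (∀ z ∈ Y.sts s A, ¬ G z ∨ z = m) ∧ Y.Run m B s' := by
  classical
  induction L generalizing s with
  | nil =>
    obtain rfl : s = s' := h
    exact ⟨[], [], s, rfl, rfl, hG, by simp, rfl⟩
  | cons t L ih =>
    by_cases hs : G s
    · exact ⟨[], t :: L, s, rfl, rfl, hs, by simp, h⟩
    · obtain ⟨A, B, m, rfl, h1, h2, h3, h4⟩ := ih h.2
      refine ⟨t :: A, B, m, rfl, ⟨h.1, h1⟩, h2, ?_, h4⟩
      intro z hz
      rcases List.mem_cons.1 hz with rfl | hz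
      · exact Or.inl hs
      · exact h3 z hz

end Sys

/-- A Petri net with two places: transition `t` consumes `(p1 t, p2 t)` and produces
`(q1 t, q2 t)`. -/
@[ext] structure Net (τ : Type) where
  p1 : τ → ℕ
  p2 : τ → ℕ
  q1 : τ → ℕ
  q2 : τ → ℕ

namespace Net

variable {τ : Type} (N : Net τ)

/-- The transition system of a net. -/
def sys : Sys (ℕ × ℕ) τ where
  en t s := N.p1 t ≤ s.1 ∧ N.p2 t ≤ s.2
  nx t s := (s.1 - N.p1 t + N.q1 t, s.2 - N.p2 t + N.q2 t)

/-- The transition system on the second place alone. -/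
def sys2 : Sys ℕ τ where
  en t v := N.p2 t ≤ v
  nx t v := v - N.p2 t + N.q2 t

/-- Time reversal. -/
def rev : Net τ := ⟨N.q1, N.q2, N.p1, N.p2⟩

/-- Exchange of the places. -/
def swap : Net τ := ⟨N.p2, N.p1, N.q2, N.q1⟩

@[simp] theorem rev_rev : N.rev.rev = N := rfl
@[simp] theorem swap_swap : N.swap.swap = N := rfl
theorem swap_rev : N.swap.rev = N.rev.swap := rfl

/-- All numbers are at most `k`. -/
def Bd (k : ℕ) : Prop := ∀ t, N.p1 t ≤ k ∧ N.p2 t ≤ k ∧ N.q1 t ≤ k ∧ N.q2 t ≤ k

variable {N}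

theorem Bd.rev {k : ℕ} (h : N.Bd k) : N.rev.Bd k := fun t =>
  ⟨(h t).2.2.1, (h t).2.2.2, (h t).1, (h t).2.1⟩

theorem Bd.swap {k : ℕ} (h : N.Bd k) : N.swap.Bd k := fun t =>
  ⟨(h t).2.1, (h t).1, (h t).2.2.2, (h t).2.2.1⟩

theorem run_rev_aux {s s' : ℕ × ℕ} {L : List τ} (h : N.sys.Run s L s') :
    N.rev.sys.Run s' L.reverse s := by
  induction L generalizing s with
  | nil => exact Eq.symm h
  | cons t L ih =>
    rw [List.reverse_cons]
    obtain ⟨⟨h1, h2⟩, h3⟩ := h
    refine (ih h3).append ⟨⟨?_, ?_⟩, ?_⟩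
    · show N.q1 t ≤ s.1 - N.p1 t + N.q1 t
      omega
    · show N.q2 t ≤ s.2 - N.p2 t + N.q2 t
      omega
    · show ((s.1 - N.p1 t + N.q1 t) - N.q1 t + N.p1 t, (s.2 - N.p2 t + N.q2 t) - N.q2 t + N.p2 t)
        = s
      ext
      · show (s.1 - N.p1 t + N.q1 t) - N.q1 t + N.p1 t = s.1
        omega
      · show (s.2 - N.p2 t + N.q2 t) - N.q2 t + N.p2 t = s.2
        omega

theorem run_rev {s s' : ℕ × ℕ} {L : List τ} :
    N.rev.sys.Run s' L.reverse s ↔ N.sys.Run s L s' :=
  ⟨fun h => by simpa using run_rev_aux h, run_rev_aux⟩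

theorem run_rev' {s s' : ℕ × ℕ} {L : List τ} :
    N.rev.sys.Run s' L s ↔ N.sys.Run s L.reverse s' := by
  rw [← run_rev]
  exact Iff.rfl

theorem mem_sts_rev {s s' z : ℕ × ℕ} {L : List τ} (h : N.sys.Run s L s') :
    z ∈ N.rev.sys.sts s' L.reverse ↔ z ∈ N.sys.sts s L := by
  constructor
  · intro hz
    obtain ⟨A, B, h1, h2, h3⟩ := Sys.exists_split (run_rev.2 h) hz
    have h4 : L = B.reverse ++ A.reverse := by
      rw [← List.reverse_append, ← h1, List.reverse_reverse]
    rw [h4]
    exact Sys.mem_sts_of_split (run_rev'.1 h3)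
  · intro hz
    obtain ⟨A, B, h1, h2, h3⟩ := Sys.exists_split h hz
    rw [h1, List.reverse_append]
    exact Sys.mem_sts_of_split (run_rev.2 h3)

theorem run_swap {s s' : ℕ × ℕ} {L : List τ} :
    N.swap.sys.Run s.swap L s'.swap ↔ N.sys.Run s L s' := by
  induction L generalizing s with
  | nil => exact ⟨fun h => Prod.swap_injective h, fun h => congrArg Prod.swap h⟩
  | cons t L ih =>
    rw [Sys.run_cons, Sys.run_cons, ← ih]
    exact and_congr_left fun _ => and_comm

theorem mem_sts_swap {s z : ℕ × ℕ} {L : List τ} :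
    z.swap ∈ N.swap.sys.sts s.swap L ↔ z ∈ N.sys.sts s L := by
  induction L generalizing s with
  | nil => simp [Prod.swap_inj]
  | cons t L ih =>
    rw [Sys.sts_cons, Sys.sts_cons, List.mem_cons, List.mem_cons, ← ih, Prod.swap_inj]
    exact Iff.rfl

variable (N) in
/-- The effect of a word on the first place. -/
def e1 (L : List τ) : ℤ := (L.map fun t => (N.q1 t : ℤ) - N.p1 t).sum

variable (N) in
/-- The effect of a word on the second place. -/
def e2 (L : List τ) : ℤ := (L.map fun t => (N.q2 t : ℤ) - N.p2 t).sum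

@[simp] theorem e1_nil : N.e1 [] = 0 := rfl
@[simp] theorem e2_nil : N.e2 [] = 0 := rfl
@[simp] theorem e1_cons {t : τ} {L : List τ} : N.e1 (t :: L) = (N.q1 t : ℤ) - N.p1 t + N.e1 L := by
  simp [e1]
@[simp] theorem e2_cons {t : τ} {L : List τ} : N.e2 (t :: L) = (N.q2 t : ℤ) - N.p2 t + N.e2 L := by
  simp [e2]
@[simp] theorem e1_append {A B : List τ} : N.e1 (A ++ B) = N.e1 A + N.e1 B := by
  simp [e1]
@[simp] theorem e2_append {A B : List τ} : N.e2 (A ++ B) = N.e2 A + N.e2 B := by
  simp [e2]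

theorem e1_perm {A B : List τ} (h : A.Perm B) : N.e1 A = N.e1 B := (h.map _).sum_eq
theorem e2_perm {A B : List τ} (h : A.Perm B) : N.e2 A = N.e2 B := (h.map _).sum_eq

theorem run_e1 {s s' : ℕ × ℕ} {L : List τ} (h : N.sys.Run s L s') :
    (s'.1 : ℤ) = s.1 + N.e1 L := by
  induction L generalizing s with
  | nil => obtain rfl : s = s' := h; simp
  | cons t L ih =>
    obtain ⟨⟨h1, h2⟩, h3⟩ := h
    have h4 := ih h3
    rw [h4, e1_cons]
    show ((s.1 - N.p1 t + N.q1 t : ℕ) : ℤ) + _ = _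
    push_cast [h1]
    ring

theorem run_e2 {s s' : ℕ × ℕ} {L : List τ} (h : N.sys.Run s L s') :
    (s'.2 : ℤ) = s.2 + N.e2 L := by
  induction L generalizing s with
  | nil => obtain rfl : s = s' := h; simp
  | cons t L ih =>
    obtain ⟨⟨h1, h2⟩, h3⟩ := h
    have h4 := ih h3
    rw [h4, e2_cons]
    show ((s.2 - N.p2 t + N.q2 t : ℕ) : ℤ) + _ = _
    push_cast [h2]
    ring

theorem e1_le {k : ℕ} (hk : N.Bd k) (L : List τ) :
    N.e1 L ≤ k * L.length ∧ -(k * L.length : ℤ) ≤ N.e1 L := by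
  induction L with
  | nil => simp
  | cons t L ih =>
    have h := hk t
    simp only [e1_cons, List.length_cons]
    push_cast
    have h1 : (N.q1 t : ℤ) ≤ k := by exact_mod_cast h.2.2.1
    have h2 : (N.p1 t : ℤ) ≤ k := by exact_mod_cast h.1
    constructor <;> nlinarith [ih.1, ih.2]

theorem e2_le {k : ℕ} (hk : N.Bd k) (L : List τ) :
    N.e2 L ≤ k * L.length ∧ -(k * L.length : ℤ) ≤ N.e2 L := e1_le hk.swap L

/-- Along a word of length `n` the places change by at most `k * n`. -/
theorem sts_bound {k : ℕ} (hk : N.Bd k) {s s' z : ℕ × ℕ} {L : List τ} (h : N.sys.Run s L s')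
    (hz : z ∈ N.sys.sts s L) : z.1 ≤ s.1 + k * L.length ∧ z.2 ≤ s.2 + k * L.length ∧
      s.1 ≤ z.1 + k * L.length ∧ s.2 ≤ z.2 + k * L.length := by
  obtain ⟨A, B, rfl, h1, h2⟩ := Sys.exists_split h hz
  have e := run_e1 h1
  have e' := run_e2 h1
  have b := e1_le hk A
  have b' := e2_le hk A
  have hl : (k * A.length : ℤ) ≤ k * (A ++ B).length := by
    have : A.length ≤ (A ++ B).length := by simp
    exact_mod_cast Nat.mul_le_mul_left k this
  refine ⟨?_, ?_, ?_, ?_⟩ <;> zify <;> linarith [b.1, b.2, b'.1, b'.2]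

/-- A short word can be executed from a state with much in both places. -/
theorem run_short {k : ℕ} (hk : N.Bd k) {s : ℕ × ℕ} {L : List τ} (h1 : k * L.length ≤ s.1)
    (h2 : k * L.length ≤ s.2) : ∃ s', N.sys.Run s L s' := by
  induction L generalizing s with
  | nil => exact ⟨s, rfl⟩
  | cons t L ih =>
    have hb := hk t
    rw [List.length_cons, Nat.mul_add, Nat.mul_one] at h1 h2
    obtain ⟨s', hs'⟩ := ih (s := N.sys.nx t s) (by
      show k * L.length ≤ s.1 - N.p1 t + N.q1 t
      omega) (by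
      show k * L.length ≤ s.2 - N.p2 t + N.q2 t
      omega)
    refine ⟨s', ⟨?_, ?_⟩, hs'⟩
    · show N.p1 t ≤ s.1
      omega
    · show N.p2 t ≤ s.2
      omega

end Net

end Pool.Agent.J4H95.FS
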