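import Pool.Agent.J4H95.FS.Dec
import Pool.Agent.H671R2.PolyAuto
import Pool.Agent.H633R2.FptPad

/-!
# The decision procedure in polynomial time
-/

set_option autoImplicit false

namespace Pool.Agent.NPC.J4FS

open Pool.Agent.J4H95.FS

section gen

variable {α β : Type} [TEnc α] [TEnc β]

theorem q1 {γ : Type} [TEnc γ] : Poly (fun q : α × γ => q.1) := Poly.fst Poly.id

theorem q2 {γ : Type} [TEnc γ] : Poly (fun q : α × γ => q.2) := Poly.snd Poly.id

theorem p_count [DecidableEq β] {l : α → List β} {b : α → β} (hl : Poly l) (hb : Poly b) :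
    Poly (fun a => (l a).count (b a)) := by
  refine (Poly.length (Poly.filter (p := fun a x => decide (x = b a)) hl
    (Poly.decide_eq (Poly.snd Poly.id) (hb.comp (Poly.fst Poly.id))))).congr fun a => ?_
  rw [List.count_eq_length_filter]
  congr 1

theorem take_eq (l : List β) : ∀ n k : ℕ,
    ((l.zipIdx k).filter fun p => decide (p.2 < k + n)).map (fun p => p.1) = l.take n := by
  induction l with
  | nil => intro n k; simp
  | cons a l ih =>
    intro n k
    cases n with
    | zero =>
      rw [List.take_zero, List.map_eq_nil_iff, List.filter_eq_nil_iff]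
      intro p hp
      have := List.mem_zipIdx hp
      simp only [Nat.add_zero, decide_eq_true_eq, not_lt]
      omega
    | succ n =>
      rw [List.zipIdx_cons, List.filter_cons, if_pos (by simp), List.map_cons,
        List.take_succ_cons, ← ih n (k + 1)]
      congr 2
      ext p
      rw [show k + 1 + n = k + (n + 1) by omega]

theorem p_take {l : α → List β} {n : α → ℕ} (hl : Poly l) (hn : Poly n) :
    Poly (fun a => (l a).take (n a)) := by
  refine (Poly.map (F := fun _ (p : β × ℕ) => p.1) (Poly.filter (p := fun a (p : β × ℕ) =>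
    decide (p.2 < n a)) (Poly.zipIdx hl) (Poly.decide_lt (Poly.snd (Poly.snd Poly.id))
      (hn.comp (Poly.fst Poly.id)))) (Poly.fst (Poly.snd Poly.id))).congr fun a => ?_
  rw [← take_eq (l a) (n a) 0]
  simp

theorem sz_filter_le (p : β → Bool) (l : List β) : sz (l.filter p) ≤ sz l := by
  induction l with
  | nil => simp
  | cons b l ih =>
    cases h : p b
    · rw [List.filter_cons_of_neg (by simpa using h)]
      simp only [sz_list_cons]
      omega
    · rw [List.filter_cons_of_pos h]
      simp only [sz_list_cons]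
      omega

variable [DecidableEq β]

theorem p_same {ts x y : α → List β} (ht : Poly ts) (hx : Poly x) (hy : Poly y) :
    Poly (fun a => same (ts a) (x a) (y a)) := by
  unfold same
  exact Poly.all (p := fun a t => decide ((x a).count t = (y a).count t)) ht
    (Poly.decide_eq (p_count (hx.comp q1) q2) (p_count (hy.comp q1) q2))

theorem p_bitAt {M : α → List β} {i : α → ℕ} {t : α → β} (hM : Poly M) (hi : Poly i)
    (ht : Poly t) : Poly (fun a => bitAt (M a) (i a) (t a)) := by
  unfold bitAt
  exact Poly.ite (Poly.decide_bool (Poly.getD (Poly.natBits (p_count hM ht)) hi (Poly.const false)))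
    (Poly.const 1) (Poly.const 0)

theorem p_addl {ts : α → List β} {cs W : α → List (List β)} {l : α → List β} (ht : Poly ts)
    (hc : Poly cs) (hW : Poly W) (hl : Poly l) :
    Poly (fun a => addl (ts a) (cs a) (W a) (l a)) := by
  unfold addl
  refine Poly.filter (p := fun a c' => (W a).any fun c => same (ts a) c' c ||
    same (ts a) c' (c ++ l a)) hc ?_
  refine Poly.any (α := α × List β) (p := fun q c => same (ts q.1) q.2 c ||
    same (ts q.1) q.2 (c ++ l q.1)) (hW.comp q1) ?_
  have ha : Poly (fun q : (α × List β) × List β => q.1.1) := q1.comp q1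
  exact Poly.or (p_same (ht.comp ha) (q2.comp q1) q2)
    (p_same (ht.comp ha) (q2.comp q1) (Poly.append q2 (hl.comp ha)))

theorem p_halve {ts : α → List β} {cs W : α → List (List β)} {M : α → List β} {i : α → ℕ}
    (ht : Poly ts) (hc : Poly cs) (hW : Poly W) (hM : Poly M) (hi : Poly i) :
    Poly (fun a => halve (ts a) (cs a) (W a) (M a) (i a)) := by
  unfold halve
  refine Poly.filter (p := fun a c' => (W a).any fun c => (ts a).all fun t =>
    decide (c.count t = bitAt (M a) (i a) t + 2 * c'.count t)) hc ?_
  refine Poly.any (α := α × List β) (p := fun q c => (ts q.1).all fun t =>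
    decide (c.count t = bitAt (M q.1) (i q.1) t + 2 * q.2.count t)) (hW.comp q1) ?_
  refine Poly.all (α := (α × List β) × List β) (p := fun r t =>
    decide (r.2.count t = bitAt (M r.1.1) (i r.1.1) t + 2 * r.1.2.count t))
    (ht.comp (q1.comp q1)) ?_
  have ha : Poly (fun q : ((α × List β) × List β) × β => q.1.1.1) := q1.comp (q1.comp q1)
  have hb : Poly (fun q : ((α × List β) × List β) × β => q.1.1.2) := q2.comp (q1.comp q1)
  have hd : Poly (fun q : ((α × List β) × List β) × β => q.1.2) := q2.comp q1
  exact Poly.decide_eq (p_count hd q2) (Poly.add (p_bitAt (hM.comp ha) (hi.comp ha) q2)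
    (Poly.mul (Poly.const 2) (p_count hb q2)))

omit [TEnc α] in
theorem sz_foldl_addl (ts : List β) (cs : List (List β)) (ls : List (List β)) :
    ∀ W : List (List β), sz (ls.foldl (addl ts cs) W) ≤ sz W + sz cs := by
  induction ls using List.reverseRecOn with
  | nil => intro W; exact Nat.le_add_right _ _
  | append_singleton ls l _ =>
    intro W
    rw [List.foldl_append, List.foldl_cons, List.foldl_nil]
    exact (sz_filter_le _ _).trans (Nat.le_add_left _ _)

theorem p_nstep {ts : α → List β} {cs ls W : α → List (List β)} {M : α → List β} {i : α → ℕ}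
    (ht : Poly ts) (hc : Poly cs) (hls : Poly ls) (hW : Poly W) (hM : Poly M) (hi : Poly i) :
    Poly (fun a => nstep (ts a) (cs a) (ls a) (M a) (W a) (i a)) := by
  unfold nstep
  obtain ⟨r, hr⟩ := hc.sz_le
  obtain ⟨s, hs⟩ := hW.sz_le
  refine p_halve ht hc (Poly.foldl (F := fun a W l => addl (ts a) (cs a) W l) hls hW
    (p_addl (ht.comp q1) (hc.comp q1) (q1.comp q2) (q2.comp q2)) (s + r) ?_) hM hi
  intro a k _
  refine (sz_foldl_addl _ _ _ _).trans ?_
  rw [Polynomial.eval_add]
  exact Nat.add_le_add (hs a) (hr a)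

theorem p_nfa {ts : α → List β} {cs ls : α → List (List β)} {M L0 : α → List β}
    (ht : Poly ts) (hc : Poly cs) (hls : Poly ls) (hM : Poly M) (hL : Poly L0) :
    Poly (fun a => nfa (ts a) (cs a) (ls a) (M a) (L0 a)) := by
  unfold nfa
  obtain ⟨r, hr⟩ := hc.sz_le
  have hW : Poly (fun a => [L0 a]) := Poly.cons hL (Poly.const [])
  obtain ⟨s, hs⟩ := hW.sz_le
  refine Poly.dec_mem (Poly.const []) (Poly.foldl
    (F := fun a W i => nstep (ts a) (cs a) (ls a) (M a) W i)
    (Poly.range_length hM) hW
    (p_nstep (ht.comp q1) (hc.comp q1) (hls.comp q1) (q1.comp q2) (hM.comp q1) (q2.comp q2))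
    (s + r) ?_)
  intro a k _
  rw [Polynomial.eval_add]
  have key : ∀ (l : List ℕ), sz (l.foldl (fun W i => nstep (ts a) (cs a) (ls a) (M a) W i)
      [L0 a]) ≤ sz [L0 a] + sz (cs a) := by
    intro l
    induction l using List.reverseRecOn with
    | nil => exact Nat.le_add_right _ _
    | append_singleton l i _ =>
      rw [List.foldl_append, List.foldl_cons, List.foldl_nil]
      exact (sz_filter_le _ _).trans (Nat.le_add_left _ _)
  exact (key _).trans (Nat.add_le_add (hs a) (hr a))

end gen

section jobs

variable {α : Type} [TEnc α]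

theorem p_stepO {o : α → Option (ℕ × ℕ)} {t : α → Job} (ho : Poly o) (ht : Poly t) :
    Poly (fun a => stepO (o a) (t a)) := by
  unfold stepO
  refine Poly.optBind (f := fun a s => if (t a).1 ≤ s.1 ∧ (t a).2.1 ≤ s.2 then
    some (s.1 - (t a).1 + (t a).2.1, s.2 - (t a).2.1 + (t a).2.2) else none) ho ?_
  have h1 : Poly (fun q : α × (ℕ × ℕ) => (t q.1).1) := Poly.fst (ht.comp q1)
  have h2 : Poly (fun q : α × (ℕ × ℕ) => (t q.1).2.1) := Poly.fst (Poly.snd (ht.comp q1))
  have h3 : Poly (fun q : α × (ℕ × ℕ) => (t q.1).2.2) := Poly.snd (Poly.snd (ht.comp q1))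
  have s1 : Poly (fun q : α × (ℕ × ℕ) => q.2.1) := Poly.fst q2
  have s2 : Poly (fun q : α × (ℕ × ℕ) => q.2.2) := Poly.snd q2
  exact Poly.ite (Poly.decide_and (Poly.decide_le h1 s1) (Poly.decide_le h2 s2))
    (Poly.some (Poly.pair (Poly.add (Poly.sub s1 h1) h2) (Poly.add (Poly.sub s2 h2) h3)))
    (Poly.const none)

/-- The number of digits in a state. -/
def bdO : Option (ℕ × ℕ) → ℕ
  | none => 0
  | some s => max s.1.size s.2.size

theorem size_step (x a b : ℕ) : (x - a + b).size ≤ max x.size b.size + 1 := by
  rw [Nat.size_le, pow_succ]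
  have h1 : x < 2 ^ max x.size b.size := Nat.size_le.1 (le_max_left _ _)
  have h2 : b < 2 ^ max x.size b.size := Nat.size_le.1 (le_max_right _ _)
  omega

theorem bdO_runO (L : List Job) : ∀ o, bdO (runO o L) ≤ max (bdO o) (sz L) + L.length := by
  induction L with
  | nil => intro o; exact le_max_left _ _
  | cons t L ih =>
    intro o
    have h1 := ih (stepO o t)
    have e : runO o (t :: L) = runO (stepO o t) L := rfl
    rw [e, List.length_cons, sz_list_cons]
    have hb : t.2.1.size ≤ sz t := by
      have h1 := size_le_sz t.2.1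
      have h2 : sz t = sz t.1 + (sz t.2.1 + sz t.2.2 + 1) + 1 := by
        rw [← sz_pair, ← sz_pair]
      omega
    have hc : t.2.2.size ≤ sz t := by
      have h1 := size_le_sz t.2.2
      have h2 : sz t = sz t.1 + (sz t.2.1 + sz t.2.2 + 1) + 1 := by
        rw [← sz_pair, ← sz_pair]
      omega
    have h2 : bdO (stepO o t) ≤ max (bdO o) (sz t) + 1 := by
      rcases o with _ | s
      · exact Nat.zero_le _
      · by_cases h : t.1 ≤ s.1 ∧ t.2.1 ≤ s.2
        · have e2 : stepO (some s) t = some (s.1 - t.1 + t.2.1, s.2 - t.2.1 + t.2.2) := by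
            simp only [stepO, Option.bind_some, if_pos h]
          rw [e2]
          have a1 := size_step s.1 t.1 t.2.1
          have a2 := size_step s.2 t.2.1 t.2.2
          simp only [bdO]
          omega
        · have e2 : stepO (some s) t = none := by
            simp only [stepO, Option.bind_some, if_neg h]
          rw [e2]
          exact Nat.zero_le _
    omega

theorem sz_le_bdO (o : Option (ℕ × ℕ)) : sz o ≤ 8 * bdO o + 5 := by
  rcases o with _ | s
  · simp
  · rw [sz_some, show s = (s.1, s.2) from rfl, sz_pair]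
    have h1 := sz_nat_le s.1
    have h2 := sz_nat_le s.2
    simp only [bdO]
    omega

theorem bdO_le_sz (o : Option (ℕ × ℕ)) : bdO o ≤ sz o := by
  rcases o with _ | s
  · exact Nat.zero_le _
  · rw [sz_some, show s = (s.1, s.2) from rfl, sz_pair]
    have h1 := size_le_sz s.1
    have h2 := size_le_sz s.2
    simp only [bdO]
    omega

theorem p_runO {o : α → Option (ℕ × ℕ)} {L : α → List Job} (ho : Poly o) (hL : Poly L) :
    Poly (fun a => runO (o a) (L a)) := by
  unfold runO
  obtain ⟨r, hr⟩ := ho.sz_le
  obtain ⟨s, hs⟩ := hL.sz_le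
  refine Poly.foldl (F := fun _ o t => stepO o t) hL ho (p_stepO (q1.comp q2) (q2.comp q2))
    (Polynomial.C 8 * (r + s + s) + Polynomial.C 5) ?_
  intro a k _
  have h1 := sz_le_bdO (runO (o a) ((L a).take k))
  have h2 := bdO_runO ((L a).take k) (o a)
  have h3 := bdO_le_sz (o a)
  have h4 := Poly.sz_take_le (L a) k
  have h5 := hr a
  have h6 := hs a
  have h7 := length_lt_sz ((L a).take k)
  simp only [Polynomial.eval_add, Polynomial.eval_mul, Polynomial.eval_C]
  change sz (runO (o a) ((L a).take k)) ≤ _
  have h8 : max (bdO (o a)) (sz ((L a).take k)) ≤ sz (o a) + sz ((L a).take k) := by omega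
  omega

theorem p_visO {L : α → List Job} (hL : Poly L) : Poly (fun a => visO (L a)) := by
  unfold visO
  have h1 : Poly (fun a => List.range ((L a).length + 1)) :=
    (Poly.range_length (Poly.cons (Poly.const ((0, 0, 0) : Job)) hL)).congr fun a => by simp
  exact Poly.map (F := fun a i => runO (some (0, 0)) ((L a).take i)) h1
    (p_runO (Poly.const _) (p_take (hL.comp q1) q2))

theorem p_loopsOf {ws : α → List (List Job)} {L : α → List Job} (hw : Poly ws) (hL : Poly L) :
    Poly (fun a => loopsOf (ws a) (L a)) := by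
  unfold loopsOf
  refine Poly.filter (p := fun a l => (visO (L a)).any fun o => decide (runO o l = o)) hw ?_
  refine Poly.any (α := α × List Job) (p := fun q o => decide (runO o q.2 = o))
    ((p_visO hL).comp q1) ?_
  exact Poly.decide_eq (p_runO q2 (q2.comp q1)) q2

theorem p_decM {ts : α → List Job} {ws cs : α → List (List Job)} {M : α → List Job}
    (ht : Poly ts) (hw : Poly ws) (hc : Poly cs) (hM : Poly M) :
    Poly (fun a => decM (ts a) (ws a) (cs a) (M a)) := by
  unfold decM
  refine Poly.any (p := fun a L0 => decide (runO (some (0, 0)) L0 = some (0, 0)) &&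
    nfa (ts a) (cs a) (loopsOf (ws a) L0) (M a) L0) hw ?_
  exact Poly.and (Poly.decide_eq (p_runO (Poly.const _) q2) (Poly.const _))
    (p_nfa (ht.comp q1) (hc.comp q1) (p_loopsOf (hw.comp q1) q2) (hM.comp q1) q2)

end jobs

end Pool.Agent.NPC.J4FS
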