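import Pool.Agent.J4H95.FS.PolyA
import Pool.Agent.J4H95.FS.Input

/-!
# The algorithm in fpt time
-/

set_option autoImplicit false

namespace Pool.Agent.NPC.J4FS

open Pool.Agent.J4H95.FS Pool.Agent.H633R2 Pool.Agent.NPC.H633

section

variable {α β : Type} [TEnc α] [TEnc β]

theorem p_replicate {n : α → ℕ} {c : α → β} (hn : UPoly n) (hc : Poly c) :
    Poly (fun a => List.replicate (n a) (c a)) := by
  have h : Poly (fun a => (List.replicate (n a) ()).map fun _ => c a) :=
    Poly.map (F := fun a (_ : Unit) => c a) hn (hc.comp q1)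
  exact h.congr fun a => by rw [List.map_replicate]

theorem p_types {k : α → ℕ} (hk : UPoly k) : Poly (fun a => types (k a)) := by
  unfold types
  have hr : Poly (fun a => List.range (k a + 1)) := (UPoly.add hk (UPoly.const 1)).range
  refine Poly.flatMap (F := fun a x => (List.range (k a + 1)).flatMap fun b =>
    (List.range (k a + 1)).map fun c => (x, b, c)) hr ?_
  refine Poly.flatMap (α := α × ℕ) (F := fun q b =>
    (List.range (k q.1 + 1)).map fun c => (q.2, b, c)) (hr.comp q1) ?_
  refine Poly.map (α := (α × ℕ) × ℕ) (F := fun q c => (q.1.2, q.2, c))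
    (hr.comp (q1.comp q1)) ?_
  exact Poly.pair (q2.comp (q1.comp q1)) (Poly.pair (q2.comp q1) q2)

end

/-! ### The lists of words -/

/-- One more letter. -/
def wstep (ts : List Job) (acc : List (List Job)) : List (List Job) :=
  [] :: acc.flatMap fun w => ts.map fun t => t :: w

theorem words_fold (ts : List Job) (n : ℕ) :
    (List.replicate n ()).foldl (fun acc _ => wstep ts acc) [[]] = words ts n := by
  induction n with
  | zero => rfl
  | succ n ih =>
    rw [List.replicate_succ', List.foldl_append, ih]
    rfl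

theorem p_wstep : Poly (fun p : List Job × List (List Job) × Unit => wstep p.1 p.2.1) := by
  unfold wstep
  refine Poly.cons (Poly.const []) ?_
  refine Poly.flatMap (F := fun (p : List Job × List (List Job) × Unit) w =>
    p.1.map fun t => t :: w) (q1.comp q2) ?_
  exact Poly.map (α := (List Job × List (List Job) × Unit) × List Job)
    (F := fun q t => t :: q.2) (q1.comp q1) (Poly.cons q2 (q2.comp q1))

theorem sz_map_cons (ts : List Job) (w : List Job) :
    sz (ts.map fun t => t :: w) ≤ sz ts * (sz w + 2) := by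
  induction ts with
  | nil => simp
  | cons t ts ih =>
    rw [List.map_cons, sz_list_cons, sz_list_cons, sz_list_cons]
    nlinarith [sz_pos t, sz_pos w]

theorem sz_flatMap_cons (ts : List Job) (acc : List (List Job)) :
    sz (acc.flatMap fun w => ts.map fun t => t :: w) ≤ 2 * sz ts * sz acc := by
  induction acc with
  | nil =>
    have := sz_pos ts
    simp
    omega
  | cons w acc ih =>
    rw [List.flatMap_cons, sz_list_cons]
    have h1 := sz_append (ts.map fun t => t :: w) (acc.flatMap fun w => ts.map fun t => t :: w)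
    have h2 := sz_map_cons ts w
    have h3 := sz_pos ts
    have h4 := sz_pos w
    nlinarith

theorem sz_words (ts : List Job) (n : ℕ) : sz (words ts n) ≤ (2 * sz ts + 2) ^ n * 3 := by
  induction n with
  | zero => simp [words]
  | succ n ih =>
    rw [words, sz_list_cons, sz_list_nil, pow_succ]
    have h1 := sz_flatMap_cons ts (words ts n)
    have h2 := sz_pos (words ts n)
    have h3 : 1 + sz ((words ts n).flatMap fun w => ts.map fun t => t :: w) + 1 ≤
        (2 * sz ts + 2) * sz (words ts n) := by nlinarith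
    refine h3.trans ?_
    calc (2 * sz ts + 2) * sz (words ts n) ≤ (2 * sz ts + 2) * ((2 * sz ts + 2) ^ n * 3) :=
          Nat.mul_le_mul_left _ ih
      _ = (2 * sz ts + 2) ^ n * (2 * sz ts + 2) * 3 := by ring

/-- A bound for the size of the list of letters. -/
def tsz (n : ℕ) : ℕ := (n + 1) * ((n + 1) * (n + 1)) * (12 * n + 6) + 1

theorem sz_types (n : ℕ) : sz (types n) ≤ tsz n := by
  have h1 := sz_le_length_mul (types n) (12 * n + 5) (by
    intro t ht
    obtain ⟨h1, h2, h3⟩ := mem_types.1 ht
    have e : sz t = sz t.1 + (sz t.2.1 + sz t.2.2 + 1) + 1 := by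
      rw [← sz_pair, ← sz_pair]
    have a1 := sz_nat_le t.1
    have a2 := sz_nat_le t.2.1
    have a3 := sz_nat_le t.2.2
    have b1 := Poly.size_le_self t.1
    have b2 := Poly.size_le_self t.2.1
    have b3 := Poly.size_le_self t.2.2
    omega)
  rw [length_types] at h1
  exact h1

theorem uf_tsz : UF tsz := by
  unfold tsz
  have h1 : UF (fun n => n + 1) := UF.add UF.id (UF.const 1)
  exact UF.add (UF.mul (UF.mul h1 (UF.mul h1 h1)) (UF.add (UF.mul (UF.const 12) UF.id)
    (UF.const 6))) (UF.const 1)

theorem fpt_types : FptTime (fun n : ℕ => n) (fun n => types n) := by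
  have h := FptTime.poly_comp (g := fun l : List Unit => types l.length)
    (p_types (UPoly.length Poly.id)) UF.id.2
  have e : (fun n : ℕ => types (List.replicate n ()).length) = fun n => types n := by
    funext n
    rw [List.length_replicate]
  exact e ▸ h

theorem fpt_words {F : ℕ → ℕ} (hF : UF F) :
    FptTime (fun n : ℕ => n) (fun n => words (types n) (F n)) := by
  have h := fptFoldl (κ := fun n : ℕ => n) (c := fun n => types n)
    (l := fun n => List.replicate (F n) ()) (s := fun _ => ([[]] : List (List Job)))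
    (F := fun ts acc _ => wstep ts acc) fpt_types hF.2 (FptTime.of_poly (Poly.const _)) p_wstep
    (H := fun n => 2 ^ ((2 * tsz n + 2) * F n) * 3)
    (mul_computable (two_pow_computable (mul_computable (add_computable
      (mul_computable (Computable.const 2) uf_tsz.1) (Computable.const 2)) hF.1))
      (Computable.const 3)) 1 (by
      intro n k hk
      rw [List.length_replicate] at hk
      rw [List.take_replicate, words_fold, Nat.min_eq_left hk, Polynomial.eval_one, mul_one]
      refine (sz_words _ _).trans (Nat.mul_le_mul_right _ ?_)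
      have h1 := sz_types n
      calc (2 * sz (types n) + 2) ^ k ≤ (2 ^ (2 * tsz n + 2)) ^ k := by
            refine Nat.pow_le_pow_left ?_ _
            exact (Nat.lt_two_pow_self.le).trans (Nat.pow_le_pow_right (by norm_num) (by omega))
        _ = 2 ^ ((2 * tsz n + 2) * k) := by rw [pow_mul]
        _ ≤ 2 ^ ((2 * tsz n + 2) * F n) :=
            Nat.pow_le_pow_right (by norm_num) (Nat.mul_le_mul_left _ hk))
  have e : (fun n : ℕ => (List.replicate (F n) ()).foldl (fun acc _ => wstep (types n) acc)
      ([[]] : List (List Job))) = fun n => words (types n) (F n) := by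
    funext n
    rw [words_fold]
  exact e ▸ h

theorem uf_GG : UF GG := by
  have hm : UF mm := by
    have h1 : UF (fun n => n + 1) := UF.add UF.id (UF.const 1)
    exact UF.mul h1 (UF.mul h1 h1)
  have hd : UF (fun k => Net.dd (mm k) k) := UF.mul (UF.const 2) (UF.mul hm UF.id)
  have hh : UF (fun k => Net.hh k (Net.dd (mm k) k)) := UF.add hd (UF.mul UF.id hd)
  have hg : UF (fun k => Net.gg k (Net.dd (mm k) k)) := UF.add (UF.mul hh hh) hd
  have ha : UF (fun k => Net.aa (mm k) k) :=
    UF.add (UF.mul (UF.const 2) (UF.mul (UF.add UF.id (UF.const 1)) (UF.mul hm hg))) (UF.const 1)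
  have hb : UF (fun k => Net.bb (mm k) k) :=
    UF.add (UF.add (UF.add (UF.mul UF.id ha) (UF.mul hm (UF.mul UF.id UF.id)))
      (UF.mul UF.id UF.id)) UF.id
  have hz : UF (fun k => Net.zz (mm k) k) :=
    UF.add (UF.add (UF.mul UF.id hg) hd)
      (UF.add (UF.add (UF.add hh UF.id) hb) (UF.mul UF.id UF.id))
  have hs : UF SS := UF.mul (UF.add hz (UF.const 1)) (UF.add hz (UF.const 1))
  exact UF.add (UF.mul hs hs) hs

theorem uf_RR : UF RR := by
  have hm : UF mm := by
    have h1 : UF (fun n => n + 1) := UF.add UF.id (UF.const 1)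
    exact UF.mul h1 (UF.mul h1 h1)
  exact UF.mul (UF.const 2) (UF.add uf_GG (UF.mul (UF.two_pow (UF.mul hm uf_GG)) uf_GG))

/-! ### Reading the input -/

theorem p_numStep : Poly (fun p : List Bool × Bool × List ℕ => numStep p.2.1 p.2.2) := by
  unfold numStep
  refine Poly.cond (q1.comp q2) ?_ (Poly.cons (Poly.const 0) (q2.comp q2))
  refine (Poly.listCases (l := fun p : List Bool × Bool × List ℕ => p.2.2)
    (g := fun _ => ([] : List ℕ)) (h := fun _ b t => (b + 1) :: t) (q2.comp q2) (Poly.const [])
    (Poly.cons (Poly.add (q1.comp q2) (Poly.const 1)) (q2.comp q2))).congr fun p => ?_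
  cases p.2.2 <;> rfl

theorem sz_nums (x : List Bool) : sz (nums x) ≤ x.length * (4 * x.length + 2) + 1 := by
  obtain ⟨h1, h2⟩ := nums_bound x
  have h3 := sz_le_length_mul (nums x) (4 * x.length + 1) (by
    intro n hn
    have a1 := sz_nat_le n
    have a2 := Poly.size_le_self n
    have a3 := h2 n hn
    omega)
  refine h3.trans ?_
  have h4 : (nums x).length * (4 * x.length + 1 + 1) ≤ x.length * (4 * x.length + 2) :=
    Nat.mul_le_mul h1 (by omega)
  omega

theorem p_nums : Poly nums := by
  unfold nums
  refine Poly.foldr (F := fun _ b acc => numStep b acc) Poly.id (Poly.const []) p_numStep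
    (Polynomial.X * (Polynomial.C 4 * Polynomial.X + Polynomial.C 2) + Polynomial.C 1) ?_
  intro x k _
  have h1 := sz_nums (x.drop k)
  have h2 : (x.drop k).length ≤ sz x := by
    rw [List.length_drop]
    have := length_lt_sz x
    omega
  simp only [Polynomial.eval_add, Polynomial.eval_mul, Polynomial.eval_X, Polynomial.eval_C]
  refine h1.trans ?_
  have h3 : (x.drop k).length * (4 * (x.drop k).length + 2) ≤ sz x * (4 * sz x + 2) :=
    Nat.mul_le_mul h2 (by omega)
  omega

theorem p_TT : Poly TT := by
  unfold TT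
  exact Poly.getD p_nums (Poly.const 0) (Poly.const 0)

theorem p_JJ : Poly JJ := by
  unfold JJ
  have hm : UPoly (fun x : List Bool => ((nums x).length - 1) / 3) := by
    refine UPoly.of_le (n := fun x => (nums x).length)
      (Poly.div (Poly.sub (Poly.length p_nums) (Poly.const 1)) (Poly.const 3))
      (UPoly.length p_nums) fun x => ?_
    exact (Nat.div_le_self _ _).trans (Nat.sub_le _ _)
  refine Poly.map (F := fun x j => ((nums x).getD (3 * j + 1) 0, (nums x).getD (3 * j + 2) 0,
    (nums x).getD (3 * j + 3) 0)) hm.range ?_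
  have hn : Poly (fun q : List Bool × ℕ => nums q.1) := p_nums.comp q1
  have hi : ∀ c : ℕ, Poly (fun q : List Bool × ℕ => (nums q.1).getD (3 * q.2 + c) 0) := fun c =>
    Poly.getD hn (Poly.add (Poly.mul (Poly.const 3) q2) (Poly.const c)) (Poly.const 0)
  exact Poly.pair (hi 1) (Poly.pair (hi 2) (hi 3))

theorem sz_pm (J : List Job) : sz (pm J) ≤ sz J := by
  induction J with
  | nil => exact le_refl _
  | cons t J ih =>
    have e : pm (t :: J) = max (max t.1 (max t.2.1 t.2.2)) (pm J) := rfl
    have e2 : sz t = sz t.1 + (sz t.2.1 + sz t.2.2 + 1) + 1 := by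
      rw [← sz_pair, ← sz_pair]
    rw [e, sz_list_cons, e2]
    rcases max_choice (max t.1 (max t.2.1 t.2.2)) (pm J) with h | h
    · rw [h]
      rcases max_choice t.1 (max t.2.1 t.2.2) with h | h
      · rw [h]; omega
      · rw [h]
        rcases max_choice t.2.1 t.2.2 with h | h
        · rw [h]; omega
        · rw [h]; omega
    · rw [h]; omega

theorem p_pm : Poly pm := by
  unfold pm
  refine Poly.foldr (F := fun (_ : List Job) (t : Job) (m : ℕ) =>
    max (max t.1 (max t.2.1 t.2.2)) m) Poly.id (Poly.const 0)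
    ?_ Polynomial.X ?_
  · have h1 : Poly (fun q : List Job × Job × ℕ => q.2.1) := q1.comp q2
    exact Poly.max (Poly.max (Poly.fst h1) (Poly.max (Poly.fst (Poly.snd h1))
      (Poly.snd (Poly.snd h1)))) (q2.comp q2)
  · intro J k _
    rw [Polynomial.eval_X]
    exact (sz_pm (J.drop k)).trans (Poly.sz_drop_le J k)

theorem p_kap : Poly kap := p_pm.comp p_JJ

theorem p_kk : Poly kk := Poly.max (Poly.const 1) p_kap

theorem getD_le (x : List Bool) (i : ℕ) : (nums x).getD i 0 ≤ x.length := by
  by_cases h : i < (nums x).length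
  · rw [List.getD_eq_getElem _ _ h]
    exact (nums_bound x).2 _ (List.getElem_mem h)
  · rw [List.getD_eq_default _ _ (by omega)]
    exact Nat.zero_le _

theorem kap_le (x : List Bool) : kap x ≤ x.length := by
  unfold kap
  have key : ∀ (J : List Job) (B : ℕ), (∀ t ∈ J, t.1 ≤ B ∧ t.2.1 ≤ B ∧ t.2.2 ≤ B) → pm J ≤ B := by
    intro J B h
    induction J with
    | nil => exact Nat.zero_le _
    | cons a J ih =>
      have e : pm (a :: J) = max (max a.1 (max a.2.1 a.2.2)) (pm J) := rfl
      have h1 := h a List.mem_cons_self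
      have h2 := ih fun t ht => h t (List.mem_cons_of_mem _ ht)
      omega
  refine key _ _ fun t ht => ?_
  obtain ⟨j, -, rfl⟩ := List.mem_map.1 ht
  exact ⟨getD_le _ _, getD_le _ _, getD_le _ _⟩

theorem u_kk : UPoly kk :=
  UPoly.of_le (n := fun x => x.length + 1) p_kk (UPoly.add (UPoly.length Poly.id) (UPoly.const 1))
    fun x => by
      have := kap_le x
      unfold kk
      omega

theorem u_TT : UPoly TT :=
  UPoly.of_le (n := fun x => x.length) p_TT (UPoly.length Poly.id) fun x => getD_le x 0

theorem p_sumA {α : Type} [TEnc α] {J : α → List Job} (hJ : Poly J) :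
    Poly (fun a => sumA (J a)) :=
  Poly.sum (Poly.map (F := fun _ t => t.1) hJ (Poly.fst q2))

theorem p_sumB {α : Type} [TEnc α] {J : α → List Job} (hJ : Poly J) :
    Poly (fun a => sumB (J a)) :=
  Poly.sum (Poly.map (F := fun _ t => t.2.1) hJ (Poly.fst (Poly.snd q2)))

theorem p_sumC {α : Type} [TEnc α] {J : α → List Job} (hJ : Poly J) :
    Poly (fun a => sumC (J a)) :=
  Poly.sum (Poly.map (F := fun _ t => t.2.2) hJ (Poly.snd (Poly.snd q2)))

theorem p_allJobs : Poly (fun x => allJobs (TT x) (JJ x)) := by
  unfold allJobs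
  have hs : ∀ {f : List Bool → ℕ}, Poly f → UPoly (fun x => TT x - f x) := fun hf =>
    UPoly.of_le (n := TT) (Poly.sub p_TT hf) u_TT fun x => Nat.sub_le _ _
  exact Poly.append p_JJ (Poly.append (p_replicate (hs (p_sumC p_JJ)) (Poly.const _))
    (Poly.append (p_replicate (hs (p_sumB p_JJ)) (Poly.const _))
      (p_replicate (hs (p_sumA p_JJ)) (Poly.const _))))

/-! ### The algorithm -/

/-- The algorithm, given the lists of words. -/
def decG (q : List Bool × List (List Job) × List (List Job)) : Bool :=
  (decide (sumA (JJ q.1) ≤ TT q.1) && (decide (sumB (JJ q.1) ≤ TT q.1) &&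
    decide (sumC (JJ q.1) ≤ TT q.1))) &&
    decM (types (kk q.1)) q.2.1 q.2.2 (allJobs (TT q.1) (JJ q.1))

theorem p_decG : Poly decG := by
  unfold decG
  have hJ : Poly (fun q : List Bool × List (List Job) × List (List Job) => JJ q.1) := p_JJ.comp q1
  have hT : Poly (fun q : List Bool × List (List Job) × List (List Job) => TT q.1) := p_TT.comp q1
  exact Poly.and (Poly.and (Poly.decide_le (p_sumA hJ) hT) (Poly.and
    (Poly.decide_le (p_sumB hJ) hT) (Poly.decide_le (p_sumC hJ) hT)))
    (p_decM (p_types (u_kk.comp q1)) (q1.comp q2) (q2.comp q2) (p_allJobs.comp q1))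

theorem fpt_decF : FptTime kap decF := by
  have hw : ∀ {F : ℕ → ℕ}, UF F → FptTime kap (fun x => words (types (kk x)) (F (kk x))) := by
    intro F hF
    exact FptTime.comp (κ' := fun n : ℕ => n) (fpt_words hF) (FptTime.of_poly p_kk)
      (G := fun n => 1 + n) (add_computable (Computable.const 1) Computable.id) fun x => by
        unfold kk
        omega
  have h := FptTime.poly_comp p_decG ((FptTime.of_poly Poly.id).pair ((hw uf_GG).pair (hw uf_RR)))
  exact h

/-- The algorithm on a Turing machine. -/
theorem tm_decF : ∃ f : ℕ → ℕ, Computable f ∧ ∃ c : ℕ, ∃ tm : Turing.FinTM2,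
    ∃ e₀ : tm.Γ tm.k₀ ≃ Bool, ∃ e₁ : tm.Γ tm.k₁ ≃ Bool, ∀ w : List Bool,
      Nonempty (Turing.TM2OutputsInTime tm (w.map e₀.symm) (some [e₁.symm (decF w)])
        (f (kap w) * (w.length + 1) ^ c)) := by
  have h1 : FC (bits : List Bool → List Bool) (bits : Bool → List Bool) kap decF :=
    (fptTime_iff _ _).1 fpt_decF
  have h2 : FC (fun x : List Bool => x) (bits : Bool → List Bool) kap (fun x => decF x) :=
    FC.comp h1 (FC.of_PC kap PC.rawIn) (G := fun n => n) Computable.id fun _ => le_rfl
  have h3 : FC (fun x : List Bool => x) (fun x : List Bool => x) kap (fun x => [decF x]) :=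
    FC.comp (κ' := fun _ : Bool => 0) (FC.of_PC _ PC.rawBool) h2 (G := fun _ => 0)
      (Computable.const 0) fun _ => le_rfl
  obtain ⟨cmd, h, p, hh, hc⟩ := h3
  obtain ⟨M, hM⟩ := toTm cmd _ hc
  obtain ⟨C, D, hP⟩ : ∃ C D : ℕ, ∀ n, p.eval n ≤ C * (n + 1) ^ D := by
    clear hc hM
    induction p using Polynomial.induction_on' with
    | add p q hp hq =>
      obtain ⟨C, D, h⟩ := hp
      obtain ⟨C', D', h'⟩ := hq
      refine ⟨C + C', D + D', fun x => ?_⟩
      rw [Polynomial.eval_add, Nat.add_mul]
      refine Nat.add_le_add ((h x).trans (Nat.mul_le_mul_left _ ?_))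
        ((h' x).trans (Nat.mul_le_mul_left _ ?_))
      · exact Nat.pow_le_pow_right (by omega) (by omega)
      · exact Nat.pow_le_pow_right (by omega) (by omega)
    | monomial k c =>
      refine ⟨c, k, fun x => ?_⟩
      rw [Polynomial.eval_monomial]
      exact Nat.mul_le_mul_left _ (Nat.pow_le_pow_left (by omega) _)
  refine ⟨fun k => h k * C + 1, add_computable (mul_computable hh (Computable.const C))
    (Computable.const 1), D, M.tm, M.inputAlphabet, M.outputAlphabet, fun w => ?_⟩
  obtain ⟨h4⟩ := hM w
  refine ⟨outputs_conv rfl rfl ?_ h4⟩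
  have h5 := hP w.length
  have h6 : 1 ≤ (w.length + 1) ^ D := Nat.one_le_pow _ _ (by omega)
  calc h (kap w) * p.eval w.length + 1 ≤ h (kap w) * (C * (w.length + 1) ^ D) +
        (w.length + 1) ^ D := Nat.add_le_add (Nat.mul_le_mul_left _ h5) h6
    _ = (h (kap w) * C + 1) * (w.length + 1) ^ D := by ring

end Pool.Agent.NPC.J4FS
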