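import Pool.Agent.J4H95.FS.Deep

/-!
# The case where not both places can be filled: few changes of one place while the other is high
-/

set_option autoImplicit false

namespace Pool.Agent.J4H95.FS

namespace Sys

variable {σ τ : Type} (Y : Sys σ τ)

open Classical in
/-- The number of steps with property `c` along a word. -/
noncomputable def cnt (c : σ → τ → σ → Prop) : σ → List τ → ℕ
  | _, [] => 0
  | s, t :: L => (if c s t (Y.nx t s) then 1 else 0) + cnt c (Y.nx t s) L

variable {Y} {c c' : σ → τ → σ → Prop}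

@[simp] theorem cnt_nil {s : σ} : Y.cnt c s [] = 0 := rfl

open Classical in
theorem cnt_cons {s : σ} {t : τ} {L : List τ} : Y.cnt c s (t :: L) =
    (if c s t (Y.nx t s) then 1 else 0) + Y.cnt c (Y.nx t s) L := rfl

theorem cnt_append {s m : σ} {A B : List τ} (h : Y.Run s A m) :
    Y.cnt c s (A ++ B) = Y.cnt c s A + Y.cnt c m B := by
  induction A generalizing s with
  | nil =>
    obtain rfl : s = m := h
    simp
  | cons t A ih =>
    rw [List.cons_append, cnt_cons, cnt_cons, ih h.2, add_assoc]

theorem cnt_mono {s s' : σ} {L : List τ} (h : Y.Run s L s')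
    (hc : ∀ z ∈ Y.sts s L, ∀ t, Y.en t z → Y.nx t z ∈ Y.sts s L → c z t (Y.nx t z) →
      c' z t (Y.nx t z)) : Y.cnt c s L ≤ Y.cnt c' s L := by
  classical
  induction L generalizing s with
  | nil => simp
  | cons t L ih =>
    rw [cnt_cons, cnt_cons]
    refine Nat.add_le_add ?_ (ih h.2 fun z hz t' h1 h2 h3 =>
      hc z (List.mem_cons_of_mem _ hz) t' h1 (List.mem_cons_of_mem _ h2) h3)
    by_cases hcc : c s t (Y.nx t s)
    · rw [if_pos hcc, if_pos (hc s List.mem_cons_self t h.1
        (List.mem_cons_of_mem _ (start_mem L)) hcc)]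
    · rw [if_neg hcc]
      exact Nat.zero_le _

theorem cnt_eq_zero {s s' : σ} {L : List τ} (h : Y.Run s L s')
    (hc : ∀ z ∈ Y.sts s L, ∀ t, Y.en t z → Y.nx t z ∈ Y.sts s L → ¬ c z t (Y.nx t z)) :
    Y.cnt c s L = 0 := by
  have h1 : Y.cnt c s L ≤ Y.cnt (fun _ _ _ => False) s L :=
    cnt_mono h fun z hz t h1 h2 h3 => hc z hz t h1 h2 h3
  have h2 : ∀ (s : σ) (L : List τ), Y.cnt (fun _ _ _ => False) s L = 0 := by
    intro s L
    induction L generalizing s with
    | nil => rfl
    | cons t L ih => rw [cnt_cons, ih]; simp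
  rw [h2] at h1
  omega

theorem cnt_le_countP {p : τ → Prop} [DecidablePred p] {s : σ} {L : List τ} (hc : ∀ z t z', c z t z' → p t) :
    Y.cnt c s L ≤ L.countP (fun t => decide (p t)) := by
  classical
  induction L generalizing s with
  | nil => simp
  | cons t L ih =>
    rw [cnt_cons, List.countP_cons, add_comm]
    refine Nat.add_le_add ih ?_
    by_cases h : c s t (Y.nx t s)
    · simp [h, hc _ _ _ h]
    · simp [h]

theorem countP_le_cnt {p : τ → Prop} [DecidablePred p] {s s' : σ} {L : List τ} (h : Y.Run s L s')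
    (hc : ∀ z ∈ Y.sts s L, ∀ t, Y.en t z → p t → c z t (Y.nx t z)) :
    L.countP (fun t => decide (p t)) ≤ Y.cnt c s L := by
  classical
  induction L generalizing s with
  | nil => simp
  | cons t L ih =>
    rw [cnt_cons, List.countP_cons, add_comm]
    refine Nat.add_le_add ?_ (ih h.2 fun z hz t' => hc z (List.mem_cons_of_mem _ hz) t')
    by_cases hp : p t
    · simp [hp, hc s List.mem_cons_self t h.1 hp]
    · simp [hp]

end Sys

namespace Net

variable {τ : Type} {N : Net τ} {k : ℕ}

theorem cnt_rev {c : ℕ × ℕ → τ → ℕ × ℕ → Prop} {s s' : ℕ × ℕ} {L : List τ}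
    (h : N.sys.Run s L s') :
    N.rev.sys.cnt (fun z t z' => c z' t z) s' L.reverse = N.sys.cnt c s L := by
  classical
  induction L generalizing s with
  | nil => rfl
  | cons t L ih =>
    have h1 : N.sys.Run s [t] (N.sys.nx t s) := ⟨h.1, rfl⟩
    have h2 : N.rev.sys.Run (N.sys.nx t s) [t] s := run_rev_aux h1
    have h3 := run_rev_aux h.2
    rw [List.reverse_cons, Sys.cnt_append h3, ih h.2, Sys.cnt_cons, Sys.cnt_cons, h2.2]
    simp [add_comm]

/-- The potential argument. -/
theorem cnt_potential {F : τ → Prop} [DecidablePred F] (hk : N.Bd k) {q : ℕ}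
    (hq : ∀ t, F t → N.p2 t ≤ q → N.q2 t ≤ N.p2 t) {s s' : ℕ × ℕ} {L : List τ}
    (h : N.sys.Run s L s') :
    N.sys.cnt (fun z t _ => z.2 ≤ q ∧ N.p2 t ≠ N.q2 t) s L + min s'.2 q ≤
      (k + 1) * L.countP (fun t => decide (¬ F t)) + min s.2 q := by
  classical
  induction L generalizing s with
  | nil =>
    obtain rfl : s = s' := h
    simp
  | cons t L ih =>
    have h1 := ih h.2
    rw [Sys.cnt_cons, List.countP_cons, Nat.mul_add]
    have e : (N.sys.nx t s).2 = s.2 - N.p2 t + N.q2 t := rfl
    rw [e] at h1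
    have hen : N.p2 t ≤ s.2 := h.1.2
    have hb := hk t
    by_cases hc : s.2 ≤ q ∧ N.p2 t ≠ N.q2 t
    · rw [if_pos hc]
      by_cases hF : F t
      · have := hq t hF
        simp only [hF, not_true_eq_false, decide_false, Bool.false_eq_true, if_false, mul_zero]
        omega
      · simp only [hF, not_false_eq_true, decide_true, if_true, mul_one]
        omega
    · rw [if_neg hc]
      by_cases hF : F t
      · have := hq t hF
        simp only [hF, not_true_eq_false, decide_false, Bool.false_eq_true, if_false, mul_zero]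
        omega
      · simp only [hF, not_false_eq_true, decide_true, if_true, mul_one]
        omega

/-- pumping the second place -/
theorem pump (hk : N.Bd k) {t : τ} (ht : N.p2 t < N.q2 t) {D i : ℕ} {z : ℕ × ℕ}
    (h1 : D + k * i ≤ z.1) (h2 : N.p2 t ≤ z.2) :
    ∃ z', N.sys.Run z (List.replicate i t) z' ∧ D ≤ z'.1 ∧ z.2 + i ≤ z'.2 := by
  induction i generalizing z with
  | zero => exact ⟨z, rfl, by omega, by omega⟩
  | succ i ih =>
    have hb := hk t
    rw [Nat.mul_add, Nat.mul_one] at h1
    obtain ⟨z', a1, a2, a3⟩ := ih (z := N.sys.nx t z)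
      (by show D + k * i ≤ z.1 - N.p1 t + N.q1 t; omega)
      (by show N.p2 t ≤ z.2 - N.p2 t + N.q2 t; omega)
    refine ⟨z', ⟨⟨by omega, h2⟩, a1⟩, a2, ?_⟩
    have e : (N.sys.nx t z).2 = z.2 - N.p2 t + N.q2 t := rfl
    rw [e] at a3
    omega

theorem countP_le_card [Fintype τ] [DecidableEq τ] (L : List τ) (g : ℕ) :
    L.countP (fun t => decide (¬ g ≤ L.count t)) ≤ Fintype.card τ * g := by
  have h1 : ∀ (p : τ → Bool) (L : List τ), L.countP p = ∑ t, if p t then L.count t else 0 := by
    intro p L
    induction L with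
    | nil => simp
    | cons a L ih =>
      rw [List.countP_cons, ih]
      have : ∀ t, (if p t then (a :: L).count t else 0) =
          (if p t then L.count t else 0) + (if a = t then (if p t then 1 else 0) else 0) := by
        intro t
        by_cases hp : p t
        · by_cases ha : a = t
          · simp [hp, ha]
          · simp [hp, ha]
        · simp [hp]
      rw [Finset.sum_congr rfl fun t _ => this t, Finset.sum_add_distrib]
      simp
  rw [h1]
  calc ∑ t, (if decide (¬ g ≤ L.count t) then L.count t else 0) ≤ ∑ _t : τ, g := by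
        refine Finset.sum_le_sum fun t _ => ?_
        split_ifs with h
        · have := of_decide_eq_true h
          omega
        · exact Nat.zero_le _
    _ = Fintype.card τ * g := by simp

/-- In a run from `(0,0)` whose letters cannot fill both places, the second place changes rarely
while the first one is high. -/
theorem rare_bound [Fintype τ] [DecidableEq τ] (hk : N.Bd k) {D : ℕ} {R : List τ} {s' : ℕ × ℕ}
    (h : N.sys.Run (0, 0) R s') (hc : ¬ Cov N D R) :
    N.sys.cnt (fun z t _ => hh k D ≤ z.1 ∧ N.p2 t ≠ N.q2 t) (0, 0) R ≤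
      (k + 1) * (Fintype.card τ * gg k D) := by
  classical
  by_cases hvis : ∃ z ∈ N.sys.sts (0, 0) R, hh k D ≤ z.1
  · obtain ⟨z0, hz0, hz0'⟩ := hvis
    obtain ⟨z, hz, hmax⟩ := Finset.exists_max_image
      ((N.sys.sts (0, 0) R).toFinset.filter fun z => hh k D ≤ z.1) (fun z => z.2)
      ⟨z0, by simp [hz0, hz0']⟩
    rw [Finset.mem_filter, List.mem_toFinset] at hz
    have hq : ∀ t, gg k D ≤ R.count t → N.p2 t ≤ z.2 → N.q2 t ≤ N.p2 t := by
      intro t ht hp
      by_contra hcon
      rw [not_le] at hcon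
      obtain ⟨A, B, hAB, h1, h2⟩ := Sys.exists_split h hz.1
      obtain ⟨z', h3, h4, h5⟩ := pump hk hcon (D := D) (i := D) hz.2 hp
      refine hc (cov_of_freq hk (P := A) (X := List.replicate D t) (s := z') ?_ ?_ (h1.append h3)
        h4 (by omega))
      · rw [hAB]
        exact (List.sublist_append_left A B).subperm
      · intro t' ht'
        rw [List.eq_of_mem_replicate ht']
        exact ht
    have h1 := cnt_potential (F := fun t => gg k D ≤ R.count t) hk hq h
    have h2 := countP_le_card R (gg k D)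
    have h3 : N.sys.cnt (fun z t _ => hh k D ≤ z.1 ∧ N.p2 t ≠ N.q2 t) (0, 0) R ≤
        N.sys.cnt (fun z' t _ => z'.2 ≤ z.2 ∧ N.p2 t ≠ N.q2 t) (0, 0) R := by
      refine Sys.cnt_mono h fun w hw t _ _ hcw => ⟨?_, hcw.2⟩
      exact hmax w (by simp [hw, hcw.1])
    have h4 : min (0, 0).2 z.2 = 0 := by simp
    rw [h4] at h1
    exact h3.trans ((Nat.le_add_right _ _).trans (h1.trans (by
      rw [Nat.add_zero]
      exact Nat.mul_le_mul_left _ h2)))
  · rw [Sys.cnt_eq_zero h]
    · exact Nat.zero_le _
    · intro z hz t _ _ hcz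
      exact hvis ⟨z, hz, hcz.1⟩

end Net

end Pool.Agent.J4H95.FS
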