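import Pool.Agent.J4H95.FS.Dec

/-!
# Schedules of a three-machine flow shop and closed runs
-/

set_option autoImplicit false

namespace Pool.Agent.J4H95.FS

/-- Total processing times. -/
def sumA (J : List Job) : ℕ := (J.map fun t => t.1).sum
def sumB (J : List Job) : ℕ := (J.map fun t => t.2.1).sum
def sumC (J : List Job) : ℕ := (J.map fun t => t.2.2).sum

/-- The jobs together with unit jobs filling the idle times. -/
def allJobs (T : ℕ) (J : List Job) : List Job :=
  J ++ (List.replicate (T - sumC J) (0, 0, 1) ++ (List.replicate (T - sumB J) (0, 1, 0) ++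
    List.replicate (T - sumA J) (1, 0, 0)))

/-- A schedule of makespan at most `T`. -/
def IsSched {n : ℕ} (p : Fin n → Fin 3 → ℕ) (T : ℕ) (s : Fin n → Fin 3 → ℕ) : Prop :=
  (∀ j, s j 0 + p j 0 ≤ s j 1 ∧ s j 1 + p j 1 ≤ s j 2) ∧
  (∀ (i : Fin 3) (j j' : Fin n), j ≠ j' →
    s j i + p j i ≤ s j' i ∨ s j' i + p j' i ≤ s j i) ∧
  (∀ j, s j 2 + p j 2 ≤ T)

/-- The job of an index. -/
def jobOf {n : ℕ} (p : Fin n → Fin 3 → ℕ) (j : Fin n) : Job := (p j 0, p j 1, p j 2)

@[simp] theorem sumA_nil : sumA [] = 0 := rfl
@[simp] theorem sumB_nil : sumB [] = 0 := rfl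
@[simp] theorem sumC_nil : sumC [] = 0 := rfl
@[simp] theorem sumA_cons (t : Job) (J : List Job) : sumA (t :: J) = t.1 + sumA J := by
  simp [sumA]
@[simp] theorem sumB_cons (t : Job) (J : List Job) : sumB (t :: J) = t.2.1 + sumB J := by
  simp [sumB]
@[simp] theorem sumC_cons (t : Job) (J : List Job) : sumC (t :: J) = t.2.2 + sumC J := by
  simp [sumC]
@[simp] theorem sumA_append (I J : List Job) : sumA (I ++ J) = sumA I + sumA J := by
  simp [sumA]
@[simp] theorem sumB_append (I J : List Job) : sumB (I ++ J) = sumB I + sumB J := by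
  simp [sumB]
@[simp] theorem sumC_append (I J : List Job) : sumC (I ++ J) = sumC I + sumC J := by
  simp [sumC]
theorem sumA_perm {I J : List Job} (h : I.Perm J) : sumA I = sumA J := (h.map _).sum_eq
theorem sumB_perm {I J : List Job} (h : I.Perm J) : sumB I = sumB J := (h.map _).sum_eq
theorem sumC_perm {I J : List Job} (h : I.Perm J) : sumC I = sumC J := (h.map _).sum_eq
@[simp] theorem sumC_replicate (i : ℕ) (t : Job) : sumC (List.replicate i t) = i * t.2.2 := by
  simp [sumC]

theorem run_rep_c (u v i : ℕ) : jnet.sys.Run (u, v) (List.replicate i (0, 0, 1)) (u, v + i) := by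
  induction i generalizing v with
  | zero => exact rfl
  | succ i ih =>
    refine ⟨⟨Nat.zero_le _, Nat.zero_le _⟩, ?_⟩
    have e : jnet.sys.nx (0, 0, 1) (u, v) = (u, v + 1) := rfl
    rw [e, show v + (i + 1) = v + 1 + i by omega]
    exact ih (v + 1)

theorem run_rep_b (u v i : ℕ) (h : i ≤ v) :
    jnet.sys.Run (u, v) (List.replicate i (0, 1, 0)) (u + i, v - i) := by
  induction i generalizing u v with
  | zero => exact rfl
  | succ i ih =>
    refine ⟨⟨Nat.zero_le _, show 1 ≤ v by omega⟩, ?_⟩
    have e : jnet.sys.nx (0, 1, 0) (u, v) = (u + 1, v - 1) := rfl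
    rw [e, show u + (i + 1) = u + 1 + i by omega, show v - (i + 1) = v - 1 - i by omega]
    exact ih (u + 1) (v - 1) (by omega)

theorem run_rep_a (u v i : ℕ) (h : i ≤ u) :
    jnet.sys.Run (u, v) (List.replicate i (1, 0, 0)) (u - i, v) := by
  induction i generalizing u v with
  | zero => exact rfl
  | succ i ih =>
    refine ⟨⟨show 1 ≤ u by omega, Nat.zero_le _⟩, ?_⟩
    have e : jnet.sys.nx (1, 0, 0) (u, v) = (u - 1, v) := rfl
    rw [e, show u - (i + 1) = u - 1 - i by omega]
    exact ih (u - 1) v (by omega)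

/-- Disjoint intervals in an interval. -/
theorem disjoint_sum {n : ℕ} (st ln : Fin n → ℕ) (hdis : ∀ j j', j ≠ j' →
    st j + ln j ≤ st j' ∨ st j' + ln j' ≤ st j) (J : List (Fin n)) (hJ : J.Nodup) (lo hi : ℕ)
    (h : ∀ j ∈ J, lo ≤ st j ∧ st j + ln j ≤ hi) : (J.map ln).sum ≤ hi - lo := by
  rw [← List.sum_toFinset _ hJ]
  have h1 : ∑ j ∈ J.toFinset, ln j = (J.toFinset.biUnion fun j =>
      Finset.Ico (st j) (st j + ln j)).card := by
    rw [Finset.card_biUnion]
    · refine Finset.sum_congr rfl fun j _ => ?_
      rw [Nat.card_Ico]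
      omega
    · intro j _ j' _ hne
      rw [Function.onFun, Finset.disjoint_left]
      intro x hx hx'
      rw [Finset.mem_Ico] at hx hx'
      rcases hdis j j' hne with h | h <;> omega
  rw [h1, ← Nat.card_Ico]
  refine Finset.card_le_card fun x hx => ?_
  obtain ⟨j, hj, hx⟩ := Finset.mem_biUnion.1 hx
  rw [Finset.mem_Ico] at hx ⊢
  have := h j (List.mem_toFinset.1 hj)
  omega

section

variable {n : ℕ} (p s : Fin n → Fin 3 → ℕ) (T : ℕ)

/-- The jobs in a given order with unit jobs filling the idle time of the second machine. -/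
def build : ℕ → List (Fin n) → List Job
  | t, [] => List.replicate (T - t) (0, 1, 0)
  | t, j :: js => List.replicate (s j 1 - t) (0, 1, 0) ++ (jobOf p j :: build (s j 1 + p j 1) js)

/-- The conditions for `build`. -/
def Okk : ℕ → ℕ → List (Fin n) → Prop
  | a, t, [] => a ≤ t ∧ t ≤ T
  | a, t, j :: js => a ≤ t ∧ t ≤ s j 1 ∧ a + p j 0 ≤ s j 1 ∧
      s j 1 + p j 1 + (p j 2 + sumC (js.map (jobOf p))) ≤ T ∧ Okk (a + p j 0) (s j 1 + p j 1) js

variable {p s T}

theorem Okk.sumB {a t : ℕ} {js : List (Fin n)} (h : Okk p s T a t js) :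
    t + sumB (js.map (jobOf p)) ≤ T := by
  induction js generalizing a t with
  | nil => exact h.2
  | cons j js ih =>
    obtain ⟨-, h2, h3, h4, h5⟩ := h
    have := ih h5
    rw [List.map_cons, sumB_cons]
    show t + (p j 1 + _) ≤ T
    omega

theorem Okk.sumA {a t : ℕ} {js : List (Fin n)} (h : Okk p s T a t js) :
    a + sumA (js.map (jobOf p)) ≤ T := by
  induction js generalizing a t with
  | nil =>
    have := h.1
    have := h.2
    simp only [List.map_nil, sumA_nil]
    omega
  | cons j js ih =>
    obtain ⟨-, h2, h3, h4, h5⟩ := h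
    have := ih h5
    rw [List.map_cons, sumA_cons]
    show a + (p j 0 + _) ≤ T
    omega

theorem build_perm {a t : ℕ} {js : List (Fin n)} (h : Okk p s T a t js) :
    (build p s T t js).Perm (js.map (jobOf p) ++
      List.replicate (T - t - FS.sumB (js.map (jobOf p))) (0, 1, 0)) := by
  induction js generalizing a t with
  | nil => exact List.Perm.of_eq (by simp [build])
  | cons j js ih =>
    have hB := h.sumB
    obtain ⟨-, h2, h3, h4, h5⟩ := h
    have h6 := ih h5
    have hB2 := h5.sumB
    rw [List.map_cons, sumB_cons] at hB ⊢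
    have e1 : (jobOf p j).2.1 = p j 1 := rfl
    rw [e1] at hB ⊢
    rw [show T - t - (p j 1 + FS.sumB (js.map (jobOf p))) = (s j 1 - t) +
      (T - (s j 1 + p j 1) - FS.sumB (js.map (jobOf p))) by omega]
    rw [List.replicate_add]
    show (List.replicate (s j 1 - t) (0, 1, 0) ++ (jobOf p j :: build p s T (s j 1 + p j 1) js)).Perm
      _
    refine (List.Perm.append_left _ (h6.cons (jobOf p j))).trans ?_
    rw [List.perm_iff_count]
    intro c
    simp only [List.count_append, List.count_cons]
    omega

theorem build_run {a t : ℕ} {js : List (Fin n)} (h : Okk p s T a t js)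
    (hC : t + FS.sumC (js.map (jobOf p)) ≤ T) :
    jnet.sys.Run (t - a, T - FS.sumC (js.map (jobOf p)) - t) (build p s T t js)
      (T - a - FS.sumA (js.map (jobOf p)), 0) := by
  induction js generalizing a t with
  | nil =>
    have h1 := h.1
    have h2 := h.2
    simp only [List.map_nil, sumC_nil, sumA_nil, Nat.sub_zero]
    have := run_rep_b (t - a) (T - t) (T - t) le_rfl
    rwa [Nat.sub_self, show t - a + (T - t) = T - a by omega] at this
  | cons j js ih =>
    obtain ⟨h1, h2, h3, h4, h5⟩ := h
    have h6 := ih h5 (by omega)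
    rw [List.map_cons, sumC_cons, sumA_cons] at *
    have e1 : (jobOf p j).1 = p j 0 := rfl
    have e2 : (jobOf p j).2.2 = p j 2 := rfl
    rw [e1, e2] at *
    refine (run_rep_b (t - a) _ (s j 1 - t) (by omega)).append ?_
    refine ⟨⟨?_, ?_⟩, ?_⟩
    · show p j 0 ≤ t - a + (s j 1 - t)
      omega
    · show p j 1 ≤ T - (p j 2 + FS.sumC (js.map (jobOf p))) - t - (s j 1 - t)
      omega
    · have e : jnet.sys.nx (jobOf p j) (t - a + (s j 1 - t),
          T - (p j 2 + FS.sumC (js.map (jobOf p))) - t - (s j 1 - t)) =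
          (s j 1 + p j 1 - (a + p j 0), T - FS.sumC (js.map (jobOf p)) - (s j 1 + p j 1)) := by
        ext
        · show t - a + (s j 1 - t) - p j 0 + p j 1 = s j 1 + p j 1 - (a + p j 0)
          omega
        · show T - (p j 2 + FS.sumC (js.map (jobOf p))) - t - (s j 1 - t) - p j 1 + p j 2 =
            T - FS.sumC (js.map (jobOf p)) - (s j 1 + p j 1)
          omega
      rw [e, show T - a - (p j 0 + FS.sumA (js.map (jobOf p))) =
        T - (a + p j 0) - FS.sumA (js.map (jobOf p)) by omega]
      exact h6

/-- The order by the second machine satisfies the conditions. -/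
theorem okk_of_sched (h : IsSched p T s) : ∀ (js done : List (Fin n)) (t : ℕ),
    (done ++ js).Nodup → (done ++ js).Pairwise (fun l j => s l 1 + p l 1 ≤ s j 1) →
    (∀ j ∈ js, t ≤ s j 1) → FS.sumA (done.map (jobOf p)) ≤ t → t ≤ T →
    Okk p s T (FS.sumA (done.map (jobOf p))) t js := by
  obtain ⟨hpre, hdis, hT⟩ := h
  intro js
  induction js with
  | nil =>
    intro done t _ _ _ h1 h2
    exact ⟨h1, h2⟩
  | cons j js ih =>
    intro done t hnd hpw ht h1 h2
    have e : done ++ j :: js = (done ++ [j]) ++ js := by simp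
    have hpw' := hpw
    have hnd' := hnd
    rw [e] at hpw' hnd'
    have hbefore : ∀ l ∈ done, s l 1 + p l 1 ≤ s j 1 := by
      intro l hl
      exact (List.pairwise_append.1 hpw).2.2 l hl j List.mem_cons_self
    have hafter : ∀ l ∈ js, s j 1 + p j 1 ≤ s l 1 := by
      intro l hl
      exact (List.pairwise_cons.1 (List.pairwise_append.1 hpw).2.1).1 l hl
    have hA : FS.sumA (done.map (jobOf p)) + p j 0 ≤ s j 1 := by
      have := disjoint_sum (fun j => s j 0) (fun j => p j 0) (fun j j' => hdis 0 j j')
        (done ++ [j]) (List.nodup_append.1 hnd').1 0 (s j 1) (by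
          intro l hl
          refine ⟨Nat.zero_le _, ?_⟩
          rcases List.mem_append.1 hl with hl | hl
          · have h3 := hbefore l hl
            have h4 := (hpre l).1
            show s l 0 + p l 0 ≤ s j 1
            omega
          · rw [List.mem_singleton.1 hl]
            exact (hpre j).1)
      rw [List.map_append, List.sum_append, List.map_singleton, List.sum_singleton] at this
      have e3 : FS.sumA (done.map (jobOf p)) = (done.map fun j => p j 0).sum := by
        unfold FS.sumA
        rw [List.map_map]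
        rfl
      rw [e3]
      omega
    have hC : s j 1 + p j 1 + (p j 2 + sumC (js.map (jobOf p))) ≤ T := by
      have := disjoint_sum (fun j => s j 2) (fun j => p j 2) (fun j j' => hdis 2 j j')
        (j :: js) ((List.nodup_append.1 hnd).2.1) (s j 1 + p j 1) T (by
          intro l hl
          refine ⟨?_, hT l⟩
          rcases List.mem_cons.1 hl with rfl | hl
          · exact (hpre l).2
          · have h3 := hafter l hl
            have h4 := (hpre l).2
            show s j 1 + p j 1 ≤ s l 2
            omega)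
      rw [List.map_cons, List.sum_cons] at this
      have e3 : FS.sumC (js.map (jobOf p)) = (js.map fun j => p j 2).sum := by
        unfold FS.sumC
        rw [List.map_map]
        rfl
      have h3 := (hpre j).2
      have h4 := hT j
      rw [e3]
      omega
    refine ⟨h1, ht j List.mem_cons_self, hA, hC, ?_⟩
    have e4 : FS.sumA ((done ++ [j]).map (jobOf p)) = FS.sumA (done.map (jobOf p)) + p j 0 := by
      rw [List.map_append, sumA_append, List.map_singleton, sumA_cons, sumA_nil]
      rfl
    rw [← e4]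
    exact ih (done ++ [j]) (s j 1 + p j 1) hnd' hpw' hafter (by rw [e4]; omega) (by omega)

end

theorem run_of_sched {n : ℕ} {p s : Fin n → Fin 3 → ℕ} {T : ℕ} (h : IsSched p T s) :
    let J := List.ofFn (jobOf p)
    sumA J ≤ T ∧ sumB J ≤ T ∧ sumC J ≤ T ∧
      ∃ L, L.Perm (allJobs T J) ∧ jnet.sys.Run (0, 0) L (0, 0) := by
  intro J
  have h' := h
  obtain ⟨hpre, hdis, hT⟩ := h'
  have hJ : J = (List.finRange n).map (jobOf p) := List.ofFn_eq_map
  set r : Fin n → Fin n → Prop := fun l j => 2 * s l 1 + p l 1 ≤ 2 * s j 1 + p j 1 with hr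
  have : DecidableRel r := fun l j => inferInstanceAs (Decidable (_ ≤ _))
  have : Std.Total r := ⟨fun l j => Nat.le_total _ _⟩
  have : IsTrans (Fin n) r := ⟨fun _ _ _ h1 h2 => Nat.le_trans h1 h2⟩
  set σ := (List.finRange n).insertionSort r with hσ
  have hperm : σ.Perm (List.finRange n) := List.perm_insertionSort r _
  have hnd : σ.Nodup := hperm.nodup_iff.2 (List.nodup_finRange n)
  have hpw : σ.Pairwise (fun l j => s l 1 + p l 1 ≤ s j 1) := by
    have h1 : σ.Pairwise r := List.pairwise_insertionSort r _
    have h2 : σ.Pairwise (fun l j => r l j ∧ l ≠ j) := h1.and hnd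
    refine h2.imp ?_
    rintro l j ⟨h3, h4⟩
    have h5 : 2 * s l 1 + p l 1 ≤ 2 * s j 1 + p j 1 := h3
    rcases hdis 1 l j h4 with h | h <;> omega
  have hok : Okk p s T 0 0 σ := by
    have := okk_of_sched h σ [] 0 (by simpa using hnd) (by simpa using hpw)
      (fun _ _ => Nat.zero_le _) (le_refl _) (Nat.zero_le _)
    simpa using this
  have hJp : (σ.map (jobOf p)).Perm J := by rw [hJ]; exact hperm.map _
  have hC : sumC (σ.map (jobOf p)) ≤ T := by
    have := disjoint_sum (fun j => s j 2) (fun j => p j 2) (fun j j' => hdis 2 j j')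
      σ hnd 0 T (fun l _ => ⟨Nat.zero_le _, hT l⟩)
    have e3 : FS.sumC (σ.map (jobOf p)) = (σ.map fun j => p j 2).sum := by
      unfold FS.sumC
      rw [List.map_map]
      rfl
    rw [e3]
    omega
  have hA := hok.sumA
  have hB := hok.sumB
  rw [Nat.zero_add] at hA hB
  have hb := build_run hok (by omega)
  have hbp := build_perm hok
  rw [Nat.sub_zero, Nat.sub_zero, Nat.sub_zero] at hb
  rw [Nat.sub_zero] at hbp
  rw [sumA_perm hJp] at hA hb
  rw [sumB_perm hJp] at hB hbp
  rw [sumC_perm hJp] at hC hb
  refine ⟨hA, hB, hC, List.replicate (T - sumC J) (0, 0, 1) ++ (build p s T 0 σ ++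
    List.replicate (T - sumA J) (1, 0, 0)), ?_, ?_⟩
  · unfold allJobs
    have h1 : (build p s T 0 σ).Perm (J ++ List.replicate (T - sumB J) (0, 1, 0)) :=
      hbp.trans (hJp.append_right _)
    refine (List.Perm.append_left _ (h1.append_right _)).trans ?_
    rw [List.perm_iff_count]
    intro c
    simp only [List.count_append]
    omega
  · have h1 := run_rep_c 0 0 (T - sumC J)
    rw [Nat.zero_add] at h1
    have h2 := run_rep_a (T - sumA J) 0 (T - sumA J) le_rfl
    rw [Nat.sub_self] at h2
    exact h1.append (hb.append h2)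

theorem exists_map_perm {α β : Type} [DecidableEq α] (g : α → β) {L : List β} : ∀ {M : List α},
    L.Perm (M.map g) → ∃ L' : List α, L'.Perm M ∧ L'.map g = L := by
  induction L with
  | nil =>
    intro M h
    have : M = [] := by simpa using h.nil_eq.symm
    exact ⟨[], by rw [this], rfl⟩
  | cons x L ih =>
    intro M h
    have hx : x ∈ M.map g := h.subset List.mem_cons_self
    obtain ⟨y, hy, rfl⟩ := List.mem_map.1 hx
    have h1 : M.Perm (y :: M.erase y) := List.perm_cons_erase hy
    have h2 : (g y :: L).Perm (g y :: (M.erase y).map g) := h.trans (h1.map g)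
    obtain ⟨L', h3, h4⟩ := ih h2.cons_inv
    exact ⟨y :: L', (h3.cons y).trans h1.symm, by rw [List.map_cons, h4]⟩

theorem takeWhile_prefix {α : Type} [DecidableEq α] {x y : α} (hxy : x ≠ y) {l : List α}
    (hx : x ∈ l) (hy : y ∈ l) :
    (l.takeWhile (fun z => decide (z ≠ x)) ++ [x]) <+: l.takeWhile (fun z => decide (z ≠ y)) ∨
    (l.takeWhile (fun z => decide (z ≠ y)) ++ [y]) <+: l.takeWhile (fun z => decide (z ≠ x)) := by
  induction l with
  | nil => simp at hx
  | cons z l ih =>
    by_cases h1 : z = x
    · subst h1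
      left
      have e1 : (z :: l).takeWhile (fun w => decide (w ≠ z)) = [] := by simp
      have e2 : (z :: l).takeWhile (fun w => decide (w ≠ y)) =
          z :: l.takeWhile (fun w => decide (w ≠ y)) := by simp [hxy]
      rw [e1, e2]
      exact ⟨_, rfl⟩
    · by_cases h2 : z = y
      · subst h2
        right
        have e1 : (z :: l).takeWhile (fun w => decide (w ≠ z)) = [] := by simp
        have e2 : (z :: l).takeWhile (fun w => decide (w ≠ x)) =
            z :: l.takeWhile (fun w => decide (w ≠ x)) := by simp [h1]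
        rw [e1, e2]
        exact ⟨_, rfl⟩
      · have hx' : x ∈ l := by
          rcases List.mem_cons.1 hx with h | h
          · exact absurd h.symm h1
          · exact h
        have hy' : y ∈ l := by
          rcases List.mem_cons.1 hy with h | h
          · exact absurd h.symm h2
          · exact h
        have e1 : (z :: l).takeWhile (fun w => decide (w ≠ x)) =
            z :: l.takeWhile (fun w => decide (w ≠ x)) := by simp [h1]
        have e2 : (z :: l).takeWhile (fun w => decide (w ≠ y)) =
            z :: l.takeWhile (fun w => decide (w ≠ y)) := by simp [h2]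
        rw [e1, e2]
        rcases ih hx' hy' with ⟨r, hr⟩ | ⟨r, hr⟩
        · left; exact ⟨r, by rw [← hr]; simp⟩
        · right; exact ⟨r, by rw [← hr]; simp⟩

theorem takeWhile_split {α : Type} [DecidableEq α] {x : α} {l : List α} (hx : x ∈ l) :
    ∃ Q, l = l.takeWhile (fun z => decide (z ≠ x)) ++ x :: Q := by
  induction l with
  | nil => simp at hx
  | cons z l ih =>
    by_cases h : z = x
    · subst h
      exact ⟨l, by simp⟩
    · have hx' : x ∈ l := by
        rcases List.mem_cons.1 hx with h' | h'
        · exact absurd h'.symm h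
        · exact h'
      obtain ⟨Q, hQ⟩ := ih hx'
      refine ⟨Q, ?_⟩
      have e1 : (z :: l).takeWhile (fun w => decide (w ≠ x)) =
          z :: l.takeWhile (fun w => decide (w ≠ x)) := by simp [h]
      rw [e1, List.cons_append, ← hQ]

theorem jnet_e1 (L : List Job) : jnet.e1 L = (sumB L : ℤ) - sumA L := by
  induction L with
  | nil => simp
  | cons t L ih =>
    rw [Net.e1_cons, ih, sumA_cons, sumB_cons]
    show (t.2.1 : ℤ) - t.1 + _ = _
    push_cast
    ring

theorem jnet_e2 (L : List Job) : jnet.e2 L = (sumC L : ℤ) - sumB L := by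
  induction L with
  | nil => simp
  | cons t L ih =>
    rw [Net.e2_cons, ih, sumB_cons, sumC_cons]
    show (t.2.2 : ℤ) - t.2.1 + _ = _
    push_cast
    ring

theorem sched_of_run {n : ℕ} {p : Fin n → Fin 3 → ℕ} {T : ℕ} {L : List Job}
    (hC : sumC (List.ofFn (jobOf p)) ≤ T)
    (hL : L.Perm (allJobs T (List.ofFn (jobOf p)))) (hrun : jnet.sys.Run (0, 0) L (0, 0)) :
    ∃ s, IsSched p T s := by
  set J := List.ofFn (jobOf p) with hJ
  set g : Option (Fin n) ⊕ Fin 3 → Job := fun x => match x with
    | Sum.inl (some j) => jobOf p j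
    | Sum.inl none => (0, 0, 0)
    | Sum.inr 0 => (1, 0, 0)
    | Sum.inr 1 => (0, 1, 0)
    | Sum.inr 2 => (0, 0, 1) with hg
  set M : List (Option (Fin n) ⊕ Fin 3) := (List.finRange n).map (fun j => Sum.inl (some j)) ++
    (List.replicate (T - sumC J) (Sum.inr 2) ++ (List.replicate (T - sumB J) (Sum.inr 1) ++
    List.replicate (T - sumA J) (Sum.inr 0))) with hM
  have hMg : M.map g = allJobs T J := by
    rw [hM, List.map_append, List.map_append, List.map_append, List.map_replicate,
      List.map_replicate, List.map_replicate, List.map_map]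
    unfold allJobs
    congr 1
    rw [hJ, List.ofFn_eq_map]
    rfl
  rw [← hMg] at hL
  obtain ⟨K, hK, rfl⟩ := exists_map_perm g hL
  have hmem : ∀ j : Fin n, Sum.inl (some j) ∈ K := by
    intro j
    rw [hK.mem_iff, hM]
    refine List.mem_append_left _ ?_
    exact List.mem_map.2 ⟨j, List.mem_finRange j, rfl⟩
  set P : Fin n → List Job := fun j =>
    (K.takeWhile (fun z => decide (z ≠ Sum.inl (some j)))).map g with hP
  have hsplit : ∀ j, ∃ Q, K.map g = P j ++ jobOf p j :: Q := by
    intro j
    obtain ⟨Q, hQ⟩ := takeWhile_split (hmem j)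
    refine ⟨Q.map g, ?_⟩
    conv_lhs => rw [hQ]
    rw [List.map_append, List.map_cons]
  have hen : ∀ j, sumA (P j) + p j 0 ≤ sumB (P j) ∧ sumB (P j) + p j 1 ≤ sumC (P j) := by
    intro j
    obtain ⟨Q, hQ⟩ := hsplit j
    rw [hQ] at hrun
    obtain ⟨m, h1, h2⟩ := Sys.run_append.1 hrun
    have h3 : p j 0 ≤ m.1 ∧ p j 1 ≤ m.2 := h2.1
    have h4 := Net.run_e1 h1
    have h5 := Net.run_e2 h1
    rw [jnet_e1] at h4
    rw [jnet_e2] at h5
    simp only [Nat.cast_zero, zero_add] at h4 h5
    omega
  have hne : ∀ j j' : Fin n, j ≠ j' →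
      (Sum.inl (some j) : Option (Fin n) ⊕ Fin 3) ≠ Sum.inl (some j') := by
    intro j j' h h'
    exact h (by simpa using h')
  have hord : ∀ j j', j ≠ j' → (∃ R, P j' = P j ++ jobOf p j :: R) ∨
      (∃ R, P j = P j' ++ jobOf p j' :: R) := by
    intro j j' h
    rcases takeWhile_prefix (hne j j' h) (hmem j) (hmem j') with ⟨r, hr⟩ | ⟨r, hr⟩
    · left
      refine ⟨r.map g, ?_⟩
      rw [hP]
      simp only
      rw [← hr]
      simp
      rfl
    · right
      refine ⟨r.map g, ?_⟩
      rw [hP]
      simp only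
      rw [← hr]
      simp
      rfl
  refine ⟨fun j i => match i with
    | 0 => sumA (P j)
    | 1 => sumB (P j)
    | 2 => sumC (P j), fun j => hen j, ?_, ?_⟩
  · intro i j j' h
    rcases hord j j' h with ⟨R, hR⟩ | ⟨R, hR⟩
    · left
      fin_cases i
      · show sumA (P j) + p j 0 ≤ sumA (P j')
        rw [hR, sumA_append, sumA_cons]
        show _ ≤ _ + (p j 0 + _)
        omega
      · show sumB (P j) + p j 1 ≤ sumB (P j')
        rw [hR, sumB_append, sumB_cons]
        show _ ≤ _ + (p j 1 + _)
        omega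
      · show sumC (P j) + p j 2 ≤ sumC (P j')
        rw [hR, sumC_append, sumC_cons]
        show _ ≤ _ + (p j 2 + _)
        omega
    · right
      fin_cases i
      · show sumA (P j') + p j' 0 ≤ sumA (P j)
        rw [hR, sumA_append, sumA_cons]
        show _ ≤ _ + (p j' 0 + _)
        omega
      · show sumB (P j') + p j' 1 ≤ sumB (P j)
        rw [hR, sumB_append, sumB_cons]
        show _ ≤ _ + (p j' 1 + _)
        omega
      · show sumC (P j') + p j' 2 ≤ sumC (P j)
        rw [hR, sumC_append, sumC_cons]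
        show _ ≤ _ + (p j' 2 + _)
        omega
  · intro j
    show sumC (P j) + p j 2 ≤ T
    obtain ⟨Q, hQ⟩ := hsplit j
    have h1 := sumC_perm hL
    rw [hMg, hQ, sumC_append, sumC_cons] at h1
    unfold allJobs at h1
    rw [sumC_append, sumC_append, sumC_append, sumC_replicate, sumC_replicate,
      sumC_replicate] at h1
    have h2 : (jobOf p j).2.2 = p j 2 := rfl
    rw [h2] at h1
    simp only [mul_one, mul_zero, add_zero] at h1
    omega

end Pool.Agent.J4H95.FS
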