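import Pool.Agent.J4H95.FS.Flat

/-!
# One step of flattening
-/

set_option autoImplicit false

namespace Pool.Agent.J4H95.FS.Net

variable {τ : Type} {N : Net τ} {k : ℕ}

theorem cnt_swap {c : ℕ × ℕ → τ → ℕ × ℕ → Prop} {s : ℕ × ℕ} {L : List τ} :
    N.swap.sys.cnt c s.swap L = N.sys.cnt (fun z t z' => c z.swap t z'.swap) s L := by
  classical
  induction L generalizing s with
  | nil => rfl
  | cons t L ih =>
    rw [Sys.cnt_cons, Sys.cnt_cons, ← ih]
    rfl

variable (N) in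
/-- The number of changes of the second place while the first is at least `h`. -/
noncomputable def chg1 (h : ℕ) (s : ℕ × ℕ) (L : List τ) : ℕ :=
  N.sys.cnt (fun z t _ => h ≤ z.1 ∧ N.p2 t ≠ N.q2 t) s L

variable (N) in
/-- The number of changes of the first place while the second is at least `h`. -/
noncomputable def chg2 (h : ℕ) (s : ℕ × ℕ) (L : List τ) : ℕ :=
  N.sys.cnt (fun z t _ => h ≤ z.2 ∧ N.p1 t ≠ N.q1 t) s L

theorem chg1_swap {h : ℕ} {s : ℕ × ℕ} {L : List τ} :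
    N.swap.chg1 h s.swap L = N.chg2 h s L := cnt_swap

theorem chg2_swap {h : ℕ} {s : ℕ × ℕ} {L : List τ} :
    N.swap.chg2 h s.swap L = N.chg1 h s L := cnt_swap

theorem chg1_append {h : ℕ} {s m : ℕ × ℕ} {A B : List τ} (hr : N.sys.Run s A m) :
    N.chg1 h s (A ++ B) = N.chg1 h s A + N.chg1 h m B := Sys.cnt_append hr

theorem chg2_append {h : ℕ} {s m : ℕ × ℕ} {A B : List τ} (hr : N.sys.Run s A m) :
    N.chg2 h s (A ++ B) = N.chg2 h s A + N.chg2 h m B := Sys.cnt_append hr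

theorem chg2_low {h : ℕ} {s m : ℕ × ℕ} {A : List τ} (hr : N.sys.Run s A m)
    (hl : ∀ z ∈ N.sys.sts s A, z.2 < h) : N.chg2 h s A = 0 :=
  Sys.cnt_eq_zero hr fun z hz t _ _ hc => by
    have := hl z hz
    omega

theorem countP_le_chg1 {h : ℕ} {s m : ℕ × ℕ} {A : List τ} (hr : N.sys.Run s A m)
    (hl : ∀ z ∈ N.sys.sts s A, h ≤ z.1) :
    A.countP (fun t => decide (N.p2 t ≠ N.q2 t)) ≤ N.chg1 h s A := by
  unfold chg1
  exact Sys.countP_le_cnt (p := fun t => N.p2 t ≠ N.q2 t) hr fun w hw t _ hp => ⟨hl w hw, hp⟩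

theorem chg1_le_countP {h : ℕ} {s : ℕ × ℕ} {A : List τ} :
    N.chg1 h s A ≤ A.countP (fun t => decide (N.p2 t ≠ N.q2 t)) := by
  unfold chg1
  exact Sys.cnt_le_countP (p := fun t => N.p2 t ≠ N.q2 t) fun z t z' hc => hc.2

/-- The invariant of flattening. -/
structure FInv (N : Net τ) (D h a a' r V : ℕ) (L : List τ) : Prop where
  run : N.sys.Run (0, 0) L (0, 0)
  c1 : N.chg1 h (0, 0) L ≤ a
  c2 : N.chg2 h (0, 0) L ≤ a'
  sh : ∀ z ∈ N.sys.sts (0, 0) L, z.1 < D ∨ z.2 < D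
  r1 : ∀ z ∈ N.sys.sts (0, 0) L, h ≤ z.1 → z.2 ≤ r
  r2 : ∃ z ∈ N.sys.sts (0, 0) L, h ≤ z.1 ∧ z.2 = r
  vb : ∀ z ∈ N.sys.sts (0, 0) L, z.2 ≤ V

/-- Words which can be inserted at any state with second place `r` and first place at least
`h`. -/
def Park (N : Net τ) (h r c : ℕ) (β : List τ) : Prop :=
  ∀ z : ℕ × ℕ, h ≤ z.1 → z.2 = r →
    N.sys.Run z β z ∧ ∀ w ∈ N.sys.sts z β, w.1 ≤ z.1 + c ∧ w.2 = r

theorem Park.nil {h r c : ℕ} : Park N h r c [] := by
  intro z _ h2
  refine ⟨rfl, ?_⟩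
  intro w hw
  obtain rfl : w = z := by simpa using hw
  exact ⟨Nat.le_add_right _ _, h2⟩

theorem Park.append {h r c : ℕ} {β γ : List τ} (h1 : Park N h r c β) (h2 : Park N h r c γ) :
    Park N h r c (β ++ γ) := by
  intro z hz1 hz2
  obtain ⟨a1, a2⟩ := h1 z hz1 hz2
  obtain ⟨b1, b2⟩ := h2 z hz1 hz2
  refine ⟨a1.append b1, ?_⟩
  intro w hw
  rcases (Sys.mem_sts_append a1).1 hw with hw | hw
  · exact a2 w hw
  · exact b2 w hw

theorem e1_rev (L : List τ) : N.rev.e1 L = - N.e1 L := by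
  induction L with
  | nil => simp
  | cons t L ih =>
    rw [e1_cons, e1_cons, ih]
    show (N.p1 t : ℤ) - N.q1 t + _ = _
    ring

/-- The bundle of two opposite letters. -/
theorem park_bundle (hk : N.Bd k) {t u : τ} {h r : ℕ} (hkh : k ≤ h)
    (t2 : N.p2 t = N.q2 t) (t1 : N.p1 t < N.q1 t) (u2 : N.p2 u = N.q2 u) (u1 : N.q1 u < N.p1 u)
    (ht : N.p2 t ≤ r) (hu : N.p2 u ≤ r) :
    Park N h r (k * k) (List.replicate (N.p1 u - N.q1 u) t ++
      List.replicate (N.q1 t - N.p1 t) u) := by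
  intro z hz1 hz2
  have hbt := hk t
  have hbu := hk u
  obtain ⟨a1, a2⟩ := run_rep t2 t1 (z := z) (N.p1 u - N.q1 u) (by omega) (by omega)
  obtain ⟨b1, b2⟩ := run_rep (N := N.rev) (t := u) u2.symm u1 (z := z) (N.q1 t - N.p1 t)
    (show N.q1 u ≤ z.1 by omega) (show N.q2 u ≤ z.2 by omega)
  have b1' : N.rev.sys.Run z (List.replicate (N.q1 t - N.p1 t) u)
      (z.1 + (N.q1 t - N.p1 t) * (N.p1 u - N.q1 u), z.2) := b1
  have b2' : ∀ w ∈ N.rev.sys.sts z (List.replicate (N.q1 t - N.p1 t) u),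
      w.1 ≤ z.1 + (N.q1 t - N.p1 t) * (N.p1 u - N.q1 u) ∧ w.2 = z.2 := b2
  have hmul : (N.q1 t - N.p1 t) * (N.p1 u - N.q1 u) ≤ k * k :=
    Nat.mul_le_mul (by omega) (by omega)
  rw [Nat.mul_comm (N.q1 t - N.p1 t)] at b1' b2' hmul
  have b3 := run_rev_aux b1'
  rw [rev_rev, List.reverse_replicate] at b3
  refine ⟨a1.append b3, ?_⟩
  intro w hw
  rcases (Sys.mem_sts_append a1).1 hw with hw | hw
  · have := a2 w hw
    omega
  · have hw' : w ∈ N.rev.sys.sts z (List.replicate (N.q1 t - N.p1 t) u) := by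
      have := (mem_sts_rev b3).2 hw
      rwa [List.reverse_replicate] at this
    have := b2' w hw'
    omega

/-- One step of flattening. -/
theorem flat_step [Fintype τ] [DecidableEq τ] (hk : N.Bd k) {D h a a' r V B : ℕ} (hD : D ≤ h)
    (hkh : k ≤ h) (hh0 : 0 < h)
    (hB : k * a + Fintype.card τ * (k * k) + k * k + k ≤ B) {L : List τ}
    (hL : FInv N D h a a' r V L) {z : ℕ × ℕ} (hz : z ∈ N.sys.sts (0, 0) L) (hzB : h + B < z.1) :
    ∃ L' β, L.Perm (L' ++ β) ∧ L'.length < L.length ∧ FInv N D h a a' r V L' ∧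
      Park N h r (k * k) β := by
  classical
  obtain ⟨X, Y, hXY, hX, hY⟩ := Sys.exists_split hL.run hz
  obtain ⟨A, U, m, hAU, a1, a2, a3, a4⟩ := up_hit hk (θ := h + k * k) hX
    (show 0 < h + k * k by omega) (by omega)
  obtain ⟨W, C, m', hWC, b1, b2, b3, b4⟩ := down_hit hk (θ := h + k * k) hY
    (by omega) (show 0 < h + k * k by omega)
  subst hAU hWC hXY
  -- all states of the high part are states of `L`
  have hUL : ∀ w ∈ N.sys.sts m U, w ∈ N.sys.sts (0, 0) (A ++ U ++ (W ++ C)) := fun w hw =>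
    Sys.sts_sub_left hX (Sys.sts_sub_right a1 hw)
  have hWL : ∀ w ∈ N.sys.sts z W, w ∈ N.sys.sts (0, 0) (A ++ U ++ (W ++ C)) := fun w hw =>
    Sys.sts_sub_right hX (Sys.sts_sub_left b1 hw)
  have hAL : ∀ w ∈ N.sys.sts (0, 0) A, w ∈ N.sys.sts (0, 0) (A ++ U ++ (W ++ C)) := fun w hw =>
    Sys.sts_sub_left hX (Sys.sts_sub_left a1 hw)
  have hCL : ∀ w ∈ N.sys.sts m' C, w ∈ N.sys.sts (0, 0) (A ++ U ++ (W ++ C)) := fun w hw =>
    Sys.sts_sub_right hX (Sys.sts_sub_right b1 hw)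
  have hc1 : N.chg1 h (0, 0) (A ++ U ++ (W ++ C)) =
      (N.chg1 h (0, 0) A + N.chg1 h m U) + (N.chg1 h z W + N.chg1 h m' C) := by
    rw [chg1_append hX, chg1_append a1, chg1_append b1]
  have hc2 : N.chg2 h (0, 0) (A ++ U ++ (W ++ C)) =
      (N.chg2 h (0, 0) A + N.chg2 h m U) + (N.chg2 h z W + N.chg2 h m' C) := by
    rw [chg2_append hX, chg2_append a1, chg2_append b1]
  have hcU : U.countP (fun t => decide (N.p2 t ≠ N.q2 t)) ≤ N.chg1 h m U :=
    countP_le_chg1 a2 fun w hw => by have := a3 w hw; omega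
  have hcW : W.countP (fun t => decide (N.p2 t ≠ N.q2 t)) ≤ N.chg1 h z W :=
    countP_le_chg1 b1 fun w hw => by have := b3 w hw; omega
  have hLc := hL.c1
  have hLc2 := hL.c2
  rw [hc1] at hLc
  rw [hc2] at hLc2
  -- the two letters
  obtain ⟨t, t2, t1, t3⟩ := pigeon hk (U := U) (a := a) (by omega) (by
    have := run_e1 a2
    push_cast
    have h1 : ((k * a + Fintype.card τ * (k * k) + k * k + k : ℕ) : ℤ) ≤ B := by exact_mod_cast hB
    push_cast at h1
    have h2 : ((m.1 : ℕ) : ℤ) ≤ h + k * k + k := by exact_mod_cast a4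
    have h3 : ((h + B : ℕ) : ℤ) < z.1 := by exact_mod_cast hzB
    push_cast at h3
    linarith)
  obtain ⟨u, u2, u1, u3⟩ := pigeon hk.rev (U := W) (a := a) (by
    have e : (W.countP fun t => decide (N.rev.p2 t ≠ N.rev.q2 t)) =
        W.countP (fun t => decide (N.p2 t ≠ N.q2 t)) := by
      refine List.countP_congr fun t _ => ?_
      simp only [decide_eq_true_eq]
      exact ne_comm
    rw [e]
    omega) (by
    rw [e1_rev]
    have := run_e1 b1
    push_cast
    have h1 : ((k * a + Fintype.card τ * (k * k) + k * k + k : ℕ) : ℤ) ≤ B := by exact_mod_cast hB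
    push_cast at h1
    have h2 : ((m'.1 : ℕ) : ℤ) ≤ h + k * k + k := by exact_mod_cast b4
    have h3 : ((h + B : ℕ) : ℤ) < z.1 := by exact_mod_cast hzB
    push_cast at h3
    linarith)
  have u2' : N.p2 u = N.q2 u := Eq.symm u2
  have u1' : N.q1 u < N.p1 u := u1
  have hbt := hk t
  have hbu := hk u
  set x := N.p1 u - N.q1 u with hx
  set y := N.q1 t - N.p1 t with hy
  have hxk : x ≤ k := by omega
  have hyk : y ≤ k := by omega
  have hx1 : 1 ≤ x := by omega
  have hy1 : 1 ≤ y := by omega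
  have hyt : ((N.q1 t : ℤ) - N.p1 t) = y := by omega
  have hxu : ((N.q1 u : ℤ) - N.p1 u) = -x := by omega
  have hxy : (x * y : ℕ) ≤ k * k := Nat.mul_le_mul hxk hyk
  have hkh' : (k : ℤ) ≤ h := by exact_mod_cast hkh
  have hxy' : (x : ℤ) * y ≤ k * k := by exact_mod_cast hxy
  -- removing the letters
  obtain ⟨U', b, p1, p2, p3, p4, p5⟩ := remove hk t2 (x := x) (d := 0) (a := m.1) a2 (by omega) (by
      intro w hw i hi
      rw [hyt]
      have h1 : ((h + k * k : ℕ) : ℤ) ≤ w.1 := by exact_mod_cast a3 w hw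
      push_cast at h1
      have h2 : (i : ℤ) * y ≤ x * y := mul_le_mul_of_nonneg_right (by exact_mod_cast hi)
        (by positivity)
      linarith) (by simp)
  rw [hyt] at p2 p4
  obtain ⟨W', b', r1, r2, r3, r4, r5⟩ := remove hk u2' (x := y) (d := -(x * y : ℤ)) (a := b) b1
    (by omega) (by
      intro w hw i hi
      rw [hxu]
      have h1 : ((h + k * k : ℕ) : ℤ) ≤ w.1 := by exact_mod_cast b3 w hw
      push_cast at h1
      have h2 : (0 : ℤ) ≤ (i : ℤ) * x := by positivity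
      linarith) (by rw [p2]; ring)
  rw [hxu] at r2 r4
  have hb' : b' = m'.1 := by
    have : (b' : ℤ) = m'.1 := by rw [r2]; ring
    exact_mod_cast this
  rw [hb'] at r3
  have r3' : N.sys.Run (b, z.2) W' m' := r3
  have p3' : N.sys.Run m U' (b, z.2) := p3
  -- properties of the new high states
  have hU' : ∀ w ∈ N.sys.sts m U', h ≤ w.1 ∧ w.2 < D ∧ w.2 ≤ r ∧ w.2 ≤ V := by
    intro w' hw'
    obtain ⟨w, hw, i, hi, e1, e2⟩ := p4 w' hw'
    have h0 := a3 w hw
    have h1 : ((h + k * k : ℕ) : ℤ) ≤ w.1 := by exact_mod_cast h0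
    push_cast at h1
    have h2 : (i : ℤ) * y ≤ x * y := mul_le_mul_of_nonneg_right (by exact_mod_cast hi)
        (by positivity)
    have h3 : (h : ℤ) ≤ w'.1 := by rw [e1]; linarith
    have h4 : h ≤ w'.1 := by exact_mod_cast h3
    have h5 := hL.sh w (hUL w hw)
    have h6 := hL.r1 w (hUL w hw) (by omega)
    have h7 := hL.vb w (hUL w hw)
    rw [e2]
    exact ⟨h4, by omega, h6, h7⟩
  have hW' : ∀ w ∈ N.sys.sts (b, z.2) W', h ≤ w.1 ∧ w.2 < D ∧ w.2 ≤ r ∧ w.2 ≤ V := by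
    intro w' hw'
    obtain ⟨w, hw, i, hi, e1, e2⟩ := r4 w' hw'
    have h0 := b3 w hw
    have h1 : ((h + k * k : ℕ) : ℤ) ≤ w.1 := by exact_mod_cast h0
    push_cast at h1
    have h2 : (0 : ℤ) ≤ (i : ℤ) * x := by positivity
    have h3 : (h : ℤ) ≤ w'.1 := by rw [e1]; linarith
    have h4 : h ≤ w'.1 := by exact_mod_cast h3
    have h5 := hL.sh w (hWL w hw)
    have h6 := hL.r1 w (hWL w hw) (by omega)
    have h7 := hL.vb w (hWL w hw)
    rw [e2]
    exact ⟨h4, by omega, h6, h7⟩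
  have hrun1 : N.sys.Run (0, 0) (A ++ U') (b, z.2) := a1.append p3'
  have hrun2 : N.sys.Run (b, z.2) (W' ++ C) (0, 0) := r3'.append b2
  have hmem : ∀ w ∈ N.sys.sts (0, 0) (A ++ U' ++ (W' ++ C)), w ∈ N.sys.sts (0, 0) A ∨
      w ∈ N.sys.sts m U' ∨ w ∈ N.sys.sts (b, z.2) W' ∨ w ∈ N.sys.sts m' C := by
    intro w hw
    rcases (Sys.mem_sts_append hrun1).1 hw with hw | hw
    · rcases (Sys.mem_sts_append a1).1 hw with hw | hw
      · exact Or.inl hw
      · exact Or.inr (Or.inl hw)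
    · rcases (Sys.mem_sts_append r3').1 hw with hw | hw
      · exact Or.inr (Or.inr (Or.inl hw))
      · exact Or.inr (Or.inr (Or.inr hw))
  have hUc : U'.countP (fun t => decide (N.p2 t ≠ N.q2 t)) ≤
      U.countP (fun t => decide (N.p2 t ≠ N.q2 t)) := by
    rw [p1.countP_eq, List.countP_append]
    exact Nat.le_add_left _ _
  have hWc : W'.countP (fun t => decide (N.p2 t ≠ N.q2 t)) ≤
      W.countP (fun t => decide (N.p2 t ≠ N.q2 t)) := by
    rw [r1.countP_eq, List.countP_append]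
    exact Nat.le_add_left _ _
  have hUc' : N.chg1 h m U' ≤ U'.countP (fun t => decide (N.p2 t ≠ N.q2 t)) :=
    chg1_le_countP
  have hWc' : N.chg1 h (b, z.2) W' ≤ W'.countP (fun t => decide (N.p2 t ≠ N.q2 t)) :=
    chg1_le_countP
  have hperm : (A ++ U ++ (W ++ C)).Perm (A ++ U' ++ (W' ++ C) ++
      (List.replicate x t ++ List.replicate y u)) := by
    rw [List.perm_iff_count]
    intro c
    have e1 := p1.count_eq c
    have e2 := r1.count_eq c
    simp only [List.count_append] at e1 e2 ⊢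
    omega
  refine ⟨A ++ U' ++ (W' ++ C), List.replicate x t ++ List.replicate y u, hperm, ?_, ?_, ?_⟩
  · have := hperm.length_eq
    simp only [List.length_append, List.length_replicate] at this ⊢
    omega
  · refine ⟨hrun1.append hrun2, ?_, ?_, ?_, ?_, ?_, ?_⟩
    · rw [chg1_append hrun1, chg1_append a1, chg1_append r3']
      omega
    · rw [chg2_append hrun1, chg2_append a1, chg2_append r3',
        chg2_low p3' (fun w hw => by have := hU' w hw; omega),
        chg2_low r3' (fun w hw => by have := hW' w hw; omega)]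
      omega
    · intro w hw
      rcases hmem w hw with hw | hw | hw | hw
      · exact hL.sh w (hAL w hw)
      · exact Or.inr (hU' w hw).2.1
      · exact Or.inr (hW' w hw).2.1
      · exact hL.sh w (hCL w hw)
    · intro w hw hw1
      rcases hmem w hw with hw | hw | hw | hw
      · exact hL.r1 w (hAL w hw) hw1
      · exact (hU' w hw).2.2.1
      · exact (hW' w hw).2.2.1
      · exact hL.r1 w (hCL w hw) hw1
    · obtain ⟨w, hw, hw1, hw2⟩ := hL.r2
      rcases (Sys.mem_sts_append hX).1 hw with hw | hw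
      · rcases (Sys.mem_sts_append a1).1 hw with hw | hw
        · exact ⟨w, Sys.sts_sub_left hrun1 (Sys.sts_sub_left a1 hw), hw1, hw2⟩
        · obtain ⟨w', hw', e⟩ := p5 w hw
          exact ⟨w', Sys.sts_sub_left hrun1 (Sys.sts_sub_right a1 hw'), (hU' w' hw').1, e.trans hw2⟩
      · rcases (Sys.mem_sts_append b1).1 hw with hw | hw
        · obtain ⟨w', hw', e⟩ := r5 w hw
          exact ⟨w', Sys.sts_sub_right hrun1 (Sys.sts_sub_left r3' hw'), (hW' w' hw').1,
            e.trans hw2⟩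
        · exact ⟨w, Sys.sts_sub_right hrun1 (Sys.sts_sub_right r3' hw), hw1, hw2⟩
    · intro w hw
      rcases hmem w hw with hw | hw | hw | hw
      · exact hL.vb w (hAL w hw)
      · exact (hU' w hw).2.2.2
      · exact (hW' w hw).2.2.2
      · exact hL.vb w (hCL w hw)
  · have htU : t ∈ U := List.count_pos_iff.1 (by omega)
    have huW : u ∈ W := List.count_pos_iff.1 (by omega)
    obtain ⟨w, hw, hen⟩ := exists_en a2 htU
    obtain ⟨v, hv, hev⟩ := exists_en b1 huW
    refine park_bundle hk hkh t2 t1 u2' u1' ?_ ?_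
    · have h1 := hL.r1 w (hUL w hw) (by have := a3 w hw; omega)
      exact hen.2.trans h1
    · have h1 := hL.r1 v (hWL v hv) (by have := b3 v hv; omega)
      exact hev.2.trans h1

end Pool.Agent.J4H95.FS.Net
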